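import Pool.Agent.Helper3.LS.Final

/-!
MP_ecbc8a_al, packet 3 (handoff 109) for helper12: `lemS : LemS`.
-/

set_option autoImplicit false

namespace Pool.Agent.Helper3

theorem lemS : Pool.Agent.Helper12.TwoLen.LemS := LS.lemS

end Pool.Agent.Helper3
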