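import Mathlib

/-!
# Lines in three-space, distances from points to lines, and a parametrisation of lines
-/

namespace Pool.Agent.Helper3.Balls

open Set Filter Topology
open scoped RealInnerProductSpace

/-- three-dimensional Euclidean space -/
abbrev E3 : Type := EuclideanSpace ℝ (Fin 3)

/-- the line through `O` with direction `u` -/
noncomputable def line (O u : E3) : AffineSubspace ℝ E3 := AffineSubspace.mk' O (ℝ ∙ u)

lemma mem_line {O u x : E3} : x ∈ line O u ↔ ∃ t : ℝ, x = O + t • u := by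
  unfold line
  rw [AffineSubspace.mem_mk', Submodule.mem_span_singleton]
  constructor
  · rintro ⟨t, ht⟩
    exact ⟨t, by rw [ht, vsub_eq_sub]; abel⟩
  · rintro ⟨t, ht⟩
    exact ⟨t, by rw [ht, vsub_eq_sub]; abel⟩

/-- squared distance from `y` to the line through `O` with unit direction `u` -/
noncomputable def dsq (O u y : E3) : ℝ := ‖y - O‖ ^ 2 - ⟪y - O, u⟫ ^ 2

lemma norm_sq_param (O u y : E3) (hu : ‖u‖ = 1) (t : ℝ) :
    ‖y - (O + t • u)‖ ^ 2 = dsq O u y + (t - ⟪y - O, u⟫) ^ 2 := by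
  have : y - (O + t • u) = (y - O) - t • u := by abel
  rw [this, norm_sub_sq_real, inner_smul_right, norm_smul, hu]
  unfold dsq
  simp only [Real.norm_eq_abs, mul_one, sq_abs]
  ring

lemma dsq_nonneg (O u y : E3) (hu : ‖u‖ = 1) : 0 ≤ dsq O u y := by
  have := norm_sq_param O u y hu ⟪y - O, u⟫
  rw [sub_self] at this
  have h2 := sq_nonneg ‖y - (O + ⟪y - O, u⟫ • u)‖
  linarith

lemma infDist_line (O u y : E3) (hu : ‖u‖ = 1) :
    Metric.infDist y (line O u) = Real.sqrt (dsq O u y) := by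
  apply le_antisymm
  · have hm : O + ⟪y - O, u⟫ • u ∈ (line O u : Set E3) := mem_line.2 ⟨_, rfl⟩
    refine (Metric.infDist_le_dist_of_mem hm).trans ?_
    rw [dist_eq_norm]
    apply Real.le_sqrt_of_sq_le
    rw [norm_sq_param O u y hu, sub_self]
    simp
  · have hne : (line O u : Set E3).Nonempty := ⟨O, mem_line.2 ⟨0, by simp⟩⟩
    rw [Metric.le_infDist hne]
    intro x hx
    obtain ⟨t, rfl⟩ := mem_line.1 hx
    rw [dist_eq_norm]
    apply Real.sqrt_le_iff.2 ⟨norm_nonneg _, ?_⟩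
    rw [norm_sq_param O u y hu]
    nlinarith [sq_nonneg (t - ⟪y - O, u⟫)]

lemma infDist_line_eq_one {O u y : E3} (hu : ‖u‖ = 1) :
    Metric.infDist y (line O u) = 1 ↔ dsq O u y = 1 := by
  rw [infDist_line O u y hu, Real.sqrt_eq_one]

lemma one_lt_infDist_line {O u y : E3} (hu : ‖u‖ = 1) :
    1 < Metric.infDist y (line O u) ↔ 1 < dsq O u y := by
  rw [infDist_line O u y hu, Real.lt_sqrt (by norm_num)]
  norm_num

/-- `ℓ` is a line -/
def IsLine (ℓ : AffineSubspace ℝ E3) : Prop :=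
  (ℓ : Set E3).Nonempty ∧ Module.finrank ℝ ℓ.direction = 1

lemma isLine_line (O u : E3) (hu : ‖u‖ = 1) : IsLine (line O u) := by
  refine ⟨⟨O, mem_line.2 ⟨0, by simp⟩⟩, ?_⟩
  unfold line
  rw [AffineSubspace.direction_mk']
  apply finrank_span_singleton
  intro h
  rw [h] at hu
  simp at hu

lemma IsLine.exists_eq {ℓ : AffineSubspace ℝ E3} (h : IsLine ℓ) :
    ∃ O u : E3, ‖u‖ = 1 ∧ ℓ = line O u := by
  obtain ⟨⟨O, hO⟩, h1⟩ := h
  obtain ⟨v, hv, hv'⟩ := finrank_eq_one_iff'.1 h1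
  have hv0 : (v : E3) ≠ 0 := fun h0 => hv (Subtype.ext h0)
  refine ⟨O, (‖(v : E3)‖⁻¹ : ℝ) • (v : E3), ?_, ?_⟩
  · rw [norm_smul, norm_inv, norm_norm, inv_mul_cancel₀ (norm_ne_zero_iff.2 hv0)]
  · have hdir : ℓ.direction = ℝ ∙ ((‖(v : E3)‖⁻¹ : ℝ) • (v : E3)) := by
      apply le_antisymm
      · intro w hw
        obtain ⟨t, ht⟩ := hv' ⟨w, hw⟩
        rw [Submodule.mem_span_singleton]
        refine ⟨t * ‖(v : E3)‖, ?_⟩
        rw [smul_smul, mul_assoc, mul_inv_cancel₀ (norm_ne_zero_iff.2 hv0), mul_one]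
        exact congrArg Subtype.val ht
      · rw [Submodule.span_singleton_le_iff_mem]
        exact ℓ.direction.smul_mem _ v.2
    unfold line
    rw [← hdir, AffineSubspace.mk'_eq hO]

/-- the frame -/
noncomputable def fu (β θ : ℝ) : E3 :=
  !₂[-(Real.sin β * Real.sin θ), Real.cos β * Real.sin θ, Real.cos θ]
noncomputable def f1 (β : ℝ) : E3 := !₂[Real.cos β, Real.sin β, 0]
noncomputable def f2 (β θ : ℝ) : E3 :=
  !₂[-(Real.sin β * Real.cos θ), Real.cos β * Real.cos θ, -Real.sin θ]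

lemma inner3 (x y : E3) : ⟪x, y⟫ = x 0 * y 0 + x 1 * y 1 + x 2 * y 2 := by
  rw [PiLp.inner_apply, Fin.sum_univ_three]
  simp [mul_comm]

lemma norm3 (x : E3) : ‖x‖ ^ 2 = x 0 ^ 2 + x 1 ^ 2 + x 2 ^ 2 := by
  rw [EuclideanSpace.norm_sq_eq, Fin.sum_univ_three]
  simp

@[simp] lemma fu_0 (β θ : ℝ) : fu β θ 0 = -(Real.sin β * Real.sin θ) := rfl
@[simp] lemma fu_1 (β θ : ℝ) : fu β θ 1 = Real.cos β * Real.sin θ := rfl
@[simp] lemma fu_2 (β θ : ℝ) : fu β θ 2 = Real.cos θ := rfl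
@[simp] lemma f1_0 (β : ℝ) : f1 β 0 = Real.cos β := rfl
@[simp] lemma f1_1 (β : ℝ) : f1 β 1 = Real.sin β := rfl
@[simp] lemma f1_2 (β : ℝ) : f1 β 2 = 0 := rfl
@[simp] lemma f2_0 (β θ : ℝ) : f2 β θ 0 = -(Real.sin β * Real.cos θ) := rfl
@[simp] lemma f2_1 (β θ : ℝ) : f2 β θ 1 = Real.cos β * Real.cos θ := rfl
@[simp] lemma f2_2 (β θ : ℝ) : f2 β θ 2 = -Real.sin θ := rfl

lemma norm_fu (β θ : ℝ) : ‖fu β θ‖ = 1 := by
  have : ‖fu β θ‖ ^ 2 = 1 := by
    rw [norm3]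
    simp only [fu_0, fu_1, fu_2]
    have h1 := Real.sin_sq_add_cos_sq β
    have h2 := Real.sin_sq_add_cos_sq θ
    linear_combination (Real.sin θ ^ 2) * h1 + h2
  have h0 := norm_nonneg (fu β θ)
  nlinarith

/-- decomposition of a vector in the frame -/
lemma frame_decomp (β θ : ℝ) (y : E3) :
    y = ⟪y, f1 β⟫ • f1 β + ⟪y, f2 β θ⟫ • f2 β θ + ⟪y, fu β θ⟫ • fu β θ := by
  have h1 := Real.sin_sq_add_cos_sq β
  have h2 := Real.sin_sq_add_cos_sq θ
  ext i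
  fin_cases i
  · simp only [inner3, PiLp.add_apply, PiLp.smul_apply, smul_eq_mul, fu_0, fu_1, fu_2, f1_0, f1_1,
      f1_2, f2_0, f2_1, f2_2, Fin.zero_eta, Fin.isValue]
    linear_combination (-(y 0)) * h1
      + (-(y 0 * Real.sin β ^ 2) + y 1 * Real.sin β * Real.cos β) * h2
  · simp only [inner3, PiLp.add_apply, PiLp.smul_apply, smul_eq_mul, fu_0, fu_1, fu_2, f1_0, f1_1,
      f1_2, f2_0, f2_1, f2_2, Fin.mk_one, Fin.isValue]
    linear_combination (-(y 1)) * h1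
      + (-(y 1 * Real.cos β ^ 2) + y 0 * Real.sin β * Real.cos β) * h2
  · simp only [inner3, PiLp.add_apply, PiLp.smul_apply, smul_eq_mul, fu_0, fu_1, fu_2, f1_0, f1_1,
      f1_2, f2_0, f2_1, f2_2, Fin.reduceFinMk, Fin.isValue]
    linear_combination (-(y 2)) * h2

lemma dsq_frame (β θ : ℝ) (O y : E3) :
    dsq O (fu β θ) y = ⟪y - O, f1 β⟫ ^ 2 + ⟪y - O, f2 β θ⟫ ^ 2 := by
  have h1 := Real.sin_sq_add_cos_sq β
  have h2 := Real.sin_sq_add_cos_sq θ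
  unfold dsq
  generalize y - O = w
  rw [norm3]
  simp only [inner3, fu_0, fu_1, fu_2, f1_0, f1_1, f1_2, f2_0, f2_1, f2_2]
  linear_combination (-(w 0 ^ 2 + w 1 ^ 2)) * h1
    - ((-(w 0) * Real.sin β + w 1 * Real.cos β) ^ 2 + w 2 ^ 2) * h2

lemma exists_angle {X Y : ℝ} (h : X ^ 2 + Y ^ 2 = 1) :
    ∃ φ : ℝ, |φ| ≤ Real.pi ∧ Real.cos φ = X ∧ Real.sin φ = Y := by
  have hn : ‖(⟨X, Y⟩ : ℂ)‖ = 1 := by
    rw [Complex.norm_eq_sqrt_sq_add_sq, h, Real.sqrt_one]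
  refine ⟨Complex.arg ⟨X, Y⟩, Complex.abs_arg_le_pi _, ?_, ?_⟩
  · have := Complex.norm_mul_cos_arg (⟨X, Y⟩ : ℂ)
    rw [hn, one_mul] at this
    exact this
  · have := Complex.norm_mul_sin_arg (⟨X, Y⟩ : ℂ)
    rw [hn, one_mul] at this
    exact this

lemma exists_spherical {v : E3} (hv : ‖v‖ = 1) :
    ∃ β θ : ℝ, |β| ≤ Real.pi ∧ |θ| ≤ Real.pi ∧ v = fu β θ := by
  have hv2 : v 0 ^ 2 + v 1 ^ 2 + v 2 ^ 2 = 1 := by rw [← norm3, hv]; norm_num
  set z : ℂ := ⟨v 1, -(v 0)⟩ with hz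
  have hn : ‖z‖ = Real.sqrt (1 - v 2 ^ 2) := by
    rw [Complex.norm_eq_sqrt_sq_add_sq]
    congr 1
    simp only [hz]
    linarith
  refine ⟨Complex.arg z, Real.arccos (v 2), Complex.abs_arg_le_pi _, ?_, ?_⟩
  · rw [abs_of_nonneg (Real.arccos_nonneg _)]
    exact Real.arccos_le_pi _
  · have hb : -1 ≤ v 2 := by nlinarith [sq_nonneg (v 0), sq_nonneg (v 1)]
    have hb' : v 2 ≤ 1 := by nlinarith [sq_nonneg (v 0), sq_nonneg (v 1)]
    have hs : Real.sin (Real.arccos (v 2)) = ‖z‖ := by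
      rw [Real.sin_arccos, hn]
    have hc := Complex.norm_mul_cos_arg z
    have hs' := Complex.norm_mul_sin_arg z
    ext i
    fin_cases i
    · simp only [Fin.zero_eta, Fin.isValue, fu_0, hs]
      rw [mul_comm, hs']
      simp [hz]
    · simp only [Fin.mk_one, Fin.isValue, fu_1, hs]
      rw [mul_comm, hc]
    · simp only [Fin.reduceFinMk, Fin.isValue, fu_2]
      rw [Real.cos_arccos hb hb']

lemma line_eq_of_mem {O O' u : E3} (h : O' ∈ line O u) : line O u = line O' u := by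
  ext x
  obtain ⟨s, hs⟩ := mem_line.1 h
  rw [mem_line, mem_line]
  constructor
  · rintro ⟨t, ht⟩
    refine ⟨t - s, ?_⟩
    rw [ht, hs, sub_smul]; abel
  · rintro ⟨t, ht⟩
    refine ⟨t + s, ?_⟩
    rw [ht, hs, add_smul]; abel

/-- every line has the form `line (p f₁ + q f₂) u` -/
lemma IsLine.exists_frame {ℓ : AffineSubspace ℝ E3} (h : IsLine ℓ) :
    ∃ β θ p q : ℝ, |β| ≤ Real.pi ∧ |θ| ≤ Real.pi ∧
      ℓ = line (p • f1 β + q • f2 β θ) (fu β θ) := by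
  obtain ⟨O, u, hu, rfl⟩ := h.exists_eq
  obtain ⟨β, θ, hβ, hθ, rfl⟩ := exists_spherical hu
  refine ⟨β, θ, ⟪O, f1 β⟫, ⟪O, f2 β θ⟫, hβ, hθ, ?_⟩
  apply line_eq_of_mem
  rw [mem_line]
  refine ⟨-⟪O, fu β θ⟫, ?_⟩
  have := frame_decomp β θ O
  rw [neg_smul, ← sub_eq_add_neg, eq_sub_iff_add_eq]
  exact this.symm

end Pool.Agent.Helper3.Balls
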