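import Mathlib

/-!
# Generic finiteness of fibres of finitely many smooth self-maps of a finite-dimensional space
-/

namespace Pool.Agent.Helper3.Balls

open Set Filter Topology MeasureTheory

variable {V : Type*} [NormedAddCommGroup V] [NormedSpace ℝ V] [FiniteDimensional ℝ V]

lemma finite_fiber (f : V → V) (hf : Differentiable ℝ f) (c : V)
    (hc : ∀ x, f x = c → (fderiv ℝ f x).det ≠ 0) {K : Set V} (hK : IsCompact K) :
    (K ∩ {x | f x = c}).Finite := by
  by_contra hinf
  have hinf' : (K ∩ {x | f x = c}).Infinite := hinf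
  obtain ⟨x, -, hx⟩ := hinf'.exists_accPt_of_subset_isCompact hK inter_subset_left
  have hx1 : AccPt x (𝓟 {x | f x = c}) := hx.mono (principal_mono.2 inter_subset_right)
  have hcl : IsClosed {x | f x = c} := isClosed_eq hf.continuous continuous_const
  have hxc : f x = c := by
    have := hx1.clusterPt
    exact (isClosed_iff_clusterPt.1 hcl) x this
  have hdet := hc x hxc
  set L : V ≃L[ℝ] V := (fderiv ℝ f x).toContinuousLinearEquivOfDetNeZero hdet with hL
  have hL' : (L : V →L[ℝ] V) = fderiv ℝ f x :=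
    ContinuousLinearMap.coe_toContinuousLinearEquivOfDetNeZero _ hdet
  have hd : HasFDerivAt f (L : V →L[ℝ] V) x := by
    rw [hL']; exact (hf x).hasFDerivAt
  have hne := hd.eventually_ne (c := c) ⟨_, L.antilipschitz⟩
  rw [accPt_iff_frequently_nhdsNE] at hx1
  obtain ⟨z, hz1, hz2⟩ := (hx1.and_eventually hne).exists
  exact hz2 hz1

lemma exists_generic {J : Type*} [Finite J] (f : J → V → V)
    (hf : ∀ j, Differentiable ℝ (f j)) (c₀ : V) {U : Set V} (hU : U ∈ 𝓝 c₀) :
    ∃ c ∈ U, ∀ j, ∀ K : Set V, IsCompact K → (K ∩ {x | f j x = c}).Finite := by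
  borelize V
  let μ : Measure V := Measure.addHaar
  have hnull : ∀ j, μ (f j '' {x | (fderiv ℝ (f j) x).det = 0}) = 0 := by
    intro j
    apply addHaar_image_eq_zero_of_det_fderivWithin_eq_zero μ (f' := fun x => fderiv ℝ (f j) x)
    · intro x _
      exact (hf j x).hasFDerivAt.hasFDerivWithinAt
    · intro x hx; exact hx
  have hae : ∀ᵐ c ∂μ, ∀ j, c ∉ f j '' {x | (fderiv ℝ (f j) x).det = 0} := by
    rw [ae_all_iff]
    intro j
    exact measure_eq_zero_iff_ae_notMem.1 (hnull j)
  obtain ⟨c, hcU, hc⟩ := (Measure.dense_of_ae hae).inter_nhds_nonempty hU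
  refine ⟨c, hc, fun j K hK => ?_⟩
  apply finite_fiber (f j) (hf j) c _ hK
  intro x hx h0
  exact hcU j ⟨x, h0, hx⟩

end Pool.Agent.Helper3.Balls
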