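import Mathlib
import Pool.Agent.Helper3.BallsLine
import Pool.Agent.Helper3.BallsSard

/-!
# Four unit balls in general position have finitely many common tangent lines
-/

namespace Pool.Agent.Helper3.Balls

open Set Filter Topology
open scoped RealInnerProductSpace

variable {ι : Type*} [Fintype ι]

open Classical in
/-- a chart whose fibre over `c` parametrises the lines tangent to the four unit balls with
centres `c (Q j)` -/
noncomputable def Psi (Q : Fin 4 → ι) (x : ι → E3) : ι → E3 := fun i =>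
  if i ∈ Set.range Q then
    (x (Q 2) 2 + Real.cos (x i 0)) • f1 (x (Q 0) 2)
      + (x (Q 3) 2 + Real.sin (x i 0)) • f2 (x (Q 0) 2) (x (Q 1) 2)
      + (x i 1) • fu (x (Q 0) 2) (x (Q 1) 2)
  else x i

/-- the line attached to a point of the chart -/
noncomputable def lam (Q : Fin 4 → ι) (x : ι → E3) : AffineSubspace ℝ E3 :=
  line (x (Q 2) 2 • f1 (x (Q 0) 2) + x (Q 3) 2 • f2 (x (Q 0) 2) (x (Q 1) 2))
    (fu (x (Q 0) 2) (x (Q 1) 2))

lemma differentiable_coord (i : ι) (j : Fin 3) :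
    Differentiable ℝ (fun x : ι → E3 => x i j) := by
  have h1 : Differentiable ℝ (fun x : ι → E3 => x i) := differentiable_apply i
  exact (differentiable_euclidean.1 h1) j

lemma differentiable_Psi (Q : Fin 4 → ι) : Differentiable ℝ (Psi Q) := by
  have hc := fun i j => differentiable_coord (ι := ι) i j
  rw [differentiable_pi]
  intro i
  by_cases hi : i ∈ Set.range Q
  · simp only [Psi, if_pos hi]
    rw [differentiable_euclidean]
    intro j
    fin_cases j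
    · simp only [PiLp.add_apply, PiLp.smul_apply, smul_eq_mul, fu_0, f1_0, f2_0, Fin.zero_eta,
        Fin.isValue]
      have := hc i 0; have := hc i 1; have := hc (Q 0) 2; have := hc (Q 1) 2
      have := hc (Q 2) 2; have := hc (Q 3) 2
      fun_prop
    · simp only [PiLp.add_apply, PiLp.smul_apply, smul_eq_mul, fu_1, f1_1, f2_1, Fin.mk_one,
        Fin.isValue]
      have := hc i 0; have := hc i 1; have := hc (Q 0) 2; have := hc (Q 1) 2
      have := hc (Q 2) 2; have := hc (Q 3) 2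
      fun_prop
    · simp only [PiLp.add_apply, PiLp.smul_apply, smul_eq_mul, fu_2, f1_2, f2_2,
        Fin.reduceFinMk, Fin.isValue]
      have := hc i 0; have := hc i 1; have := hc (Q 0) 2; have := hc (Q 1) 2
      have := hc (Q 2) 2; have := hc (Q 3) 2
      fun_prop
  · simp only [Psi, if_neg hi]
    exact differentiable_apply i

lemma norm_le_coords (v : E3) : ‖v‖ ≤ |v 0| + |v 1| + |v 2| := by
  have h := norm3 v
  have h0 := abs_nonneg (v 0)
  have h1 := abs_nonneg (v 1)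
  have h2 := abs_nonneg (v 2)
  rw [← sq_abs (v 0), ← sq_abs (v 1), ← sq_abs (v 2)] at h
  apply le_of_sq_le_sq _ (by positivity)
  rw [h]
  nlinarith [mul_nonneg h0 h1, mul_nonneg h0 h2, mul_nonneg h1 h2]

lemma inner_f1_f1 (β : ℝ) : ⟪f1 β, f1 β⟫ = 1 := by
  have h1 := Real.sin_sq_add_cos_sq β
  simp only [inner3, f1_0, f1_1, f1_2]
  linear_combination h1

lemma inner_f2_f1 (β θ : ℝ) : ⟪f2 β θ, f1 β⟫ = 0 := by
  simp only [inner3, f1_0, f1_1, f1_2, f2_0, f2_1, f2_2]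
  ring

lemma inner_f1_f2 (β θ : ℝ) : ⟪f1 β, f2 β θ⟫ = 0 := by
  simp only [inner3, f1_0, f1_1, f1_2, f2_0, f2_1, f2_2]
  ring

lemma inner_f2_f2 (β θ : ℝ) : ⟪f2 β θ, f2 β θ⟫ = 1 := by
  have h1 := Real.sin_sq_add_cos_sq β
  have h2 := Real.sin_sq_add_cos_sq θ
  simp only [inner3, f2_0, f2_1, f2_2]
  linear_combination (Real.cos θ ^ 2) * h1 + h2

lemma inner_f1_fu (β θ : ℝ) : ⟪f1 β, fu β θ⟫ = 0 := by
  simp only [inner3, f1_0, f1_1, f1_2, fu_0, fu_1, fu_2]
  ring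

lemma inner_f2_fu (β θ : ℝ) : ⟪f2 β θ, fu β θ⟫ = 0 := by
  have h1 := Real.sin_sq_add_cos_sq β
  simp only [inner3, fu_0, fu_1, fu_2, f2_0, f2_1, f2_2]
  linear_combination (Real.cos θ * Real.sin θ) * h1

lemma norm_f1 (β : ℝ) : ‖f1 β‖ = 1 := by
  have := inner_f1_f1 β
  rw [real_inner_self_eq_norm_sq] at this
  have h0 := norm_nonneg (f1 β)
  nlinarith

lemma norm_f2 (β θ : ℝ) : ‖f2 β θ‖ = 1 := by
  have := inner_f2_f2 β θ
  rw [real_inner_self_eq_norm_sq] at this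
  have h0 := norm_nonneg (f2 β θ)
  nlinarith

lemma exists_preimage (Q : Fin 4 → ι) (hQ : Function.Injective Q) (c : ι → E3)
    {ℓ : AffineSubspace ℝ E3} (hℓ : IsLine ℓ) (h : ∀ j, Metric.infDist (c (Q j)) ℓ = 1) :
    ∃ x ∈ Metric.closedBall (0 : ι → E3) (3 * (‖c‖ + Real.pi + 1)),
      Psi Q x = c ∧ lam Q x = ℓ := by
  classical
  obtain ⟨β, θ, p, q, hβ, hθ, rfl⟩ := hℓ.exists_frame
  set O := p • f1 β + q • f2 β θ with hO
  have hO1 : ⟪O, f1 β⟫ = p := by
    rw [hO, inner_add_left, inner_smul_left, inner_smul_left, inner_f1_f1, inner_f2_f1]; simp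
  have hO2 : ⟪O, f2 β θ⟫ = q := by
    rw [hO, inner_add_left, inner_smul_left, inner_smul_left, inner_f1_f2, inner_f2_f2]; simp
  have hO3 : ⟪O, fu β θ⟫ = 0 := by
    rw [hO, inner_add_left, inner_smul_left, inner_smul_left, inner_f1_fu, inner_f2_fu]; simp
  have hcirc : ∀ i ∈ Set.range Q, ⟪c i - O, f1 β⟫ ^ 2 + ⟪c i - O, f2 β θ⟫ ^ 2 = 1 := by
    rintro _ ⟨j, rfl⟩
    rw [← dsq_frame]
    exact (infDist_line_eq_one (norm_fu β θ)).1 (h j)
  have hphi : ∀ i, ∃ φ : ℝ, i ∈ Set.range Q → |φ| ≤ Real.pi ∧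
      Real.cos φ = ⟪c i - O, f1 β⟫ ∧ Real.sin φ = ⟪c i - O, f2 β θ⟫ := by
    intro i
    by_cases hi : i ∈ Set.range Q
    · obtain ⟨φ, hφ⟩ := exists_angle (hcirc i hi)
      exact ⟨φ, fun _ => hφ⟩
    · exact ⟨0, fun h => absurd h hi⟩
  choose φ hφ using hphi
  have hnc : ∀ i, ‖c i‖ ≤ ‖c‖ := fun i => norm_le_pi_norm c i
  have hpi := Real.pi_pos
  have hc0 := norm_nonneg c
  -- bounds on `p` and `q`
  have hX : |⟪c (Q 0) - O, f1 β⟫| ≤ 1 := by
    have := hcirc (Q 0) ⟨0, rfl⟩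
    apply abs_le_one_iff_mul_self_le_one.2
    nlinarith [sq_nonneg ⟪c (Q 0) - O, f2 β θ⟫]
  have hY : |⟪c (Q 0) - O, f2 β θ⟫| ≤ 1 := by
    have := hcirc (Q 0) ⟨0, rfl⟩
    apply abs_le_one_iff_mul_self_le_one.2
    nlinarith [sq_nonneg ⟪c (Q 0) - O, f1 β⟫]
  have hp : |p| ≤ ‖c‖ + 1 := by
    rw [inner_sub_left, hO1] at hX
    have h3 := abs_real_inner_le_norm (c (Q 0)) (f1 β)
    rw [norm_f1, mul_one] at h3
    have h4 := hnc (Q 0)
    rw [abs_le] at hX h3 ⊢
    constructor <;> linarith [hX.1, hX.2, h3.1, h3.2]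
  have hq : |q| ≤ ‖c‖ + 1 := by
    rw [inner_sub_left, hO2] at hY
    have h3 := abs_real_inner_le_norm (c (Q 0)) (f2 β θ)
    rw [norm_f2, mul_one] at h3
    have h4 := hnc (Q 0)
    rw [abs_le] at hY h3 ⊢
    constructor <;> linarith [hY.1, hY.2, h3.1, h3.2]
  let e : ι → ℝ := Function.extend Q ![β, θ, p, q] 0
  have he : ∀ j, e (Q j) = ![β, θ, p, q] j := fun j => hQ.extend_apply _ _ _
  let x : ι → E3 := fun i => if i ∈ Set.range Q then !₂[φ i, ⟪c i, fu β θ⟫, e i] else c i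
  have hxQ : ∀ i ∈ Set.range Q, x i = !₂[φ i, ⟪c i, fu β θ⟫, e i] := fun i hi => if_pos hi
  have hx2 : ∀ j, x (Q j) 2 = ![β, θ, p, q] j := by
    intro j
    rw [hxQ (Q j) ⟨j, rfl⟩, ← he j]
    rfl
  have x0 : x (Q 0) 2 = β := hx2 0
  have x1 : x (Q 1) 2 = θ := hx2 1
  have x2 : x (Q 2) 2 = p := hx2 2
  have x3 : x (Q 3) 2 = q := hx2 3
  refine ⟨x, ?_, ?_, ?_⟩
  · rw [mem_closedBall_zero_iff, pi_norm_le_iff_of_nonneg (by positivity)]
    intro i
    by_cases hi : i ∈ Set.range Q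
    · rw [hxQ i hi]
      refine (norm_le_coords _).trans ?_
      have b1 : |φ i| ≤ Real.pi := (hφ i hi).1
      have b2 : |⟪c i, fu β θ⟫| ≤ ‖c‖ := by
        have h3 := abs_real_inner_le_norm (c i) (fu β θ)
        rw [norm_fu, mul_one] at h3
        exact h3.trans (hnc i)
      have b3 : |e i| ≤ ‖c‖ + 1 + Real.pi := by
        obtain ⟨j, rfl⟩ := hi
        rw [he j]
        fin_cases j
        · change |β| ≤ _; linarith
        · change |θ| ≤ _; linarith
        · change |p| ≤ _; linarith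
        · change |q| ≤ _; linarith
      change |φ i| + |⟪c i, fu β θ⟫| + |e i| ≤ _
      linarith
    · have : x i = c i := if_neg hi
      rw [this]
      linarith [hnc i]
  · funext i
    by_cases hi : i ∈ Set.range Q
    · simp only [Psi, if_pos hi, x0, x1, x2, x3]
      have a0 : x i 0 = φ i := by rw [hxQ i hi]; rfl
      have a1 : x i 1 = ⟪c i, fu β θ⟫ := by rw [hxQ i hi]; rfl
      rw [a0, a1, (hφ i hi).2.1, (hφ i hi).2.2, inner_sub_left, inner_sub_left, hO1, hO2]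
      rw [add_sub_cancel, add_sub_cancel]
      exact (frame_decomp β θ (c i)).symm
    · simp only [Psi, if_neg hi]
      exact if_neg hi
  · unfold lam
    rw [x0, x1, x2, x3]

theorem exists_generic_centres (c₀ : ι → E3) {U : Set (ι → E3)} (hU : U ∈ 𝓝 c₀) :
    ∃ c ∈ U, ∀ Q : Fin 4 → ι, Function.Injective Q →
      {ℓ : AffineSubspace ℝ E3 | IsLine ℓ ∧ ∀ j, Metric.infDist (c (Q j)) ℓ = 1}.Finite := by
  obtain ⟨c, hc, hfin⟩ := exists_generic (J := Fin 4 → ι) (fun Q => Psi Q)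
    (fun Q => differentiable_Psi Q) c₀ hU
  refine ⟨c, hc, fun Q hQ => ?_⟩
  have h1 := hfin Q (Metric.closedBall (0 : ι → E3) (3 * (‖c‖ + Real.pi + 1)))
    (isCompact_closedBall _ _)
  refine (h1.image (lam Q)).subset ?_
  rintro ℓ ⟨hℓ, h⟩
  obtain ⟨x, hx, h2, h3⟩ := exists_preimage Q hQ c hℓ h
  exact ⟨x, ⟨hx, h2⟩, h3⟩

end Pool.Agent.Helper3.Balls
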