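import Mathlib
import Pool.Agent.Helper3.BallsFinite

/-!
# The two-parameter family of lines tangent to two unit balls
-/

namespace Pool.Agent.Helper3.Balls

open Set Filter Topology
open scoped RealInnerProductSpace

/-- cross product -/
noncomputable def cr (u D : E3) : E3 :=
  !₂[u 1 * D 2 - u 2 * D 1, u 2 * D 0 - u 0 * D 2, u 0 * D 1 - u 1 * D 0]

@[simp] lemma cr_0 (u D : E3) : cr u D 0 = u 1 * D 2 - u 2 * D 1 := rfl
@[simp] lemma cr_1 (u D : E3) : cr u D 1 = u 2 * D 0 - u 0 * D 2 := rfl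
@[simp] lemma cr_2 (u D : E3) : cr u D 2 = u 0 * D 1 - u 1 * D 0 := rfl

lemma inner_cr_right (u D : E3) : ⟪D, cr u D⟫ = 0 := by
  simp only [inner3, cr_0, cr_1, cr_2]; ring

lemma inner_cr_left (u D : E3) : ⟪cr u D, u⟫ = 0 := by
  simp only [inner3, cr_0, cr_1, cr_2]; ring

lemma norm_cr (u D : E3) (hu : ‖u‖ = 1) : ‖cr u D‖ ^ 2 = ‖D‖ ^ 2 - ⟪D, u⟫ ^ 2 := by
  have h : ‖u‖ ^ 2 = 1 := by rw [hu]; norm_num
  rw [norm3] at h
  rw [norm3, norm3]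
  simp only [inner3, cr_0, cr_1, cr_2]
  linear_combination (D 0 ^ 2 + D 1 ^ 2 + D 2 ^ 2) * h

/-- base point of the line with direction `fu β θ` tangent to the unit balls centred at `P`, `Q` -/
noncomputable def base (P Q : E3) (p : ℝ × ℝ) : E3 :=
  (1 / 2 : ℝ) • (P + Q) +
    (Real.sqrt (1 - ‖cr (fu p.1 p.2) (P - Q)‖ ^ 2 / 4) / ‖cr (fu p.1 p.2) (P - Q)‖) •
      cr (fu p.1 p.2) (P - Q)

lemma dsq_base_aux (M D u : E3) (hu : ‖u‖ = 1) (hw : cr u D ≠ 0) (hD : ‖D‖ ≤ 2) (s : ℝ)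
    (hs : s ^ 2 = 1 / 4) :
    dsq (M + (Real.sqrt (1 - ‖cr u D‖ ^ 2 / 4) / ‖cr u D‖) • cr u D) u (M + s • D) = 1 := by
  set w := cr u D with hwd
  have hk : 0 < ‖w‖ := norm_pos_iff.2 hw
  have hk2 : ‖w‖ ^ 2 = ‖D‖ ^ 2 - ⟪D, u⟫ ^ 2 := norm_cr u D hu
  have hk4 : ‖w‖ ^ 2 ≤ 4 := by
    rw [hk2]
    nlinarith [norm_nonneg D, sq_nonneg ⟪D, u⟫]
  have hh : Real.sqrt (1 - ‖w‖ ^ 2 / 4) ^ 2 = 1 - ‖w‖ ^ 2 / 4 :=
    Real.sq_sqrt (by linarith)
  set h := Real.sqrt (1 - ‖w‖ ^ 2 / 4)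
  have e : M + s • D - (M + (h / ‖w‖) • w) = s • D - (h / ‖w‖) • w := by abel
  unfold dsq
  rw [e, norm_sub_sq_real, inner_sub_left, inner_smul_left, inner_smul_left, inner_smul_left,
    inner_smul_right, inner_cr_right, inner_cr_left, norm_smul, norm_smul]
  simp only [Real.norm_eq_abs, mul_zero, sub_zero, mul_pow, sq_abs, conj_trivial]
  rw [div_pow, div_mul_cancel₀ _ (by positivity), hs, hh, hk2]
  ring

lemma dsq_base_left (P Q : E3) (p : ℝ × ℝ) (hw : cr (fu p.1 p.2) (P - Q) ≠ 0)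
    (hD : ‖P - Q‖ ≤ 2) : dsq (base P Q p) (fu p.1 p.2) P = 1 := by
  have := dsq_base_aux ((1 / 2 : ℝ) • (P + Q)) (P - Q) (fu p.1 p.2) (norm_fu _ _) hw hD (1 / 2)
    (by norm_num)
  have e : (1 / 2 : ℝ) • (P + Q) + (1 / 2 : ℝ) • (P - Q) = P := by
    rw [← smul_add, add_add_sub_cancel, ← two_smul ℝ P, smul_smul]; norm_num
  rw [e] at this
  exact this

lemma dsq_base_right (P Q : E3) (p : ℝ × ℝ) (hw : cr (fu p.1 p.2) (P - Q) ≠ 0)
    (hD : ‖P - Q‖ ≤ 2) : dsq (base P Q p) (fu p.1 p.2) Q = 1 := by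
  have := dsq_base_aux ((1 / 2 : ℝ) • (P + Q)) (P - Q) (fu p.1 p.2) (norm_fu _ _) hw hD (-(1 / 2))
    (by norm_num)
  have e : (1 / 2 : ℝ) • (P + Q) + (-(1 / 2) : ℝ) • (P - Q) = Q := by
    rw [neg_smul, ← sub_eq_add_neg, ← smul_sub, add_sub_sub_cancel, ← two_smul ℝ Q, smul_smul]
    norm_num
  rw [e] at this
  exact this

lemma continuous_f1 : Continuous f1 := by
  unfold f1
  fun_prop

lemma continuous_fu : Continuous (fun p : ℝ × ℝ => fu p.1 p.2) := by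
  unfold fu
  fun_prop

lemma continuous_cr : Continuous (fun z : E3 × E3 => cr z.1 z.2) := by
  unfold cr
  fun_prop

lemma continuous_dsq : Continuous (fun z : E3 × E3 × E3 => dsq z.1 z.2.1 z.2.2) := by
  unfold dsq
  fun_prop

variable {ι : Type*}

lemma continuousAt_cr (i j : ι) (z : (ι → E3) × (ℝ × ℝ)) :
    ContinuousAt (fun z : (ι → E3) × (ℝ × ℝ) => cr (fu z.2.1 z.2.2) (z.1 i - z.1 j)) z := by
  have h1 : Continuous (fun z : (ι → E3) × (ℝ × ℝ) => fu z.2.1 z.2.2) :=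
    continuous_fu.comp continuous_snd
  have h2 : Continuous (fun z : (ι → E3) × (ℝ × ℝ) => z.1 i - z.1 j) := by fun_prop
  exact (continuous_cr.comp (h1.prodMk h2)).continuousAt

lemma continuousAt_dsq_base (i j y : ι) (z : (ι → E3) × (ℝ × ℝ))
    (hz : cr (fu z.2.1 z.2.2) (z.1 i - z.1 j) ≠ 0) :
    ContinuousAt (fun z : (ι → E3) × (ℝ × ℝ) =>
      dsq (base (z.1 i) (z.1 j) z.2) (fu z.2.1 z.2.2) (z.1 y)) z := by
  have h1 : Continuous (fun z : (ι → E3) × (ℝ × ℝ) => fu z.2.1 z.2.2) :=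
    continuous_fu.comp continuous_snd
  have h2 := continuousAt_cr i j z
  have h3 : Continuous (fun z : (ι → E3) × (ℝ × ℝ) => z.1 y) := by fun_prop
  have h4 : Continuous (fun z : (ι → E3) × (ℝ × ℝ) => (1 / 2 : ℝ) • (z.1 i + z.1 j)) := by
    fun_prop
  have h6 : ContinuousAt (fun z : (ι → E3) × (ℝ × ℝ) =>
      Real.sqrt (1 - ‖cr (fu z.2.1 z.2.2) (z.1 i - z.1 j)‖ ^ 2 / 4) /
        ‖cr (fu z.2.1 z.2.2) (z.1 i - z.1 j)‖) z := by
    have h7 : ContinuousAt (fun z : (ι → E3) × (ℝ × ℝ) =>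
      1 - ‖cr (fu z.2.1 z.2.2) (z.1 i - z.1 j)‖ ^ 2 / 4) z :=
      continuousAt_const.sub ((h2.norm.pow 2).div_const 4)
    have h8 : ContinuousAt (fun z : (ι → E3) × (ℝ × ℝ) =>
      Real.sqrt (1 - ‖cr (fu z.2.1 z.2.2) (z.1 i - z.1 j)‖ ^ 2 / 4)) z := h7.sqrt
    exact h8.div h2.norm (norm_ne_zero_iff.2 hz)
  have h5 : ContinuousAt (fun z : (ι → E3) × (ℝ × ℝ) => base (z.1 i) (z.1 j) z.2) z := by
    unfold base
    exact h4.continuousAt.add (h6.smul h2)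
  have h9 : ContinuousAt (fun z : (ι → E3) × (ℝ × ℝ) =>
      (base (z.1 i) (z.1 j) z.2, fu z.2.1 z.2.2, z.1 y)) z :=
    h5.prodMk (h1.continuousAt.prodMk h3.continuousAt)
  exact ContinuousAt.comp (g := fun w : E3 × E3 × E3 => dsq w.1 w.2.1 w.2.2)
    (f := fun z : (ι → E3) × (ℝ × ℝ) => (base (z.1 i) (z.1 j) z.2, fu z.2.1 z.2.2, z.1 y))
    (x := z) continuous_dsq.continuousAt h9

lemma robust_gt {X Y : Type*} [TopologicalSpace X] [TopologicalSpace Y] {x₀ : X} {K : Set Y}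
    (hK : IsCompact K) (F : X → Y → ℝ)
    (hF : ∀ p ∈ K, ContinuousAt (fun z : X × Y => F z.1 z.2) (x₀, p)) {r : ℝ}
    (h : ∀ p ∈ K, r < F x₀ p) : ∀ᶠ x in 𝓝 x₀, ∀ p ∈ K, r < F x p :=
  hK.eventually_forall_of_forall_eventually fun p hp =>
    (hF p hp).eventually (lt_mem_nhds (h p hp))

lemma robust_lt {X Y : Type*} [TopologicalSpace X] [TopologicalSpace Y] {x₀ : X} {K : Set Y}
    (hK : IsCompact K) (F : X → Y → ℝ)
    (hF : ∀ p ∈ K, ContinuousAt (fun z : X × Y => F z.1 z.2) (x₀, p)) {r : ℝ}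
    (h : ∀ p ∈ K, F x₀ p < r) : ∀ᶠ x in 𝓝 x₀, ∀ p ∈ K, F x p < r :=
  hK.eventually_forall_of_forall_eventually fun p hp =>
    (hF p hp).eventually (gt_mem_nhds (h p hp))

end Pool.Agent.Helper3.Balls
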