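import Mathlib

/-!
# The two-dimensional Poincaré–Miranda theorem
-/

namespace Pool.Agent.Helper3.Balls

open Set

lemma stay_lt {h : ℝ → ℝ} {a b v : ℝ} (hc : Continuous h)
    (hne : ∀ t ∈ Icc a b, h t ≠ v) {s : ℝ} (hs : s ∈ Icc a b) (hs' : h s < v) :
    ∀ t ∈ Icc a b, h t < v := by
  intro t ht
  by_contra hcon
  push Not at hcon
  have := isPreconnected_Icc.intermediate_value hs ht hc.continuousOn
  obtain ⟨r, hr, hr'⟩ := this ⟨hs'.le, hcon⟩
  exact hne r hr hr'

lemma stay_gt {h : ℝ → ℝ} {a b v : ℝ} (hc : Continuous h)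
    (hne : ∀ t ∈ Icc a b, h t ≠ v) {s : ℝ} (hs : s ∈ Icc a b) (hs' : v < h s) :
    ∀ t ∈ Icc a b, v < h t := by
  intro t ht
  by_contra hcon
  push Not at hcon
  have := isPreconnected_Icc.intermediate_value ht hs hc.continuousOn
  obtain ⟨r, hr, hr'⟩ := this ⟨hcon, hs'.le⟩
  exact hne r hr hr'

/-- Poincaré–Miranda for a rectangle in the plane, with strict sign conditions. -/
theorem miranda (f g : ℝ × ℝ → ℝ) {a b c d : ℝ} (hab : a ≤ b) (hcd : c ≤ d)
    (hf : ContinuousOn f (Icc a b ×ˢ Icc c d)) (hg : ContinuousOn g (Icc a b ×ˢ Icc c d))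
    (h1 : ∀ y ∈ Icc c d, f (a, y) < 0) (h2 : ∀ y ∈ Icc c d, 0 < f (b, y))
    (h3 : ∀ x ∈ Icc a b, g (x, c) < 0) (h4 : ∀ x ∈ Icc a b, 0 < g (x, d)) :
    ∃ p ∈ Icc a b ×ˢ Icc c d, f p = 0 ∧ g p = 0 := by
  by_contra hcon
  push Not at hcon
  -- the retraction onto the rectangle
  let π : ℝ × ℝ → ℝ × ℝ := fun p => (projIcc a b hab p.1, projIcc c d hcd p.2)
  have hπc : Continuous π := by
    refine Continuous.prodMk ?_ ?_
    · exact continuous_subtype_val.comp (continuous_projIcc.comp continuous_fst)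
    · exact continuous_subtype_val.comp (continuous_projIcc.comp continuous_snd)
  have hπm : ∀ p, π p ∈ Icc a b ×ˢ Icc c d := fun p =>
    ⟨(projIcc a b hab p.1).2, (projIcc c d hcd p.2).2⟩
  have hπe : ∀ p ∈ Icc a b ×ˢ Icc c d, π p = p := by
    rintro ⟨x, y⟩ ⟨hx, hy⟩
    simp only [π, projIcc_of_mem hab hx, projIcc_of_mem hcd hy]
  have hfc : Continuous (fun p => f (π p)) := hf.comp_continuous hπc hπm
  have hgc : Continuous (fun p => g (π p)) := hg.comp_continuous hπc hπm
  let F : ℝ × ℝ → ℂ := fun p => (f (π p) : ℂ) + (g (π p) : ℂ) * Complex.I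
  have hFc : Continuous F :=
    (Complex.continuous_ofReal.comp hfc).add
      ((Complex.continuous_ofReal.comp hgc).mul continuous_const)
  have hFre : ∀ p, (F p).re = f (π p) := fun p => by simp [F]
  have hFim : ∀ p, (F p).im = g (π p) := fun p => by simp [F]
  have hF0 : (0 : ℂ) ∉ F '' univ := by
    rintro ⟨p, -, hp⟩
    refine hcon (π p) (hπm p) ?_ ?_
    · rw [← hFre, hp]; rfl
    · rw [← hFim, hp]; rfl
  have hsc : IsSimplyConnected (univ : Set (ℝ × ℝ)) := by
    have : ContractibleSpace (univ : Set (ℝ × ℝ)) :=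
      (convex_univ (𝕜 := ℝ) (E := ℝ × ℝ)).contractibleSpace ⟨0, trivial⟩
    exact SimplyConnectedSpace.ofContractible _
  obtain ⟨L, hLc, hLe⟩ := Complex.exists_continuousOn_eqOn_exp_comp hsc isOpen_univ
    hFc.continuousOn hF0
  have hLc' : Continuous L := continuousOn_univ.1 hLc
  have hLe' : ∀ p, Complex.exp (L p) = F p := fun p => hLe (mem_univ p)
  -- the argument
  obtain ⟨k, hk⟩ : ∃ k : ℤ, 0 ≤ (L (a, c)).im - 2 * Real.pi * k ∧
      (L (a, c)).im - 2 * Real.pi * k < 2 * Real.pi := by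
    refine ⟨⌊(L (a, c)).im / (2 * Real.pi)⌋, ?_, ?_⟩
    · have := Int.floor_le ((L (a, c)).im / (2 * Real.pi))
      rw [le_div_iff₀ (by positivity)] at this
      linarith
    · have := Int.lt_floor_add_one ((L (a, c)).im / (2 * Real.pi))
      rw [div_lt_iff₀ (by positivity)] at this
      linarith
  let ψ : ℝ × ℝ → ℝ := fun p => (L p).im - 2 * Real.pi * k
  have hψc : Continuous ψ := by
    have : Continuous fun p => (L p).im := Complex.continuous_im.comp hLc'
    exact this.sub continuous_const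
  have hcos : ∀ p, Real.cos (ψ p) = Real.cos (L p).im := fun p => by
    have := Real.cos_sub_int_mul_two_pi (L p).im k
    rw [← this]; congr 1; simp only [ψ]; ring
  have hsin : ∀ p, Real.sin (ψ p) = Real.sin (L p).im := fun p => by
    have := Real.sin_sub_int_mul_two_pi (L p).im k
    rw [← this]; congr 1; simp only [ψ]; ring
  have hre : ∀ p, Real.exp (L p).re * Real.cos (ψ p) = f (π p) := fun p => by
    rw [hcos, ← hFre, ← hLe', Complex.exp_re]
  have him : ∀ p, Real.exp (L p).re * Real.sin (ψ p) = g (π p) := fun p => by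
    rw [hsin, ← hFim, ← hLe', Complex.exp_im]
  have ca : a ∈ Icc a b := ⟨le_rfl, hab⟩
  have cb : b ∈ Icc a b := ⟨hab, le_rfl⟩
  have cc : c ∈ Icc c d := ⟨le_rfl, hcd⟩
  have cd : d ∈ Icc c d := ⟨hcd, le_rfl⟩
  have cleft : ∀ y ∈ Icc c d, Real.cos (ψ (a, y)) < 0 := fun y hy => by
    have h := h1 y hy
    have e := hre (a, y)
    rw [hπe _ ⟨ca, hy⟩] at e
    by_contra hh; push Not at hh
    have := mul_nonneg (Real.exp_pos (L (a, y)).re).le hh
    linarith
  have cright : ∀ y ∈ Icc c d, 0 < Real.cos (ψ (b, y)) := fun y hy => by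
    have h := h2 y hy
    have e := hre (b, y)
    rw [hπe _ ⟨cb, hy⟩] at e
    by_contra hh; push Not at hh
    have := mul_nonpos_of_nonneg_of_nonpos (Real.exp_pos (L (b, y)).re).le hh
    linarith
  have sbot : ∀ x ∈ Icc a b, Real.sin (ψ (x, c)) < 0 := fun x hx => by
    have h := h3 x hx
    have e := him (x, c)
    rw [hπe _ ⟨hx, cc⟩] at e
    by_contra hh; push Not at hh
    have := mul_nonneg (Real.exp_pos (L (x, c)).re).le hh
    linarith
  have stop : ∀ x ∈ Icc a b, 0 < Real.sin (ψ (x, d)) := fun x hx => by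
    have h := h4 x hx
    have e := him (x, d)
    rw [hπe _ ⟨hx, cd⟩] at e
    by_contra hh; push Not at hh
    have := mul_nonpos_of_nonneg_of_nonpos (Real.exp_pos (L (x, d)).re).le hh
    linarith
  have hpi := Real.pi_pos
  -- corner (a, c)
  have k1 : Real.pi < ψ (a, c) := by
    by_contra hh; push Not at hh
    have := Real.sin_nonneg_of_nonneg_of_le_pi hk.1 hh
    have := sbot a ca
    simp only [ψ] at this
    linarith
  have k2 : ψ (a, c) < 3 * Real.pi / 2 := by
    by_contra hh; push Not at hh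
    have h5 : 0 ≤ Real.cos (ψ (a, c) - 2 * Real.pi) := by
      apply Real.cos_nonneg_of_mem_Icc
      constructor
      · linarith
      · have := hk.2
        simp only [ψ]
        linarith
    rw [Real.cos_sub_two_pi] at h5
    linarith [cleft c cc]
  -- bottom side
  have b1 : ∀ x ∈ Icc a b, Real.pi < ψ (x, c) := by
    apply stay_gt (h := fun x => ψ (x, c)) (by fun_prop) _ ca k1
    intro t ht e
    have := sbot t ht
    rw [e, Real.sin_pi] at this
    exact lt_irrefl _ this
  have b2 : 3 * Real.pi / 2 < ψ (b, c) := by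
    by_contra hh; push Not at hh
    have h5 : 0 ≤ Real.cos (ψ (b, c) - Real.pi) := by
      apply Real.cos_nonneg_of_mem_Icc
      constructor
      · linarith [b1 b cb]
      · linarith
    rw [Real.cos_sub_pi] at h5
    linarith [cright c cc]
  -- right side
  have r1 : ∀ y ∈ Icc c d, 3 * Real.pi / 2 < ψ (b, y) := by
    apply stay_gt (h := fun y => ψ (b, y)) (by fun_prop) _ cc b2
    intro t ht e
    have := cright t ht
    rw [e, show 3 * Real.pi / 2 = Real.pi / 2 + Real.pi by ring, Real.cos_add_pi,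
      Real.cos_pi_div_two] at this
    simp at this
  have r2 : 2 * Real.pi < ψ (b, d) := by
    by_contra hh; push Not at hh
    have h5 : Real.sin (ψ (b, d) - 2 * Real.pi) ≤ 0 := by
      apply Real.sin_nonpos_of_nonpos_of_neg_pi_le
      · linarith
      · linarith [r1 d cd]
    rw [Real.sin_sub_two_pi] at h5
    linarith [stop b cb]
  -- top side
  have t1 : ∀ x ∈ Icc a b, 2 * Real.pi < ψ (x, d) := by
    apply stay_gt (h := fun x => ψ (x, d)) (by fun_prop) _ cb r2
    intro t ht e
    have := stop t ht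
    rw [e, Real.sin_two_pi] at this
    exact lt_irrefl _ this
  -- left side
  have l1 : ∀ y ∈ Icc c d, ψ (a, y) < 3 * Real.pi / 2 := by
    apply stay_lt (h := fun y => ψ (a, y)) (by fun_prop) _ cc k2
    intro t ht e
    have := cleft t ht
    rw [e, show 3 * Real.pi / 2 = Real.pi / 2 + Real.pi by ring, Real.cos_add_pi,
      Real.cos_pi_div_two] at this
    simp at this
  linarith [t1 a ca, l1 d cd]

end Pool.Agent.Helper3.Balls
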