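import Mathlib
import Pool.Agent.Helper3.BallsFamily
import Pool.Agent.Helper3.BallsMiranda

/-!
# The construction
-/

namespace Pool.Agent.Helper3.Balls

open Set Filter Topology
open scoped RealInnerProductSpace

/-! ### Sign conditions and their consequences -/

variable {ι : Type*}

/-- sign conditions on a rectangle -/
def Good (D : ι → ℝ × ℝ → ℝ) (b b' t t' : ℝ) (i j y z : ι) : Prop :=
  (∀ p ∈ Icc b b ×ˢ Icc t t', D y p < 1) ∧ (∀ p ∈ Icc b' b' ×ˢ Icc t t', 1 < D y p) ∧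
  (∀ p ∈ Icc b b' ×ˢ Icc t t, D z p < 1) ∧ (∀ p ∈ Icc b b' ×ˢ Icc t' t', 1 < D z p) ∧
  ∀ x, x ≠ i → x ≠ j → x ≠ y → x ≠ z → ∀ p ∈ Icc b b' ×ˢ Icc t t', 1 < D x p

lemma good_eventually [Finite ι] (c₀ : ι → E3) {b b' t t' : ℝ} (i j y z : ι) (hb : b ≤ b')
    (ht : t ≤ t')
    (hcr : ∀ p ∈ Icc b b' ×ˢ Icc t t', cr (fu p.1 p.2) (c₀ i - c₀ j) ≠ 0)
    (hg : Good (fun x p => dsq (base (c₀ i) (c₀ j) p) (fu p.1 p.2) (c₀ x)) b b' t t' i j y z) :
    ∀ᶠ c in 𝓝 c₀, Good (fun x p => dsq (base (c i) (c j) p) (fu p.1 p.2) (c x)) b b' t t' i j y z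
      ∧ ∀ p ∈ Icc b b' ×ˢ Icc t t', cr (fu p.1 p.2) (c i - c j) ≠ 0 := by
  have hK : ∀ s s' r r' : ℝ, IsCompact (Icc s s' ×ˢ Icc r r') := fun s s' r r' =>
    isCompact_Icc.prod isCompact_Icc
  have hcont : ∀ x : ι, ∀ p ∈ Icc b b' ×ˢ Icc t t', ContinuousAt
      (fun z : (ι → E3) × (ℝ × ℝ) => dsq (base (z.1 i) (z.1 j) z.2) (fu z.2.1 z.2.2) (z.1 x))
      (c₀, p) := fun x p hp => continuousAt_dsq_base i j x (c₀, p) (hcr p hp)
  have s1 : Icc b b ×ˢ Icc t t' ⊆ Icc b b' ×ˢ Icc t t' :=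
    prod_mono (Icc_subset_Icc le_rfl hb) le_rfl
  have s2 : Icc b' b' ×ˢ Icc t t' ⊆ Icc b b' ×ˢ Icc t t' :=
    prod_mono (Icc_subset_Icc hb le_rfl) le_rfl
  have s3 : Icc b b' ×ˢ Icc t t ⊆ Icc b b' ×ˢ Icc t t' :=
    prod_mono le_rfl (Icc_subset_Icc le_rfl ht)
  have s4 : Icc b b' ×ˢ Icc t' t' ⊆ Icc b b' ×ˢ Icc t t' :=
    prod_mono le_rfl (Icc_subset_Icc ht le_rfl)
  obtain ⟨g1, g2, g3, g4, g5⟩ := hg
  have e1 := robust_lt (hK b b t t')
    (fun (c : ι → E3) p => dsq (base (c i) (c j) p) (fu p.1 p.2) (c y))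
    (fun p hp => hcont y p (s1 hp)) g1
  have e2 := robust_gt (hK b' b' t t')
    (fun (c : ι → E3) p => dsq (base (c i) (c j) p) (fu p.1 p.2) (c y))
    (fun p hp => hcont y p (s2 hp)) g2
  have e3 := robust_lt (hK b b' t t)
    (fun (c : ι → E3) p => dsq (base (c i) (c j) p) (fu p.1 p.2) (c z))
    (fun p hp => hcont z p (s3 hp)) g3
  have e4 := robust_gt (hK b b' t' t')
    (fun (c : ι → E3) p => dsq (base (c i) (c j) p) (fu p.1 p.2) (c z))
    (fun p hp => hcont z p (s4 hp)) g4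
  have e5 : ∀ᶠ c in 𝓝 c₀, ∀ x, x ≠ i → x ≠ j → x ≠ y → x ≠ z → ∀ p ∈ Icc b b' ×ˢ Icc t t',
      1 < dsq (base (c i) (c j) p) (fu p.1 p.2) (c x) := by
    rw [eventually_all]
    intro x
    by_cases hx : x ≠ i ∧ x ≠ j ∧ x ≠ y ∧ x ≠ z
    · have := robust_gt (hK b b' t t')
        (fun (c : ι → E3) p => dsq (base (c i) (c j) p) (fu p.1 p.2) (c x))
        (fun p hp => hcont x p hp) (g5 x hx.1 hx.2.1 hx.2.2.1 hx.2.2.2)
      filter_upwards [this] with c hc _ _ _ _ using hc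
    · filter_upwards with c h1 h2 h3 h4 using absurd ⟨h1, h2, h3, h4⟩ hx
  have e6 := robust_gt (hK b b' t t')
    (fun (c : ι → E3) p => ‖cr (fu p.1 p.2) (c i - c j)‖)
    (fun p hp => (continuousAt_cr i j (c₀, p)).norm) (r := 0)
    (fun p hp => norm_pos_iff.2 (hcr p hp))
  filter_upwards [e1, e2, e3, e4, e5, e6] with c h1 h2 h3 h4 h5 h6
  exact ⟨⟨h1, h2, h3, h4, h5⟩, fun p hp => norm_pos_iff.1 (h6 p hp)⟩

lemma exists_tangent (c : ι → E3) {b b' t t' : ℝ} (i j y z : ι) (hb : b ≤ b') (ht : t ≤ t')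
    (hcr : ∀ p ∈ Icc b b' ×ˢ Icc t t', cr (fu p.1 p.2) (c i - c j) ≠ 0)
    (hd : ‖c i - c j‖ ≤ 2)
    (hg : Good (fun x p => dsq (base (c i) (c j) p) (fu p.1 p.2) (c x)) b b' t t' i j y z) :
    ∃ ℓ, IsLine ℓ ∧ (∀ x, x = i ∨ x = j ∨ x = y ∨ x = z → Metric.infDist (c x) ℓ = 1) ∧
      ∀ x, x ≠ i → x ≠ j → x ≠ y → x ≠ z → 1 < Metric.infDist (c x) ℓ := by
  obtain ⟨g1, g2, g3, g4, g5⟩ := hg
  have hcont : ∀ x : ι, ContinuousOn
      (fun p : ℝ × ℝ => dsq (base (c i) (c j) p) (fu p.1 p.2) (c x) - 1)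
      (Icc b b' ×ˢ Icc t t') := by
    intro x p hp
    have h1 := continuousAt_dsq_base i j x (c, p) (hcr p hp)
    have h2 : ContinuousAt (fun p : ℝ × ℝ => (c, p)) p := by fun_prop
    have h3 : ContinuousAt (fun p : ℝ × ℝ => dsq (base (c i) (c j) p) (fu p.1 p.2) (c x)) p :=
      ContinuousAt.comp (g := fun z : (ι → E3) × (ℝ × ℝ) =>
        dsq (base (z.1 i) (z.1 j) z.2) (fu z.2.1 z.2.2) (z.1 x)) (f := fun p : ℝ × ℝ => (c, p))
        (x := p) h1 h2
    exact (h3.sub continuousAt_const).continuousWithinAt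
  obtain ⟨p, hp, hp1, hp2⟩ := miranda _ _ hb ht (hcont y) (hcont z)
    (fun s hs => sub_neg.2 (g1 (b, s) ⟨⟨le_rfl, le_rfl⟩, hs⟩))
    (fun s hs => sub_pos.2 (g2 (b', s) ⟨⟨le_rfl, le_rfl⟩, hs⟩))
    (fun s hs => sub_neg.2 (g3 (s, t) ⟨hs, ⟨le_rfl, le_rfl⟩⟩))
    (fun s hs => sub_pos.2 (g4 (s, t') ⟨hs, ⟨le_rfl, le_rfl⟩⟩))
  have hu := norm_fu p.1 p.2
  refine ⟨line (base (c i) (c j) p) (fu p.1 p.2), isLine_line _ _ hu, ?_, ?_⟩
  · rintro x (rfl | rfl | rfl | rfl)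
    · exact (infDist_line_eq_one hu).2 (dsq_base_left _ _ p (hcr p hp) hd)
    · exact (infDist_line_eq_one hu).2 (dsq_base_right _ _ p (hcr p hp) hd)
    · exact (infDist_line_eq_one hu).2 (sub_eq_zero.1 hp1)
    · exact (infDist_line_eq_one hu).2 (sub_eq_zero.1 hp2)
  · intro x h1 h2 h3 h4
    exact (one_lt_infDist_line hu).2 (g5 x h1 h2 h3 h4 p hp)

/-! ### The parameters -/

/-- the angles of the third group -/
noncomputable def th (m l : ℕ) : ℝ := 1 / 4 + l / (4 * m)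
/-- width of the windows for `θ` -/
noncomputable def wd (m : ℕ) : ℝ := 1 / (8 * m)
/-- centres of the third group -/
noncomputable def cC (m l : ℕ) : E3 :=
  !₂[1, 16 * m * Real.sin (th m l), 16 * m * Real.cos (th m l)]

lemma dsq_cC_zero (m l : ℕ) (θ : ℝ) :
    dsq (f1 0) (fu 0 θ) (cC m l) = (16 * m * Real.sin (th m l - θ)) ^ 2 := by
  rw [dsq_frame, Real.sin_sub]
  simp only [inner3, f1_0, f1_1, f1_2, f2_0, f2_1, f2_2, PiLp.sub_apply, cC]
  simp
  ring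

lemma sin_big {m : ℕ} (hm : 0 < m) {d : ℝ} (h1 : 1 / (8 * m) ≤ |d|) (h2 : |d| ≤ 1) :
    1 < (16 * m * Real.sin d) ^ 2 := by
  have hm' : (0 : ℝ) < m := by exact_mod_cast hm
  have hpi := Real.pi_pos
  have hpi2 := Real.pi_lt_d2
  have hpi3 := Real.pi_gt_three
  have hd0 : 0 < |d| := lt_of_lt_of_le (by positivity) h1
  have hs : 2 / Real.pi * |d| < Real.sin |d| := Real.mul_lt_sin hd0 (by linarith)
  have hsq : Real.sin d ^ 2 = Real.sin |d| ^ 2 := by
    rcases abs_cases d with ⟨h, -⟩ | ⟨h, -⟩ <;> rw [h]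
    rw [Real.sin_neg]; ring
  rw [mul_pow, hsq, ← mul_pow]
  have h3 : 1 < 16 * m * Real.sin |d| := by
    have h4 : 16 * m * (2 / Real.pi * |d|) ≤ 16 * m * Real.sin |d| :=
      mul_le_mul_of_nonneg_left hs.le (by positivity)
    have h5 : 16 * m * (2 / Real.pi * (1 / (8 * m))) ≤ 16 * m * (2 / Real.pi * |d|) := by
      gcongr
    have h6 : 16 * m * (2 / Real.pi * (1 / (8 * m))) = 4 / Real.pi := by
      field_simp; norm_num
    have h7 : 1 < 4 / Real.pi := by rw [lt_div_iff₀ hpi]; linarith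
    linarith
  nlinarith

lemma th_bounds {m l : ℕ} (hl : l < m) : 1 / 4 ≤ th m l ∧ th m l + wd m ≤ 5 / 8 := by
  have hm : 0 < m := by omega
  have hm' : (1 : ℝ) ≤ m := by exact_mod_cast hm
  have hl' : (l : ℝ) + 1 ≤ m := by exact_mod_cast hl
  unfold th wd
  constructor
  · have : (0 : ℝ) ≤ l / (4 * m) := by positivity
    linarith
  · have : (l : ℝ) / (4 * m) + 1 / (8 * m) ≤ 1 / 4 := by
      have : (l : ℝ) / (4 * m) + 1 / (8 * m) = (2 * l + 1) / (8 * m) := by field_simp; ring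
      rw [this, div_le_iff₀ (by positivity)]
      linarith
    linarith

lemma th_sep {m l l' : ℕ} (hl : l < m) (hl' : l' < m) (hne : l' ≠ l) {θ : ℝ}
    (hθ : θ ∈ Icc (th m l) (th m l + wd m)) :
    1 / (8 * m) ≤ |th m l' - θ| ∧ |th m l' - θ| ≤ 1 := by
  have hm : 0 < m := by omega
  have hm' : (1 : ℝ) ≤ m := by exact_mod_cast hm
  have b1 := th_bounds hl
  have b2 := th_bounds hl'
  have hw : 0 < wd m := by unfold wd; positivity
  constructor
  · have hx : (1 : ℝ) / (4 * m) = 2 * (1 / (8 * m)) := by field_simp; norm_num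
    rcases lt_or_gt_of_ne hne with h | h
    · have h' : (l' : ℝ) + 1 ≤ l := by exact_mod_cast h
      have : th m l' + 1 / (4 * m) ≤ th m l := by
        unfold th
        have : (l' : ℝ) / (4 * m) + 1 / (4 * m) ≤ l / (4 * m) := by
          rw [← add_div]; gcongr
        linarith
      have h3 : (0 : ℝ) < 1 / (8 * m) := by positivity
      rw [abs_of_nonpos (by linarith [hθ.1])]
      linarith [hθ.1]
    · have h' : (l : ℝ) + 1 ≤ l' := by exact_mod_cast h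
      have : th m l + 1 / (4 * m) ≤ th m l' := by
        unfold th
        have : (l : ℝ) / (4 * m) + 1 / (4 * m) ≤ l' / (4 * m) := by
          rw [← add_div]; gcongr
        linarith
      have h3 : (0 : ℝ) < 1 / (8 * m) := by positivity
      have h4 : θ ≤ th m l + 1 / (8 * m) := hθ.2
      rw [abs_of_nonneg (by linarith)]
      linarith
  · rw [abs_le]
    constructor <;> linarith [hθ.1, hθ.2]

lemma continuous_dsq_f1 (y : E3) :
    Continuous (fun z : ℝ × ℝ => dsq (f1 z.1) (fu z.1 z.2) y) := by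
  have h1 : Continuous (fun z : ℝ × ℝ => f1 z.1) := continuous_f1.comp continuous_fst
  have h2 : Continuous (fun z : ℝ × ℝ => (f1 z.1, fu z.1 z.2, y)) :=
    h1.prodMk (continuous_fu.prodMk continuous_const)
  exact Continuous.comp (g := fun w : E3 × E3 × E3 => dsq w.1 w.2.1 w.2.2)
    (f := fun z : ℝ × ℝ => (f1 z.1, fu z.1 z.2, y)) continuous_dsq h2

lemma stepC (m : ℕ) (hm : 0 < m) : ∃ η : ℝ, 0 < η ∧ η ≤ 1 ∧ ∀ β ∈ Icc 0 η, ∀ l : Fin m,
    (∀ θ ∈ Icc (th m l) (th m l), dsq (f1 β) (fu β θ) (cC m l) < 1) ∧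
    (∀ θ ∈ Icc (th m l + wd m) (th m l + wd m), 1 < dsq (f1 β) (fu β θ) (cC m l)) ∧
    ∀ l' : Fin m, l' ≠ l → ∀ θ ∈ Icc (th m l) (th m l + wd m),
      1 < dsq (f1 β) (fu β θ) (cC m l') := by
  have hm' : (1 : ℝ) ≤ m := by exact_mod_cast hm
  have key : ∀ᶠ β in 𝓝 (0 : ℝ), ∀ l : Fin m,
    (∀ θ ∈ Icc (th m l) (th m l), dsq (f1 β) (fu β θ) (cC m l) < 1) ∧
    (∀ θ ∈ Icc (th m l + wd m) (th m l + wd m), 1 < dsq (f1 β) (fu β θ) (cC m l)) ∧
    ∀ l' : Fin m, l' ≠ l → ∀ θ ∈ Icc (th m l) (th m l + wd m),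
      1 < dsq (f1 β) (fu β θ) (cC m l') := by
    rw [eventually_all]
    intro l
    refine Eventually.and ?_ (Eventually.and ?_ ?_)
    · apply robust_lt isCompact_Icc (fun β θ => dsq (f1 β) (fu β θ) (cC m l))
        (fun p _ => (continuous_dsq_f1 _).continuousAt)
      intro θ hθ
      have : θ = th m l := le_antisymm hθ.2 hθ.1
      rw [dsq_cC_zero, this, sub_self, Real.sin_zero]
      norm_num
    · apply robust_gt isCompact_Icc (fun β θ => dsq (f1 β) (fu β θ) (cC m l))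
        (fun p _ => (continuous_dsq_f1 _).continuousAt)
      intro θ hθ
      have : θ = th m l + wd m := le_antisymm hθ.2 hθ.1
      rw [dsq_cC_zero]
      apply sin_big hm
      · rw [this, sub_add_cancel_left, abs_neg, abs_of_nonneg (by unfold wd; positivity)]
        exact le_rfl
      · rw [this, sub_add_cancel_left, abs_neg, abs_of_nonneg (by unfold wd; positivity)]
        unfold wd
        rw [div_le_one (by positivity)]
        linarith
    · rw [eventually_all]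
      intro l'
      by_cases hne : l' = l
      · filter_upwards with β h using absurd hne h
      · have := robust_gt (x₀ := (0 : ℝ)) (K := Icc (th m l) (th m l + wd m)) isCompact_Icc
          (fun β θ => dsq (f1 β) (fu β θ) (cC m l'))
          (fun p _ => (continuous_dsq_f1 _).continuousAt) (r := 1) (by
            intro θ hθ
            rw [dsq_cC_zero]
            have := th_sep l.2 l'.2 (fun h => hne (Fin.ext h)) hθ
            exact sin_big hm this.1 this.2)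
        filter_upwards [this] with β hβ _ using hβ
  obtain ⟨ε, hε, h⟩ := Metric.eventually_nhds_iff.1 key
  refine ⟨min (ε / 2) 1, lt_min (by linarith) one_pos, min_le_right _ _, fun β hβ l => ?_⟩
  apply h
  rw [Real.dist_eq, sub_zero, abs_of_nonneg hβ.1]
  linarith [hβ.2.trans (min_le_left _ _)]

/-- the squared distance function for the second group -/
lemma stepB (x₀ η : ℝ) (hx : 0 < x₀) (hη : η ≤ 1) : ∃ ρ : ℝ, 1 < ρ ∧ ρ < 2 ∧
    ∀ x : ℝ, x₀ ≤ |x| → |x| ≤ η → ∀ θ ∈ Icc (1 / 4 : ℝ) (5 / 8),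
      1 < (ρ * Real.cos x - 1) ^ 2 + (ρ * (Real.sin x * Real.cos θ)) ^ 2 := by
  have key : ∀ᶠ ρ in 𝓝 (2 : ℝ), ∀ p ∈ Icc x₀ η ×ˢ Icc (1 / 4 : ℝ) (5 / 8),
      1 < (ρ * Real.cos p.1 - 1) ^ 2 + (ρ * (Real.sin p.1 * Real.cos p.2)) ^ 2 := by
    apply robust_gt (isCompact_Icc.prod isCompact_Icc)
      (fun (ρ : ℝ) (p : ℝ × ℝ) =>
        (ρ * Real.cos p.1 - 1) ^ 2 + (ρ * (Real.sin p.1 * Real.cos p.2)) ^ 2)
    · intro p _
      apply Continuous.continuousAt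
      fun_prop
    · rintro ⟨x, θ⟩ ⟨hx1, hθ⟩
      have hpi := Real.pi_gt_three
      have h1 : 1 / 2 < Real.cos θ ^ 2 := by
        rw [Real.cos_sq]
        have : 0 < Real.cos (2 * θ) := by
          apply Real.cos_pos_of_mem_Ioo
          constructor <;> linarith [hθ.1, hθ.2]
        linarith
      have h2 : Real.cos x < 1 := by
        rw [← Real.cos_zero]
        apply Real.cos_lt_cos_of_nonneg_of_le_pi le_rfl
        · linarith [hx1.2]
        · linarith [hx1.1]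
      have h3 : 0 < Real.cos x := by
        apply Real.cos_pos_of_mem_Ioo
        constructor <;> linarith [hx1.1, hx1.2]
      have h4 := Real.sin_sq_add_cos_sq x
      have h5 : (2 * Real.cos x - 1) ^ 2 + (2 * (Real.sin x * Real.cos θ)) ^ 2
          = 1 + 4 * (1 - Real.cos x) * ((1 + Real.cos x) * Real.cos θ ^ 2 - Real.cos x) := by
        linear_combination (4 * Real.cos θ ^ 2) * h4
      simp only
      rw [h5]
      have h6 : 0 < (1 + Real.cos x) * Real.cos θ ^ 2 - Real.cos x := by nlinarith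
      have h7 : 0 < 4 * (1 - Real.cos x) * ((1 + Real.cos x) * Real.cos θ ^ 2 - Real.cos x) :=
        mul_pos (by linarith) h6
      linarith
  have key2 : ∀ᶠ ρ in 𝓝[<] (2 : ℝ), ρ ∈ Ioo (1 : ℝ) 2 := Ioo_mem_nhdsLT (by norm_num)
  obtain ⟨ρ, h1, h2⟩ := ((key.filter_mono nhdsWithin_le_nhds).and key2).exists
  refine ⟨ρ, h2.1, h2.2, fun x hx1 hx2 θ hθ => ?_⟩
  have := h1 (|x|, θ) ⟨⟨hx1, hx2⟩, hθ⟩
  simp only [Real.cos_abs] at this
  have hsq : (ρ * (Real.sin |x| * Real.cos θ)) ^ 2 = (ρ * (Real.sin x * Real.cos θ)) ^ 2 := by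
    rcases abs_cases x with ⟨h, -⟩ | ⟨h, -⟩ <;> rw [h]
    rw [Real.sin_neg]; ring
  rw [hsq] at this
  exact this

/-! ### The unperturbed configuration -/

/-- vertical unit vector -/
noncomputable def ez : E3 := !₂[0, 0, 1]

@[simp] lemma ez_0 : ez 0 = 0 := rfl
@[simp] lemma ez_1 : ez 1 = 0 := rfl
@[simp] lemma ez_2 : ez 2 = 1 := rfl

/-- base point of the line in the unperturbed configuration -/
noncomputable def base0 (s δ : ℝ) (p : ℝ × ℝ) : E3 :=
  (δ * s) • ez + Real.sqrt (1 - (δ * Real.sin p.2) ^ 2 / 4) • f1 p.1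

lemma cr_ez (δ : ℝ) (p : ℝ × ℝ) : cr (fu p.1 p.2) (δ • ez) = (δ * Real.sin p.2) • f1 p.1 := by
  ext i
  fin_cases i
  · simp only [Fin.zero_eta, Fin.isValue, cr_0, fu_1, fu_2, PiLp.smul_apply, ez_2, ez_1, f1_0,
      smul_eq_mul]; ring
  · simp only [Fin.mk_one, Fin.isValue, cr_1, fu_0, fu_2, PiLp.smul_apply, ez_2, ez_0, f1_1,
      smul_eq_mul]; ring
  · simp only [Fin.reduceFinMk, Fin.isValue, cr_2, fu_0, fu_1, PiLp.smul_apply, ez_1, ez_0, f1_2,
      smul_eq_mul]; ring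

lemma base_design (a δ : ℝ) (p : ℝ × ℝ) (hδ : 0 < δ) (hp : 0 < Real.sin p.2) :
    base ((δ * (a + 1)) • ez) ((δ * a) • ez) p = base0 (a + 1 / 2) δ p := by
  have h1 : (δ * (a + 1)) • ez - (δ * a) • ez = δ • ez := by
    rw [← sub_smul]; congr 1; ring
  have h2 : ‖(δ * Real.sin p.2) • f1 p.1‖ = δ * Real.sin p.2 := by
    rw [norm_smul, norm_f1, mul_one, Real.norm_of_nonneg (by positivity)]
  unfold base base0
  rw [h1, cr_ez, h2, ← add_smul, smul_smul, smul_smul, div_mul_cancel₀ _ (by positivity)]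
  congr 2
  ring

lemma dsq_base0_ez (s δ r : ℝ) (p : ℝ × ℝ) (h : (δ * Real.sin p.2) ^ 2 ≤ 4) :
    dsq (base0 s δ p) (fu p.1 p.2) ((δ * r) • ez) =
      1 + (δ * Real.sin p.2) ^ 2 * ((r - s) ^ 2 - 1 / 4) := by
  have h1 := Real.sin_sq_add_cos_sq p.2
  have hh : Real.sqrt (1 - (δ * Real.sin p.2) ^ 2 / 4) ^ 2 = 1 - (δ * Real.sin p.2) ^ 2 / 4 :=
    Real.sq_sqrt (by linarith)
  have e : (δ * r) • ez - base0 s δ p =
      (δ * (r - s)) • ez - Real.sqrt (1 - (δ * Real.sin p.2) ^ 2 / 4) • f1 p.1 := by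
    unfold base0
    rw [mul_sub, sub_smul]; abel
  rw [dsq_frame, e]
  set h := Real.sqrt (1 - (δ * Real.sin p.2) ^ 2 / 4)
  have i1 : ⟪ez, f1 p.1⟫ = 0 := by simp only [inner3, ez_0, ez_1, ez_2, f1_0, f1_1, f1_2]; ring
  have i2 : ⟪ez, f2 p.1 p.2⟫ = -Real.sin p.2 := by
    simp only [inner3, ez_0, ez_1, ez_2, f2_0, f2_1, f2_2]; ring
  rw [inner_sub_left, inner_sub_left, inner_smul_left, inner_smul_left, inner_smul_left,
    inner_smul_left, inner_f1_f1, inner_f1_f2, i1, i2]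
  simp only [conj_trivial]
  linear_combination hh

/-- centres of the second group -/
noncomputable def cB (ρ α : ℝ) : E3 := !₂[ρ * Real.cos α, ρ * Real.sin α, 0]

lemma dsq_cB (ρ α : ℝ) (p : ℝ × ℝ) :
    dsq (f1 p.1) (fu p.1 p.2) (cB ρ α) =
      (ρ * Real.cos (α - p.1) - 1) ^ 2 + (ρ * (Real.sin (α - p.1) * Real.cos p.2)) ^ 2 := by
  have h1 := Real.sin_sq_add_cos_sq p.1
  rw [dsq_frame, Real.sin_sub, Real.cos_sub, inner_sub_left, inner_sub_left, inner_f1_f1,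
    inner_f1_f2]
  simp only [inner3, f1_0, f1_1, f1_2, f2_0, f2_1, f2_2, cB]
  simp
  ring

lemma continuous_base0 (s : ℝ) (y : E3) :
    Continuous (fun z : ℝ × (ℝ × ℝ) => dsq (base0 s z.1 z.2) (fu z.2.1 z.2.2) y) := by
  have h0 : Continuous (fun z : ℝ × (ℝ × ℝ) => f1 z.2.1) :=
    continuous_f1.comp (continuous_fst.comp continuous_snd)
  have h1 : Continuous (fun z : ℝ × (ℝ × ℝ) => base0 s z.1 z.2) := by
    unfold base0
    fun_prop
  have h2 : Continuous (fun z : ℝ × (ℝ × ℝ) => fu z.2.1 z.2.2) := continuous_fu.comp continuous_snd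
  have h3 : Continuous (fun z : ℝ × (ℝ × ℝ) => (base0 s z.1 z.2, fu z.2.1 z.2.2, y)) :=
    h1.prodMk (h2.prodMk continuous_const)
  exact Continuous.comp (g := fun w : E3 × E3 × E3 => dsq w.1 w.2.1 w.2.2)
    (f := fun z : ℝ × (ℝ × ℝ) => (base0 s z.1 z.2, fu z.2.1 z.2.2, y)) continuous_dsq h3

lemma base0_zero (s : ℝ) (p : ℝ × ℝ) : base0 s 0 p = f1 p.1 := by
  unfold base0
  simp

end Pool.Agent.Helper3.Balls
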