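import Mathlib
import Pool.Agent.Helper3.BallsDesign

/-!
# The configuration of balls
-/

namespace Pool.Agent.Helper3.Balls

open Set Filter Topology
open scoped RealInnerProductSpace

/-- the index set of the balls: three groups -/
abbrev Idx (M m : ℕ) : Type := Fin (M + 1) ⊕ Fin m ⊕ Fin m

/-- angles of the second group -/
noncomputable def al (η : ℝ) (m k : ℕ) : ℝ := η * k / m

/-- the unperturbed configuration -/
noncomputable def c0 (M m : ℕ) (δ ρ η : ℝ) : Idx M m → E3
  | Sum.inl a => (δ * (a : ℕ)) • ez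
  | Sum.inr (Sum.inl k) => cB ρ (al η m k)
  | Sum.inr (Sum.inr l) => cC m l

lemma al_bounds {η : ℝ} (hη : 0 < η) {m k : ℕ} (hk : k < m) :
    0 ≤ al η m k ∧ al η m k + η / (2 * m) ≤ η := by
  have hm : 0 < m := by omega
  have hm' : (1 : ℝ) ≤ m := by exact_mod_cast hm
  have hk' : (k : ℝ) + 1 ≤ m := by exact_mod_cast hk
  unfold al
  constructor
  · positivity
  · have : η * k / m + η / (2 * m) = η * (2 * k + 1) / (2 * m) := by field_simp
    rw [this, div_le_iff₀ (by positivity)]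
    nlinarith

lemma al_sep {η : ℝ} (hη : 0 < η) {m k k' : ℕ} (hk : k < m) (hk' : k' < m) (hne : k' ≠ k) {β : ℝ}
    (hβ : β ∈ Icc (al η m k) (al η m k + η / (2 * m))) :
    η / (2 * m) ≤ |al η m k' - β| ∧ |al η m k' - β| ≤ η := by
  have hm : 0 < m := by omega
  have hm' : (1 : ℝ) ≤ m := by exact_mod_cast hm
  have b1 := al_bounds hη hk
  have b2 := al_bounds hη hk'
  have hw : 0 < η / (2 * m) := by positivity
  constructor
  · have hx : η / m = 2 * (η / (2 * m)) := by field_simp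
    rcases lt_or_gt_of_ne hne with h | h
    · have h' : (k' : ℝ) + 1 ≤ k := by exact_mod_cast h
      have : al η m k' + η / m ≤ al η m k := by
        unfold al
        rw [← add_div]
        gcongr
        nlinarith
      rw [abs_of_nonpos (by linarith [hβ.1])]
      linarith [hβ.1]
    · have h' : (k : ℝ) + 1 ≤ k' := by exact_mod_cast h
      have : al η m k + η / m ≤ al η m k' := by
        unfold al
        rw [← add_div]
        gcongr
        nlinarith
      rw [abs_of_nonneg (by linarith [hβ.2])]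
      linarith [hβ.2]
  · rw [abs_le]
    constructor <;> linarith [hβ.1, hβ.2]

lemma rob_gt (s : ℝ) (y : E3) {K : Set (ℝ × ℝ)} (hK : IsCompact K)
    (h : ∀ p ∈ K, 1 < dsq (f1 p.1) (fu p.1 p.2) y) :
    ∀ᶠ δ in 𝓝 (0 : ℝ), ∀ p ∈ K, 1 < dsq (base0 s δ p) (fu p.1 p.2) y := by
  have hc := continuous_base0 s y
  apply robust_gt hK (fun (δ : ℝ) (p : ℝ × ℝ) => dsq (base0 s δ p) (fu p.1 p.2) y)
  · intro p _
    exact hc.continuousAt
  · intro p hp
    rw [base0_zero]
    exact h p hp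

lemma rob_lt (s : ℝ) (y : E3) {K : Set (ℝ × ℝ)} (hK : IsCompact K)
    (h : ∀ p ∈ K, dsq (f1 p.1) (fu p.1 p.2) y < 1) :
    ∀ᶠ δ in 𝓝 (0 : ℝ), ∀ p ∈ K, dsq (base0 s δ p) (fu p.1 p.2) y < 1 := by
  have hc := continuous_base0 s y
  apply robust_lt hK (fun (δ : ℝ) (p : ℝ × ℝ) => dsq (base0 s δ p) (fu p.1 p.2) y)
  · intro p _
    exact hc.continuousAt
  · intro p hp
    rw [base0_zero]
    exact h p hp

lemma exists_design (M m : ℕ) (hm : 0 < m) : ∃ δ ρ η : ℝ, 0 < δ ∧ δ ≤ 1 ∧ 0 < η ∧ η ≤ 1 ∧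
    1 < ρ ∧ ρ < 2 ∧ ∀ (a : Fin M) (k l : Fin m),
      (∀ p ∈ Icc (al η m k) (al η m k + η / (2 * m)) ×ˢ Icc (th m l) (th m l + wd m),
        cr (fu p.1 p.2) (c0 M m δ ρ η (Sum.inl a.succ) - c0 M m δ ρ η (Sum.inl a.castSucc)) ≠ 0) ∧
      Good (fun x p => dsq (base (c0 M m δ ρ η (Sum.inl a.succ))
          (c0 M m δ ρ η (Sum.inl a.castSucc)) p) (fu p.1 p.2) (c0 M m δ ρ η x))
        (al η m k) (al η m k + η / (2 * m)) (th m l) (th m l + wd m)
        (Sum.inl a.succ) (Sum.inl a.castSucc) (Sum.inr (Sum.inl k)) (Sum.inr (Sum.inr l)) := by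
  have hm' : (1 : ℝ) ≤ m := by exact_mod_cast hm
  obtain ⟨η, hη, hη1, hC⟩ := stepC m hm
  have hx₀ : 0 < η / (2 * m) := by positivity
  have hx₁ : η / (2 * m) ≤ η := by
    rw [div_le_iff₀ (by positivity)]; nlinarith
  obtain ⟨ρ, hρ1, hρ2, hB⟩ := stepB (η / (2 * m)) η hx₀ hη1
  have hw : 0 < wd m := by unfold wd; positivity
  -- the conditions for small `δ`
  have key : ∀ᶠ δ in 𝓝 (0 : ℝ), ∀ (a : Fin M) (k l : Fin m),
      (∀ p ∈ Icc (al η m k) (al η m k) ×ˢ Icc (th m l) (th m l + wd m),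
        dsq (base0 ((a : ℕ) + 1 / 2) δ p) (fu p.1 p.2) (cB ρ (al η m k)) < 1) ∧
      (∀ p ∈ Icc (al η m k + η / (2 * m)) (al η m k + η / (2 * m)) ×ˢ
          Icc (th m l) (th m l + wd m),
        1 < dsq (base0 ((a : ℕ) + 1 / 2) δ p) (fu p.1 p.2) (cB ρ (al η m k))) ∧
      (∀ p ∈ Icc (al η m k) (al η m k + η / (2 * m)) ×ˢ Icc (th m l) (th m l),
        dsq (base0 ((a : ℕ) + 1 / 2) δ p) (fu p.1 p.2) (cC m l) < 1) ∧
      (∀ p ∈ Icc (al η m k) (al η m k + η / (2 * m)) ×ˢ
          Icc (th m l + wd m) (th m l + wd m),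
        1 < dsq (base0 ((a : ℕ) + 1 / 2) δ p) (fu p.1 p.2) (cC m l)) ∧
      (∀ k' : Fin m, k' ≠ k →
        ∀ p ∈ Icc (al η m k) (al η m k + η / (2 * m)) ×ˢ Icc (th m l) (th m l + wd m),
        1 < dsq (base0 ((a : ℕ) + 1 / 2) δ p) (fu p.1 p.2) (cB ρ (al η m k'))) ∧
      (∀ l' : Fin m, l' ≠ l →
        ∀ p ∈ Icc (al η m k) (al η m k + η / (2 * m)) ×ˢ Icc (th m l) (th m l + wd m),
        1 < dsq (base0 ((a : ℕ) + 1 / 2) δ p) (fu p.1 p.2) (cC m l')) := by
    rw [eventually_all]; intro a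
    rw [eventually_all]; intro k
    rw [eventually_all]; intro l
    have bk := al_bounds hη k.2
    have bl := th_bounds l.2
    refine Eventually.and ?_ (Eventually.and ?_ (Eventually.and ?_ (Eventually.and ?_
      (Eventually.and ?_ ?_))))
    · apply rob_lt _ _ (isCompact_Icc.prod isCompact_Icc)
      rintro ⟨β, θ⟩ ⟨hβ, hθ⟩
      have hβ' : β = al η m k := le_antisymm hβ.2 hβ.1
      rw [dsq_cB, hβ']
      simp only [sub_self, Real.cos_zero, Real.sin_zero]
      nlinarith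
    · apply rob_gt _ _ (isCompact_Icc.prod isCompact_Icc)
      rintro ⟨β, θ⟩ ⟨hβ, hθ⟩
      have hβ' : β = al η m k + η / (2 * m) := le_antisymm hβ.2 hβ.1
      rw [dsq_cB]
      apply hB _ _ _ _ ⟨bl.1.trans hθ.1, hθ.2.trans bl.2⟩
      · simp only [hβ', sub_add_cancel_left, abs_neg]
        exact le_abs_self _
      · simp only [hβ', sub_add_cancel_left, abs_neg]
        rw [abs_of_pos hx₀]
        exact hx₁
    · apply rob_lt _ _ (isCompact_Icc.prod isCompact_Icc)
      rintro ⟨β, θ⟩ ⟨hβ, hθ⟩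
      exact (hC β ⟨bk.1.trans hβ.1, hβ.2.trans bk.2⟩ l).1 θ hθ
    · apply rob_gt _ _ (isCompact_Icc.prod isCompact_Icc)
      rintro ⟨β, θ⟩ ⟨hβ, hθ⟩
      exact (hC β ⟨bk.1.trans hβ.1, hβ.2.trans bk.2⟩ l).2.1 θ hθ
    · rw [eventually_all]
      intro k'
      by_cases hne : k' = k
      · filter_upwards with δ h using absurd hne h
      · have := rob_gt ((a : ℕ) + 1 / 2) (cB ρ (al η m k'))
          (K := Icc (al η m k) (al η m k + η / (2 * m)) ×ˢ Icc (th m l) (th m l + wd m))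
          (isCompact_Icc.prod isCompact_Icc) (by
            rintro ⟨β, θ⟩ ⟨hβ, hθ⟩
            rw [dsq_cB]
            have hs := al_sep hη k.2 k'.2 (fun h => hne (Fin.ext h)) hβ
            exact hB _ hs.1 hs.2 θ ⟨bl.1.trans hθ.1, hθ.2.trans bl.2⟩)
        filter_upwards [this] with δ hδ _ using hδ
    · rw [eventually_all]
      intro l'
      by_cases hne : l' = l
      · filter_upwards with δ h using absurd hne h
      · have := rob_gt ((a : ℕ) + 1 / 2) (cC m l')
          (K := Icc (al η m k) (al η m k + η / (2 * m)) ×ˢ Icc (th m l) (th m l + wd m))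
          (isCompact_Icc.prod isCompact_Icc) (by
            rintro ⟨β, θ⟩ ⟨hβ, hθ⟩
            exact (hC β ⟨bk.1.trans hβ.1, hβ.2.trans bk.2⟩ l).2.2 l' hne θ hθ)
        filter_upwards [this] with δ hδ _ using hδ
  have key2 : ∀ᶠ δ in 𝓝[>] (0 : ℝ), δ ∈ Ioo (0 : ℝ) 1 := Ioo_mem_nhdsGT (by norm_num)
  obtain ⟨δ, hδ, hδ0, hδ1⟩ := ((key.filter_mono nhdsWithin_le_nhds).and key2).exists
  refine ⟨δ, ρ, η, hδ0, hδ1.le, hη, hη1, hρ1, hρ2, fun a k l => ?_⟩
  obtain ⟨g1, g2, g3, g4, g5, g6⟩ := hδ a k l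
  have bl := th_bounds l.2
  have hsin : ∀ θ ∈ Icc (th m l) (th m l + wd m), 0 < Real.sin θ := by
    intro θ hθ
    apply Real.sin_pos_of_pos_of_lt_pi
    · linarith [hθ.1]
    · linarith [hθ.2, Real.pi_gt_three]
  have e1 : c0 M m δ ρ η (Sum.inl a.succ) = (δ * ((a : ℕ) + 1)) • ez := by
    simp [c0]
  have e2 : c0 M m δ ρ η (Sum.inl a.castSucc) = (δ * (a : ℕ)) • ez := by
    simp [c0]
  have hbase : ∀ p : ℝ × ℝ, p.2 ∈ Icc (th m l) (th m l + wd m) →
      base (c0 M m δ ρ η (Sum.inl a.succ)) (c0 M m δ ρ η (Sum.inl a.castSucc)) p =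
        base0 ((a : ℕ) + 1 / 2) δ p := by
    intro p hp
    rw [e1, e2]
    exact base_design _ δ p hδ0 (hsin _ hp)
  have ht1 : th m l ∈ Icc (th m l) (th m l + wd m) := ⟨le_rfl, by linarith⟩
  have ht2 : th m l + wd m ∈ Icc (th m l) (th m l + wd m) := ⟨by linarith, le_rfl⟩
  constructor
  · rintro ⟨β, θ⟩ ⟨hβ, hθ⟩
    have h1 : (δ * ((a : ℕ) + 1)) • ez - (δ * (a : ℕ)) • ez = δ • ez := by
      rw [← sub_smul]; congr 1; ring
    rw [e1, e2, h1, cr_ez, ← norm_ne_zero_iff, norm_smul, norm_f1, mul_one, norm_ne_zero_iff]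
    have := hsin θ hθ
    positivity
  · refine ⟨?_, ?_, ?_, ?_, ?_⟩
    · intro p hp
      simp only
      rw [hbase p hp.2]
      exact g1 p hp
    · intro p hp
      simp only
      rw [hbase p hp.2]
      exact g2 p hp
    · intro p hp
      simp only
      have : p.2 = th m l := le_antisymm hp.2.2 hp.2.1
      rw [hbase p (by rw [this]; exact ht1)]
      exact g3 p hp
    · intro p hp
      simp only
      have : p.2 = th m l + wd m := le_antisymm hp.2.2 hp.2.1
      rw [hbase p (by rw [this]; exact ht2)]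
      exact g4 p hp
    · rintro (j | k' | l') h1 h2 h3 h4 p hp
      · simp only
        rw [hbase p hp.2]
        have hsp := hsin p.2 hp.2
        have hd2 : (δ * Real.sin p.2) ^ 2 ≤ 4 := by
          have : δ * Real.sin p.2 ≤ 1 := mul_le_one₀ hδ1.le hsp.le (Real.sin_le_one _)
          have : 0 < δ * Real.sin p.2 := by positivity
          nlinarith
        change 1 < dsq (base0 ((a : ℕ) + 1 / 2) δ p) (fu p.1 p.2) ((δ * (j : ℕ)) • ez)
        rw [dsq_base0_ez _ _ _ _ hd2]
        have hj1 : (j : ℕ) ≠ a + 1 := by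
          intro h
          apply h1
          congr 1
          exact Fin.ext (by simpa using h)
        have hj2 : (j : ℕ) ≠ a := by
          intro h
          apply h2
          congr 1
          exact Fin.ext (by simpa using h)
        have hpos : 0 < ((j : ℝ) - ((a : ℕ) + 1 / 2)) ^ 2 - 1 / 4 := by
          rcases lt_or_gt_of_ne hj2 with h | h
          · have h' : ((j : ℕ) : ℝ) + 1 ≤ (a : ℕ) := by exact_mod_cast h
            nlinarith
          · have h'' : (a : ℕ) + 2 ≤ j := by omega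
            have h' : ((a : ℕ) : ℝ) + 2 ≤ (j : ℕ) := by exact_mod_cast h''
            nlinarith
        have : 0 < (δ * Real.sin p.2) ^ 2 * (((j : ℝ) - ((a : ℕ) + 1 / 2)) ^ 2 - 1 / 4) := by
          positivity
        linarith
      · simp only
        rw [hbase p hp.2]
        exact g5 k' (fun h => h3 (by rw [h])) p hp
      · simp only
        rw [hbase p hp.2]
        exact g6 l' (fun h => h4 (by rw [h])) p hp

lemma cos_inj_aux {x y : ℝ} (hx : 0 ≤ x) (hx1 : x ≤ 1) (hy : 0 ≤ y) (hy1 : y ≤ 1)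
    (h : Real.cos x = Real.cos y) : x = y := by
  have hpi := Real.pi_gt_three
  exact Real.injOn_cos ⟨hx, by linarith⟩ ⟨hy, by linarith⟩ h

lemma c0_injective (M m : ℕ) (hm : 0 < m) {δ ρ η : ℝ} (hδ : 0 < δ) (hη : 0 < η) (hη1 : η ≤ 1)
    (hρ : 1 < ρ) : Function.Injective (c0 M m δ ρ η) := by
  have hpi := Real.pi_gt_three
  have hm' : (0 : ℝ) < m := by exact_mod_cast hm
  have hcosB : ∀ k : Fin m, 0 < Real.cos (al η m k) := fun k => by
    have b := al_bounds hη k.2
    have : 0 < η / (2 * m) := by positivity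
    apply Real.cos_pos_of_mem_Ioo
    constructor <;> linarith
  have hcosC : ∀ l : Fin m, 0 < Real.cos (th m l) := fun l => by
    have b := th_bounds l.2
    have hw : 0 < wd m := by unfold wd; positivity
    apply Real.cos_pos_of_mem_Ioo
    constructor <;> linarith
  have A0 : ∀ a : Fin (M + 1), c0 M m δ ρ η (Sum.inl a) 0 = 0 := fun a => by simp [c0]
  have A2 : ∀ a : Fin (M + 1), c0 M m δ ρ η (Sum.inl a) 2 = δ * (a : ℕ) := fun a => by simp [c0]
  have B0 : ∀ k : Fin m, c0 M m δ ρ η (Sum.inr (Sum.inl k)) 0 = ρ * Real.cos (al η m k) :=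
    fun k => rfl
  have B2 : ∀ k : Fin m, c0 M m δ ρ η (Sum.inr (Sum.inl k)) 2 = 0 := fun k => rfl
  have C0 : ∀ l : Fin m, c0 M m δ ρ η (Sum.inr (Sum.inr l)) 0 = 1 := fun k => rfl
  have C2 : ∀ l : Fin m, c0 M m δ ρ η (Sum.inr (Sum.inr l)) 2 = 16 * m * Real.cos (th m l) :=
    fun k => rfl
  rintro (a | k | l) (a' | k' | l') h
  · have h2 := congrArg (fun v : E3 => v 2) h
    simp only [A2] at h2
    have h3 : ((a : ℕ) : ℝ) = (a' : ℕ) := mul_left_cancel₀ hδ.ne' h2
    congr 1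
    exact Fin.ext (by exact_mod_cast h3)
  · have h0 := congrArg (fun v : E3 => v 0) h
    simp only [A0, B0] at h0
    have := hcosB k'
    have : 0 < ρ * Real.cos (al η m k') := by positivity
    linarith
  · have h0 := congrArg (fun v : E3 => v 0) h
    simp only [A0, C0] at h0
    norm_num at h0
  · have h0 := congrArg (fun v : E3 => v 0) h
    simp only [A0, B0] at h0
    have := hcosB k
    have : 0 < ρ * Real.cos (al η m k) := by positivity
    linarith
  · have h0 := congrArg (fun v : E3 => v 0) h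
    simp only [B0] at h0
    have h1 : Real.cos (al η m k) = Real.cos (al η m k') :=
      mul_left_cancel₀ (by positivity) h0
    have hw : 0 < η / (2 * m) := by positivity
    have b := al_bounds hη k.2
    have b' := al_bounds hη k'.2
    have h2 := cos_inj_aux b.1 (by linarith) b'.1 (by linarith) h1
    unfold al at h2
    rw [div_left_inj' hm'.ne'] at h2
    have h3 : ((k : ℕ) : ℝ) = (k' : ℕ) := mul_left_cancel₀ hη.ne' h2
    congr 2
    exact Fin.ext (by exact_mod_cast h3)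
  · have h0 := congrArg (fun v : E3 => v 2) h
    simp only [B2, C2] at h0
    have := hcosC l'
    have : 0 < 16 * m * Real.cos (th m l') := by positivity
    linarith
  · have h0 := congrArg (fun v : E3 => v 0) h
    simp only [A0, C0] at h0
    norm_num at h0
  · have h0 := congrArg (fun v : E3 => v 2) h
    simp only [B2, C2] at h0
    have := hcosC l
    have : 0 < 16 * m * Real.cos (th m l) := by positivity
    linarith
  · have h0 := congrArg (fun v : E3 => v 2) h
    simp only [C2] at h0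
    have h1 : Real.cos (th m l) = Real.cos (th m l') :=
      mul_left_cancel₀ (by positivity) h0
    have b := th_bounds l.2
    have b' := th_bounds l'.2
    have hw : 0 < wd m := by unfold wd; positivity
    have h2 := cos_inj_aux (by linarith) (by linarith) (by linarith) (by linarith) h1
    unfold th at h2
    have h3 : ((l : ℕ) : ℝ) / (4 * m) = (l' : ℕ) / (4 * m) := by linarith
    rw [div_left_inj' (by positivity)] at h3
    congr 2
    exact Fin.ext (by exact_mod_cast h3)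

/-- The final configuration: in general position, and with all the required tangent lines. -/
theorem exists_family (M m : ℕ) (hm : 0 < m) : ∃ c : Idx M m → E3, Function.Injective c ∧
    (∀ Q : Fin 4 → Idx M m, Function.Injective Q →
      {ℓ : AffineSubspace ℝ E3 | IsLine ℓ ∧ ∀ j, Metric.infDist (c (Q j)) ℓ = 1}.Finite) ∧
    ∀ (a : Fin M) (k l : Fin m), ∃ ℓ, IsLine ℓ ∧
      (∀ x, x = Sum.inl a.succ ∨ x = Sum.inl a.castSucc ∨ x = Sum.inr (Sum.inl k) ∨
        x = Sum.inr (Sum.inr l) → Metric.infDist (c x) ℓ = 1) ∧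
      ∀ x, x ≠ Sum.inl a.succ → x ≠ Sum.inl a.castSucc → x ≠ Sum.inr (Sum.inl k) →
        x ≠ Sum.inr (Sum.inr l) → 1 < Metric.infDist (c x) ℓ := by
  obtain ⟨δ, ρ, η, hδ, hδ1, hη, hη1, hρ1, hρ2, hgood⟩ := exists_design M m hm
  have hm' : (0 : ℝ) < m := by exact_mod_cast hm
  have hx₀ : 0 < η / (2 * m) := by positivity
  have hw : 0 < wd m := by unfold wd; positivity
  have hinj := c0_injective M m hm hδ hη hη1 hρ1
  have e1 : ∀ᶠ c in 𝓝 (c0 M m δ ρ η), ∀ x y, x ≠ y → c x ≠ c y := by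
    rw [eventually_all]; intro x
    rw [eventually_all]; intro y
    by_cases hxy : x = y
    · filter_upwards with c h using absurd hxy h
    · have h1 : IsOpen {c : Idx M m → E3 | c x ≠ c y} := by
        apply isOpen_ne_fun <;> fun_prop
      filter_upwards [h1.mem_nhds (hinj.ne hxy)] with c hc _ using hc
  have e2 : ∀ᶠ c in 𝓝 (c0 M m δ ρ η), ∀ a : Fin M,
      ‖c (Sum.inl a.succ) - c (Sum.inl a.castSucc)‖ < 2 := by
    rw [eventually_all]; intro a
    have h1 : IsOpen {c : Idx M m → E3 | ‖c (Sum.inl a.succ) - c (Sum.inl a.castSucc)‖ < 2} := by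
      apply isOpen_lt <;> fun_prop
    apply h1.mem_nhds
    have h2 : c0 M m δ ρ η (Sum.inl a.succ) - c0 M m δ ρ η (Sum.inl a.castSucc) = δ • ez := by
      simp only [c0, ← sub_smul]
      congr 1
      simp
      ring
    have h3 : ‖ez‖ = 1 := by
      have := norm3 ez
      simp only [ez_0, ez_1, ez_2] at this
      have h0 := norm_nonneg ez
      nlinarith
    change ‖c0 M m δ ρ η (Sum.inl a.succ) - c0 M m δ ρ η (Sum.inl a.castSucc)‖ < 2
    rw [h2, norm_smul, h3, mul_one, Real.norm_of_nonneg hδ.le]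
    linarith
  have e3 : ∀ᶠ c in 𝓝 (c0 M m δ ρ η), ∀ (a : Fin M) (k l : Fin m),
      Good (fun x p => dsq (base (c (Sum.inl a.succ)) (c (Sum.inl a.castSucc)) p)
        (fu p.1 p.2) (c x)) (al η m k) (al η m k + η / (2 * m)) (th m l) (th m l + wd m)
        (Sum.inl a.succ) (Sum.inl a.castSucc) (Sum.inr (Sum.inl k)) (Sum.inr (Sum.inr l)) ∧
      ∀ p ∈ Icc (al η m k) (al η m k + η / (2 * m)) ×ˢ Icc (th m l) (th m l + wd m),
        cr (fu p.1 p.2) (c (Sum.inl a.succ) - c (Sum.inl a.castSucc)) ≠ 0 := by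
    rw [eventually_all]; intro a
    rw [eventually_all]; intro k
    rw [eventually_all]; intro l
    obtain ⟨h1, h2⟩ := hgood a k l
    exact good_eventually (c0 M m δ ρ η) _ _ _ _ (by linarith) (by linarith) h1 h2
  obtain ⟨c, ⟨hc1, hc2, hc3⟩, hfin⟩ := exists_generic_centres (c0 M m δ ρ η)
    (U := {c | (∀ x y, x ≠ y → c x ≠ c y) ∧ (∀ a : Fin M,
      ‖c (Sum.inl a.succ) - c (Sum.inl a.castSucc)‖ < 2) ∧ ∀ (a : Fin M) (k l : Fin m),
      Good (fun x p => dsq (base (c (Sum.inl a.succ)) (c (Sum.inl a.castSucc)) p)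
        (fu p.1 p.2) (c x)) (al η m k) (al η m k + η / (2 * m)) (th m l) (th m l + wd m)
        (Sum.inl a.succ) (Sum.inl a.castSucc) (Sum.inr (Sum.inl k)) (Sum.inr (Sum.inr l)) ∧
      ∀ p ∈ Icc (al η m k) (al η m k + η / (2 * m)) ×ˢ Icc (th m l) (th m l + wd m),
        cr (fu p.1 p.2) (c (Sum.inl a.succ) - c (Sum.inl a.castSucc)) ≠ 0})
    (by filter_upwards [e1, e2, e3] with c h1 h2 h3 using ⟨h1, h2, h3⟩)
  refine ⟨c, fun x y h => by_contra fun hne => hc1 x y hne h, hfin, fun a k l => ?_⟩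
  obtain ⟨g1, g2⟩ := hc3 a k l
  exact exists_tangent c _ _ _ _ (by linarith) (by linarith) g2 (hc2 a).le g1

end Pool.Agent.Helper3.Balls
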