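import Mathlib
import Pool.Agent.Helper3.BallsConfig

/-!
# Counting
-/

namespace Pool.Agent.Helper3.Balls

open Set

/-- lines tangent to exactly four of the balls and missing the others -/
def fourT (S : Finset E3) : Set (AffineSubspace ℝ E3) :=
  {ℓ | ((ℓ : Set E3).Nonempty ∧ Module.finrank ℝ ℓ.direction = 1) ∧
    ∃ s ⊆ S, s.card = 4 ∧ (∀ c ∈ s, Metric.infDist c (ℓ : Set E3) = 1) ∧
      ∀ c ∈ S, c ∉ s → 1 < Metric.infDist c (ℓ : Set E3)}

theorem exists_set (M m : ℕ) (hm : 0 < m) : ∃ S : Finset E3, S.card = M + 1 + 2 * m ∧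
    (fourT S).Finite ∧ M * m * m ≤ (fourT S).ncard := by
  classical
  obtain ⟨c, hinj, hfin, hℓ⟩ := exists_family M m hm
  choose ℓ hline htan hmiss using hℓ
  let S : Finset E3 := Finset.univ.map ⟨c, hinj⟩
  have hmemS : ∀ y, y ∈ S ↔ ∃ x, c x = y := by
    intro y; simp [S]
  have hfinS : (fourT S).Finite := by
    have hU : (⋃ Q : {Q : Fin 4 → Idx M m // Function.Injective Q},
        {ℓ : AffineSubspace ℝ E3 | IsLine ℓ ∧ ∀ j, Metric.infDist (c (Q.1 j)) ℓ = 1}).Finite :=
      finite_iUnion fun Q => hfin Q.1 Q.2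
    refine hU.subset ?_
    rintro L ⟨hL, s, hsS, hs4, hs1, -⟩
    -- enumerate `s`
    have e := s.equivFinOfCardEq hs4
    have hpre : ∀ j : Fin 4, ∃ x, c x = (e.symm j : E3) := fun j =>
      (hmemS _).1 (hsS (e.symm j).2)
    choose Q hQ using hpre
    rw [mem_iUnion]
    refine ⟨⟨Q, ?_⟩, hL, fun j => ?_⟩
    · intro i j hij
      apply e.symm.injective
      apply Subtype.ext
      rw [← hQ, ← hQ, hij]
    · change Metric.infDist (c (Q j)) L = 1
      rw [hQ]
      exact hs1 _ (e.symm j).2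
  refine ⟨S, ?_, hfinS, ?_⟩
  · simp only [S, Finset.card_map, Finset.card_univ, Idx, Fintype.card_sum, Fintype.card_fin]
    ring
  · let g : Fin M × Fin m × Fin m → AffineSubspace ℝ E3 := fun p => ℓ p.1 p.2.1 p.2.2
    have hone : ∀ (p : Fin M × Fin m × Fin m) x, Metric.infDist (c x) (g p) = 1 →
        x = Sum.inl p.1.succ ∨ x = Sum.inl p.1.castSucc ∨ x = Sum.inr (Sum.inl p.2.1) ∨
        x = Sum.inr (Sum.inr p.2.2) := by
      intro p x hx
      by_contra hcon
      push Not at hcon
      have := hmiss p.1 p.2.1 p.2.2 x hcon.1 hcon.2.1 hcon.2.2.1 hcon.2.2.2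
      change Metric.infDist (c x) (ℓ p.1 p.2.1 p.2.2) = 1 at hx
      rw [hx] at this
      exact lt_irrefl _ this
    have hg : Function.Injective g := by
      rintro ⟨a, k, l⟩ ⟨a', k', l'⟩ h
      have hk := hone (a', k', l') (Sum.inr (Sum.inl k)) (by
        rw [← h]; exact htan a k l _ (Or.inr (Or.inr (Or.inl rfl))))
      have hl := hone (a', k', l') (Sum.inr (Sum.inr l)) (by
        rw [← h]; exact htan a k l _ (Or.inr (Or.inr (Or.inr rfl))))
      have ha1 := hone (a', k', l') (Sum.inl a.succ) (by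
        rw [← h]; exact htan a k l _ (Or.inl rfl))
      have ha2 := hone (a', k', l') (Sum.inl a.castSucc) (by
        rw [← h]; exact htan a k l _ (Or.inr (Or.inl rfl)))
      simp only [reduceCtorEq, Sum.inr.injEq, Sum.inl.injEq, false_or, or_false] at hk hl ha1 ha2
      subst hk; subst hl
      have haa : a = a' := by
        apply Fin.ext
        simp only [Fin.ext_iff, Fin.val_succ, Fin.val_castSucc] at ha1 ha2
        omega
      rw [haa]
    have hsub : range g ⊆ fourT S := by
      rintro _ ⟨⟨a, k, l⟩, rfl⟩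
      refine ⟨hline a k l, ({Sum.inl a.succ, Sum.inl a.castSucc, Sum.inr (Sum.inl k),
        Sum.inr (Sum.inr l)} : Finset (Idx M m)).map ⟨c, hinj⟩, ?_, ?_, ?_, ?_⟩
      · exact Finset.map_subset_map.2 (Finset.subset_univ _)
      · rw [Finset.card_map]
        rw [Finset.card_insert_of_notMem, Finset.card_insert_of_notMem,
          Finset.card_insert_of_notMem, Finset.card_singleton]
        · simp
        · simp
        · simp [Fin.ext_iff]
      · intro y hy
        rw [Finset.mem_map] at hy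
        obtain ⟨x, hx, rfl⟩ := hy
        simp only [Finset.mem_insert, Finset.mem_singleton] at hx
        exact htan a k l x hx
      · intro y hy hy'
        obtain ⟨x, rfl⟩ := (hmemS y).1 hy
        have hx : ¬ (x = Sum.inl a.succ ∨ x = Sum.inl a.castSucc ∨ x = Sum.inr (Sum.inl k) ∨
            x = Sum.inr (Sum.inr l)) := by
          intro hx
          apply hy'
          rw [Finset.mem_map]
          exact ⟨x, by simpa only [Finset.mem_insert, Finset.mem_singleton] using hx, rfl⟩
        push Not at hx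
        exact hmiss a k l x hx.1 hx.2.1 hx.2.2.1 hx.2.2.2
    have hcard : (range g).ncard = M * m * m := by
      rw [← image_univ, ncard_image_of_injective _ hg, ncard_univ]
      simp [Nat.card_eq_fintype_card, mul_assoc]
    rw [← hcard]
    exact ncard_le_ncard hsub hfinS

theorem main (n : ℕ) (hn : 6 ≤ n) : ∃ S : Finset E3, S.card = n ∧
    (fourT S).Finite ∧ n ^ 3 ≤ 216 * (fourT S).ncard := by
  have hm : 0 < n / 3 := by omega
  obtain ⟨S, hS, hfin, hcard⟩ := exists_set (n - 1 - 2 * (n / 3)) (n / 3) hm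
  refine ⟨S, by omega, hfin, ?_⟩
  have h1 : n ≤ 6 * (n - 1 - 2 * (n / 3)) := by omega
  have h2 : n ≤ 6 * (n / 3) := by omega
  calc n ^ 3 = n * n * n := by ring
    _ ≤ (6 * (n - 1 - 2 * (n / 3))) * (6 * (n / 3)) * (6 * (n / 3)) := by gcongr
    _ = 216 * ((n - 1 - 2 * (n / 3)) * (n / 3) * (n / 3)) := by ring
    _ ≤ 216 * (fourT S).ncard := by gcongr

end Pool.Agent.Helper3.Balls
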