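import Mathlib
import Pool.Agent.Helper78.BigMap.Goals

/-!
# Packet D7 (MP_2b9d24_gt)

The monodromy of the cubic Chebyshev covering of the plane minus two points.
-/

set_option autoImplicit false

open Set

open Polynomial (C)

namespace Pool.Agent.Helper3.BigD7

open Pool.Agent.Helper78.BigMap

/-- an explicit path of arc cosines -/
theorem arccos_path (α : ℝ) (h0 : 0 < α) (h1 : α < Real.pi / 2) :
    ∃ u : ℝ → ℂ, Continuous u ∧
      (∀ t : ℝ, Complex.cos (u t) = (Real.cos α : ℂ) * Complex.exp (Real.pi * t * Complex.I)) ∧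
      u 0 = α ∧ u 1 = Real.pi - α := by
  have hc0 : 0 < Real.cos α := Real.cos_pos_of_mem_Ioo ⟨by linarith, h1⟩
  have hs0 : 0 < Real.sin α := Real.sin_pos_of_pos_of_lt_pi h0 (by linarith)
  have hsc := Real.sin_sq_add_cos_sq α
  have hc1 : Real.cos α < 1 := by nlinarith
  let q : ℝ → ℂ := fun t => (Real.cos α : ℂ) * Complex.exp (Real.pi * t * Complex.I)
  have hqn : ∀ t, ‖q t‖ = Real.cos α := by
    intro t
    have h2 : (Real.pi : ℂ) * t * Complex.I = ((Real.pi * t : ℝ) : ℂ) * Complex.I := by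
      push_cast; ring
    simp only [q, norm_mul, h2, Complex.norm_exp_ofReal_mul_I, mul_one, Complex.norm_real,
      Real.norm_eq_abs, abs_of_pos hc0]
  have hqc : Continuous q := by
    simp only [q]
    fun_prop
  have hslit : ∀ t, 1 - q t ^ 2 ∈ Complex.slitPlane := by
    intro t
    left
    have h2 : (q t ^ 2).re ≤ ‖q t ^ 2‖ := Complex.re_le_norm _
    rw [norm_pow, hqn] at h2
    simp only [Complex.sub_re, Complex.one_re]
    nlinarith
  let S : ℝ → ℂ := fun t => Complex.exp (Complex.log (1 - q t ^ 2) / 2)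
  have hSc : Continuous S := by
    have h2 : Continuous fun t => Complex.log (1 - q t ^ 2) :=
      Continuous.clog (by fun_prop) hslit
    simp only [S]
    fun_prop
  have hS2 : ∀ t, S t ^ 2 = 1 - q t ^ 2 := by
    intro t
    simp only [S]
    rw [← Complex.exp_nat_mul]
    have h2 : ((2:ℕ):ℂ) * (Complex.log (1 - q t ^ 2) / 2) = Complex.log (1 - q t ^ 2) := by
      push_cast; ring
    rw [h2, Complex.exp_log]
    exact Complex.slitPlane_ne_zero (hslit t)
  let L : ℝ → ℂ := fun t => q t + Complex.I * S t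
  have hLm : ∀ t, L t * (q t - Complex.I * S t) = 1 := by
    intro t
    have h2 := hS2 t
    simp only [L]
    linear_combination h2 - (S t ^ 2) * Complex.I_sq
  have hL0 : ∀ t, L t ≠ 0 := fun t h2 => by
    have h3 := hLm t
    rw [h2, zero_mul] at h3
    exact zero_ne_one h3
  have hLinv : ∀ t, (L t)⁻¹ = q t - Complex.I * S t := fun t =>
    inv_eq_of_mul_eq_one_right (hLm t)
  have hLslit : ∀ t, L t ∈ Complex.slitPlane := by
    intro t
    rw [Complex.mem_slitPlane_iff]
    by_contra hcon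
    push Not at hcon
    obtain ⟨h2, h3⟩ := hcon
    have h4 : L t = ((L t).re : ℂ) := by
      apply Complex.ext
      · simp
      · simp [h3]
    set x := (L t).re with hx
    have hx0 : x ≠ 0 := by
      intro h5
      apply hL0 t
      rw [h4, h5]; simp
    have hxn : x < 0 := lt_of_le_of_ne h2 hx0
    have h6 : q t = (((x + x⁻¹) / 2 : ℝ) : ℂ) := by
      have h7 := hLinv t
      rw [h4] at h7
      have h8 : q t + Complex.I * S t = (x : ℂ) := h4
      push_cast
      rw [h7]
      linear_combination (1/2 : ℂ) * h8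
    have h9 := hqn t
    rw [h6, Complex.norm_real, Real.norm_eq_abs] at h9
    have h10 : x * x⁻¹ = 1 := mul_inv_cancel₀ hx0
    have h11 : x⁻¹ < 0 := inv_lt_zero.2 hxn
    have h12 : (x + x⁻¹) / 2 ≤ -1 := by
      by_contra hc
      push Not at hc
      have h14 : 0 < x + x⁻¹ + 2 := by linarith
      have h15 : x * (x + x⁻¹ + 2) < 0 := mul_neg_of_neg_of_pos hxn h14
      have h16 : x * (x + x⁻¹ + 2) = (x + 1) ^ 2 := by linear_combination h10
      have h17 : 0 ≤ (x + 1) ^ 2 := sq_nonneg _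
      linarith
    have h13 : |(x + x⁻¹) / 2| = -((x + x⁻¹) / 2) := abs_of_nonpos (by linarith)
    linarith
  refine ⟨fun t => -Complex.I * Complex.log (L t), ?_, ?_, ?_, ?_⟩
  · have h2 : Continuous fun t => Complex.log (L t) :=
      Continuous.clog (by simp only [L]; fun_prop) hLslit
    fun_prop
  · intro t
    have h2 : -Complex.I * Complex.log (L t) * Complex.I = Complex.log (L t) := by
      linear_combination (-Complex.log (L t)) * Complex.I_sq
    have h3 : -(-Complex.I * Complex.log (L t)) * Complex.I = -Complex.log (L t) := by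
      linear_combination (Complex.log (L t)) * Complex.I_sq
    rw [Complex.cos, h2, h3, Complex.exp_neg, Complex.exp_log (hL0 t), hLinv]
    simp only [L]
    ring
  · have hq0 : q 0 = (Real.cos α : ℂ) := by simp [q]
    have hS0 : S 0 = (Real.sin α : ℂ) := by
      simp only [S, hq0]
      have h2 : (1 - (Real.cos α : ℂ) ^ 2) = ((Real.sin α ^ 2 : ℝ) : ℂ) := by
        rw [← Complex.ofReal_pow, ← Complex.ofReal_one, ← Complex.ofReal_sub]
        congr 1
        linarith
      rw [h2, ← Complex.ofReal_log (by positivity)]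
      have h3 : ((Real.log (Real.sin α ^ 2) : ℝ) : ℂ) / 2 = ((Real.log (Real.sin α) : ℝ) : ℂ) := by
        rw [Real.log_pow]; push_cast; ring
      rw [h3, ← Complex.ofReal_exp, Real.exp_log hs0]
    have hL : L 0 = Complex.exp (α * Complex.I) := by
      simp only [L, hq0, hS0]
      rw [Complex.exp_mul_I, Complex.ofReal_cos, Complex.ofReal_sin]
      ring
    simp only [hL]
    rw [Complex.log_exp]
    · linear_combination (-(α:ℂ)) * Complex.I_sq
    · simp; linarith [Real.pi_pos]
    · simp; linarith [Real.pi_pos]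
  · have hq1 : q 1 = ((Real.cos (Real.pi - α) : ℝ) : ℂ) := by
      simp only [q]
      rw [Complex.ofReal_one, mul_one, Complex.exp_pi_mul_I, Real.cos_pi_sub]
      push_cast; ring
    have hS1 : S 1 = (Real.sin α : ℂ) := by
      simp only [S, hq1]
      have h2 : (1 - ((Real.cos (Real.pi - α) : ℝ) : ℂ) ^ 2) = ((Real.sin α ^ 2 : ℝ) : ℂ) := by
        rw [← Complex.ofReal_pow, ← Complex.ofReal_one, ← Complex.ofReal_sub, Real.cos_pi_sub]
        congr 1
        nlinarith
      rw [h2, ← Complex.ofReal_log (by positivity)]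
      have h3 : ((Real.log (Real.sin α ^ 2) : ℝ) : ℂ) / 2 = ((Real.log (Real.sin α) : ℝ) : ℂ) := by
        rw [Real.log_pow]; push_cast; ring
      rw [h3, ← Complex.ofReal_exp, Real.exp_log hs0]
    have hL : L 1 = Complex.exp (((Real.pi - α : ℝ) : ℂ) * Complex.I) := by
      simp only [L, hq1, hS1]
      rw [Complex.exp_mul_I, ← Complex.ofReal_cos, ← Complex.ofReal_sin, Real.sin_pi_sub]
      ring
    simp only [hL]
    rw [Complex.log_exp]
    · push_cast
      linear_combination (-((Real.pi:ℂ) - (α:ℂ))) * Complex.I_sq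
    · simp; linarith [Real.pi_pos]
    · simp; linarith [Real.pi_pos]

/-- the cubic polynomial -/
noncomputable def P (a b : ℝ) : Polynomial ℂ :=
  C (((a : ℂ) + b) / 2) + C (((b : ℂ) - a) / 2) *
    (C 4 * Polynomial.X ^ 3 - C 3 * Polynomial.X)

theorem P_eval (a b : ℝ) (z : ℂ) :
    (P a b).eval z = ((a : ℂ) + b) / 2 + ((b : ℂ) - a) / 2 * (4 * z ^ 3 - 3 * z) := by
  simp [P]

theorem P_cos (a b : ℝ) (w : ℂ) :
    (P a b).eval (Complex.cos (w / 3)) = ((a : ℂ) + b) / 2 + ((b : ℂ) - a) / 2 * Complex.cos w := by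
  rw [P_eval]
  have h := Complex.cos_three_mul (w / 3)
  have h2 : 3 * (w / 3) = w := by ring
  rw [h2] at h
  rw [h]

theorem P_deriv (a b : ℝ) (z : ℂ) :
    (P a b).derivative.eval z = ((b : ℂ) - a) / 2 * (12 * z ^ 2 - 3) := by
  simp only [P, Polynomial.derivative_add, Polynomial.derivative_C, Polynomial.derivative_mul,
    Polynomial.derivative_sub, Polynomial.derivative_X_pow, Polynomial.derivative_X,
    Polynomial.eval_add, Polynomial.eval_mul, Polynomial.eval_sub, Polynomial.eval_C,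
    Polynomial.eval_pow, Polynomial.eval_X, Polynomial.eval_zero, Polynomial.eval_one]
  push_cast
  ring

/-- the total space -/
abbrev E (a b : ℝ) : Type := {z : ℂ // (P a b).eval z ≠ a ∧ (P a b).eval z ≠ b}

/-- the covering map -/
noncomputable def p (a b : ℝ) : E a b → X a b := fun z => ⟨(P a b).eval z, z.2⟩

theorem cov {a b : ℝ} (hab : a < b) : IsCoveringMap (p a b) := by
  have h1 : IsCoveringMapOn (P a b).eval {z : ℂ | z ≠ a ∧ z ≠ b} := by
    refine (P a b).isCoveringMapOn_eval.mono ?_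
    rintro x ⟨hxa, hxb⟩ ⟨z, hz, hzx⟩
    have hz' : (P a b).derivative.eval z = 0 := hz
    rw [P_deriv] at hz'
    have hba : ((b : ℂ) - a) / 2 ≠ 0 := by
      have : ((b : ℂ) - a) ≠ 0 := by
        rw [← Complex.ofReal_sub]
        exact_mod_cast (sub_pos.2 hab).ne'
      exact div_ne_zero this two_ne_zero
    have h2 : 12 * z ^ 2 - 3 = 0 := (mul_eq_zero.1 hz').resolve_left hba
    have h3 : (2 * z - 1) * (2 * z + 1) = 0 := by linear_combination (1/3 : ℂ) * h2
    rcases mul_eq_zero.1 h3 with h4 | h4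
    · apply hxa
      have hz1 : z = 1 / 2 := by linear_combination (1/2 : ℂ) * h4
      rw [← hzx]
      show (P a b).eval z = _
      rw [P_eval, hz1]
      ring
    · apply hxb
      have hz1 : z = -1 / 2 := by linear_combination (1/2 : ℂ) * h4
      rw [← hzx]
      show (P a b).eval z = _
      rw [P_eval, hz1]
      ring
  exact h1.isCoveringMap_restrictPreimage

/-- the endpoint of the lifted path -/
theorem mono_eq {a b c : ℝ} (h : a < c ∧ c < b) (γ : Path (bp h) (bp h))
    (ex ey : p a b ⁻¹' {bp h}) (f : ℝ → ℂ) (hf : Continuous f) (hf0 : f 0 = ex.1.1)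
    (hf1 : f 1 = ey.1.1)
    (hP : ∀ t : unitInterval, (P a b).eval (f t) = (γ t : ℂ)) :
    (cov (h.1.trans h.2)).monodromy (Path.Homotopic.Quotient.mk γ) ex = ey := by
  let Γ : C(unitInterval, E a b) :=
    ⟨fun t => ⟨f t, by rw [hP t]; exact (γ t).2⟩, by
      refine Continuous.subtype_mk ?_ _
      exact hf.comp continuous_subtype_val⟩
  have hΓ : (p a b) ∘ Γ = γ := by
    funext t
    apply Subtype.ext
    exact hP t
  have hΓ0 : Γ 0 = ex.1 := by
    apply Subtype.ext
    show f ((0 : unitInterval) : ℝ) = _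
    simpa using hf0
  have key := ((cov (h.1.trans h.2)).eq_liftPath_iff' (γ := (γ : C(unitInterval, X a b)))
    (γ.source.trans ex.2.symm)).mpr ⟨hΓ, hΓ0⟩
  apply Subtype.ext
  show (cov (h.1.trans h.2)).liftPath (γ : C(unitInterval, X a b)) ex _ 1 = ey.1
  rw [← key]
  apply Subtype.ext
  show f ((1 : unitInterval) : ℝ) = _
  simpa using hf1

/-- the angle `α` -/
theorem exists_angle {a b c : ℝ} (h : a < c ∧ c < b) : ∃ α : ℝ, 0 < α ∧ α < Real.pi / 2 ∧
    (b - a) * Real.cos α ^ 2 = c - a ∧ (b - a) * Real.sin α ^ 2 = b - c := by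
  obtain ⟨h1, h2⟩ := h
  have hba : 0 < b - a := by linarith
  have hr0 : 0 < (c - a) / (b - a) := div_pos (by linarith) hba
  have hr1 : (c - a) / (b - a) < 1 := by rw [div_lt_one hba]; linarith
  set r := Real.sqrt ((c - a) / (b - a)) with hr
  have hrp : 0 < r := Real.sqrt_pos.2 hr0
  have hr2 : r ^ 2 = (c - a) / (b - a) := Real.sq_sqrt hr0.le
  have hrl : r < 1 := by nlinarith
  refine ⟨Real.arccos r, Real.arccos_pos.2 hrl, Real.arccos_lt_pi_div_two.2 hrp, ?_, ?_⟩
  · rw [Real.cos_arccos (by linarith) hrl.le, hr2]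
    field_simp
  · rw [Real.sin_arccos, Real.sq_sqrt (by nlinarith), hr2]
    field_simp
    ring

section
variable {a b c : ℝ} (h : a < c ∧ c < b) (α : ℝ)

/-- the points of the fibre -/
noncomputable def z (α : ℝ) (k : ℤ) : ℂ := Complex.cos ((2 * α + 2 * Real.pi * k) / 3)

theorem z_mem (hα : (b - a) * Real.cos α ^ 2 = c - a) (k : ℤ) :
    (P a b).eval (z α k) = c := by
  rw [z, P_cos]
  have h1 : Complex.cos (2 * α + 2 * Real.pi * k) = Complex.cos (2 * α) := by
    have := Complex.cos_add_int_mul_two_pi (2 * α) k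
    rw [← this]
    congr 1
    ring
  rw [h1, Complex.cos_two_mul]
  have h2 : ((b : ℂ) - a) * Complex.cos α ^ 2 = (c : ℂ) - a := by
    rw [← Complex.ofReal_cos]
    exact_mod_cast hα
  linear_combination h2

/-- the points of the fibre, as elements of the fibre -/
noncomputable def pt (hα : (b - a) * Real.cos α ^ 2 = c - a) (k : ℤ) : p a b ⁻¹' {bp h} :=
  ⟨⟨z α k, by rw [z_mem α hα]; exact (bp h).2⟩, by
    apply Subtype.ext
    exact z_mem α hα k⟩

theorem z_period (k : ℤ) : z α (k + 3) = z α k := by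
  rw [z, z]
  have := Complex.cos_add_two_pi ((2 * α + 2 * Real.pi * k) / 3)
  rw [← this]
  congr 1
  push_cast
  ring

theorem dA_pt (h0 : 0 < α) (h1 : α < Real.pi / 2)
    (hα : (b - a) * Real.cos α ^ 2 = c - a) (k : ℤ) :
    (cov (h.1.trans h.2)).monodromy (dA h) (pt h α hα k) = pt h α hα (-k - 1) := by
  obtain ⟨u, hu, hcos, hu0, hu1⟩ := arccos_path α h0 h1
  refine mono_eq h (pathA h) _ _ (fun t => Complex.cos ((2 * u t + 2 * Real.pi * k) / 3))
    (by fun_prop) ?_ ?_ ?_
  · show Complex.cos ((2 * u 0 + 2 * Real.pi * k) / 3) = z α k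
    rw [hu0, z]
  · show Complex.cos ((2 * u 1 + 2 * Real.pi * k) / 3) = z α (-k - 1)
    rw [hu1, z, ← Complex.cos_neg]
    congr 1
    push_cast
    ring
  · intro t
    rw [P_cos]
    have h2 : Complex.cos (2 * u t + 2 * Real.pi * k) = Complex.cos (2 * u t) := by
      have := Complex.cos_add_int_mul_two_pi (2 * u t) k
      rw [← this]
      congr 1
      ring
    rw [h2, Complex.cos_two_mul, hcos]
    show _ = (a : ℂ) + (c - a : ℝ) * Complex.exp (2 * Real.pi * Complex.I * (t : ℝ))
    have h3 : Complex.exp (2 * Real.pi * Complex.I * (t : ℝ)) =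
        Complex.exp (Real.pi * (t : ℝ) * Complex.I) ^ 2 := by
      rw [← Complex.exp_nat_mul]
      congr 1
      push_cast
      ring
    rw [h3]
    have h4 : ((b : ℂ) - a) * (Real.cos α : ℂ) ^ 2 = ((c - a : ℝ) : ℂ) := by
      exact_mod_cast hα
    linear_combination (Complex.exp (Real.pi * (t : ℝ) * Complex.I) ^ 2) * h4

theorem dB_pt (h0 : 0 < α) (h1 : α < Real.pi / 2)
    (hα : (b - a) * Real.cos α ^ 2 = c - a) (hβ : (b - a) * Real.sin α ^ 2 = b - c) (k : ℤ) :
    (cov (h.1.trans h.2)).monodromy (dB h) (pt h α hα k) = pt h α hα (-k) := by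
  obtain ⟨u, hu, hcos, hu0, hu1⟩ := arccos_path (Real.pi / 2 - α) (by linarith) (by linarith)
  rw [Real.cos_pi_div_two_sub] at hcos
  refine mono_eq h (pathB h) _ _
    (fun t => Complex.cos ((2 * (Real.pi / 2 - u t) + 2 * Real.pi * k) / 3))
    (by fun_prop) ?_ ?_ ?_
  · show Complex.cos ((2 * (Real.pi / 2 - u 0) + 2 * Real.pi * k) / 3) = z α k
    rw [hu0, z]
    congr 1
    push_cast
    ring
  · show Complex.cos ((2 * (Real.pi / 2 - u 1) + 2 * Real.pi * k) / 3) = z α (-k)
    rw [hu1, z, ← Complex.cos_neg]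
    congr 1
    push_cast
    ring
  · intro t
    rw [P_cos]
    have h2 : Complex.cos (2 * (Real.pi / 2 - u t) + 2 * Real.pi * k) =
        - Complex.cos (2 * u t) := by
      have h5 := Complex.cos_add_int_mul_two_pi (2 * (Real.pi / 2 - u t)) k
      have h6 := Complex.cos_pi_sub (2 * u t)
      rw [← h6]
      have h7 : 2 * ((Real.pi : ℂ) / 2 - u t) = Real.pi - 2 * u t := by ring
      rw [h7] at h5 ⊢
      rw [← h5]
      congr 1
      ring
    rw [h2, Complex.cos_two_mul, hcos]
    show _ = (b : ℂ) + (c - b : ℝ) * Complex.exp (2 * Real.pi * Complex.I * (t : ℝ))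
    have h3 : Complex.exp (2 * Real.pi * Complex.I * (t : ℝ)) =
        Complex.exp (Real.pi * (t : ℝ) * Complex.I) ^ 2 := by
      rw [← Complex.exp_nat_mul]
      congr 1
      push_cast
      ring
    rw [h3]
    have h4 : ((b : ℂ) - a) * (Real.sin α : ℂ) ^ 2 = ((b - c : ℝ) : ℂ) := by
      exact_mod_cast hβ
    push_cast at h4 ⊢
    linear_combination (-Complex.exp (Real.pi * (t : ℝ) * Complex.I) ^ 2) * h4

theorem pt_ne (h0 : 0 < α) (h1 : α < Real.pi / 2)
    (hα : (b - a) * Real.cos α ^ 2 = c - a) : pt h α hα 0 ≠ pt h α hα 1 := by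
  intro heq
  have h2 : z α 0 = z α 1 := congrArg (fun q => (q.1.1 : ℂ)) heq
  rw [z, z] at h2
  have h3 : (2 * (α : ℂ) + 2 * Real.pi * ((0 : ℤ) : ℂ)) / 3 = ((2 * α / 3 : ℝ) : ℂ) := by
    push_cast; ring
  have h4 : (2 * (α : ℂ) + 2 * Real.pi * ((1 : ℤ) : ℂ)) / 3 =
      ((2 * α / 3 + 2 * Real.pi / 3 : ℝ) : ℂ) := by
    push_cast; ring
  rw [h3, h4, ← Complex.ofReal_cos, ← Complex.ofReal_cos] at h2
  have h5 : Real.cos (2 * α / 3) = Real.cos (2 * α / 3 + 2 * Real.pi / 3) := by
    exact_mod_cast h2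
  have h6 : 0 < Real.cos (2 * α / 3) :=
    Real.cos_pos_of_mem_Ioo ⟨by linarith [Real.pi_pos], by linarith [Real.pi_pos]⟩
  have h7 : Real.cos (2 * α / 3 + 2 * Real.pi / 3) < 0 := by
    apply Real.cos_neg_of_pi_div_two_lt_of_lt
    · linarith [Real.pi_pos]
    · linarith [Real.pi_pos]
  linarith

end

/-- The fibre has at most three elements. -/
theorem fibre_embed {a b c : ℝ} (h : a < c ∧ c < b) :
    Nonempty ((p a b ⁻¹' {bp h}) ↪ Fin 3) := by
  classical
  let Q : Polynomial ℂ := P a b - C (c : ℂ)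
  have hdeg : Q.natDegree ≤ 3 := by
    simp only [Q, P]
    compute_degree
  have hba : ((b : ℂ) - a) / 2 ≠ 0 := by
    have : ((b : ℂ) - a) ≠ 0 := by
      rw [← Complex.ofReal_sub]
      exact_mod_cast (sub_pos.2 (h.1.trans h.2)).ne'
    exact div_ne_zero this two_ne_zero
  have hQ0 : Q ≠ 0 := by
    intro h0
    have h1 : Q.eval 0 - Q.eval 1 = 0 := by rw [h0]; simp
    simp only [Q, Polynomial.eval_sub, P_eval, Polynomial.eval_C] at h1
    have h2 : ((b : ℂ) - a) / 2 = 0 := by linear_combination -h1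
    exact hba h2
  let S : Finset ℂ := Q.roots.toFinset
  have hS : S.card ≤ 3 :=
    (Multiset.toFinset_card_le _).trans ((Polynomial.card_roots' Q).trans hdeg)
  have hmem : ∀ e : p a b ⁻¹' {bp h}, (e.1.1 : ℂ) ∈ S := by
    intro e
    simp only [S, Multiset.mem_toFinset]
    rw [Polynomial.mem_roots hQ0]
    have h1 : (P a b).eval e.1.1 = c := congrArg Subtype.val e.2
    simp only [Q, Polynomial.IsRoot, Polynomial.eval_sub, h1, Polynomial.eval_C, sub_self]
  let f : (p a b ⁻¹' {bp h}) → S := fun e => ⟨e.1.1, hmem e⟩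
  have hf : Function.Injective f := by
    intro e e' he
    apply Subtype.ext
    apply Subtype.ext
    exact congrArg (fun w : S => (w : ℂ)) he
  have hS' : Nonempty (S ↪ Fin 3) := by
    apply Function.Embedding.nonempty_of_card_le
    simpa using hS
  obtain ⟨g⟩ := hS'
  exact ⟨(⟨f, hf⟩ : (p a b ⁻¹' {bp h}) ↪ S).trans g⟩

theorem goalD7 : GoalD7 := by
  refine ⟨Equiv.Perm (Fin 3), inferInstance, inferInstance, ?_⟩
  intro a b c h
  obtain ⟨α, h0, h1, hα, hβ⟩ := exists_angle h
  obtain ⟨ι⟩ := fibre_embed h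
  let μ := (cov (h.1.trans h.2)).monodromyPerm (bp h)
  refine ⟨(Equiv.Perm.viaEmbeddingHom ι).comp μ, ?_⟩
  -- the action of the generators
  have hper : ∀ k, pt h α hα (k + 3) = pt h α hα k := by
    intro k
    apply Subtype.ext
    apply Subtype.ext
    exact z_period α k
  have hA : ∀ k, μ (dA h) (pt h α hα k) = pt h α hα (-k - 1) := dA_pt h α h0 h1 hα
  have hB : ∀ k, μ (dB h) (pt h α hα k) = pt h α hα (-k) := dB_pt h α h0 h1 hα hβ
  have hA' : ∀ k, μ (dA h)⁻¹ (pt h α hα k) = pt h α hα (-k - 1) := by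
    intro k
    rw [map_inv, Equiv.Perm.inv_eq_iff_eq, hA]
    congr 1
    ring
  have hB' : ∀ k, μ (dB h)⁻¹ (pt h α hα k) = pt h α hα (-k) := by
    intro k
    rw [map_inv, Equiv.Perm.inv_eq_iff_eq, hB]
    congr 1
    ring
  intro d d' hd hd'
  have hdp : ∀ k, μ d (pt h α hα k) = pt h α hα (-k - 1) := by
    rcases hd with rfl | rfl
    · exact hA
    · exact hA'
  have hdp' : ∀ k, μ d' (pt h α hα k) = pt h α hα (-k) := by
    rcases hd' with rfl | rfl
    · exact hB
    · exact hB'
  have hdi : ∀ k, μ d⁻¹ (pt h α hα k) = pt h α hα (-k - 1) := by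
    intro k
    rw [map_inv, Equiv.Perm.inv_eq_iff_eq, hdp]
    congr 1
    ring
  have hdi' : ∀ k, μ d'⁻¹ (pt h α hα k) = pt h α hα (-k) := by
    intro k
    rw [map_inv, Equiv.Perm.inv_eq_iff_eq, hdp']
    congr 1
    ring
  refine ⟨d, fun hcon => ?_⟩
  rw [MonoidHom.comp_apply, MonoidHom.comp_apply] at hcon
  have hcon' := Equiv.Perm.viaEmbeddingHom_injective ι hcon
  have hev := congrArg (fun e : Equiv.Perm (p a b ⁻¹' {bp h}) => e (pt h α hα 0)) hcon'
  simp only [map_mul, Equiv.Perm.mul_apply, hdp, hdp', hdi, hdi'] at hev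
  norm_num at hev
  have h3 : pt h α hα 0 = pt h α hα (-3) := by
    have := hper (-3)
    norm_num at this
    exact this
  exact pt_ne h α h0 h1 hα (h3.trans hev)

end Pool.Agent.Helper3.BigD7
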