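import Mathlib

set_option autoImplicit false

/-! The group `G = (E × E) ⋊ M₁₆` of order `3^6 * 16`. -/

namespace Pool.Agent.Helper3.GrpG

/-- `M₁₆ = ⟨x, y | x⁸ = y² = 1, y x y = x⁵⟩`; `(i, j)` stands for `x^i y^j`. -/
@[ext] structure M16 where
  i : ZMod 8
  j : ZMod 2
deriving DecidableEq, Fintype

namespace M16

instance : Mul M16 := ⟨fun a b => ⟨a.i + (if a.j = 0 then b.i else 5 * b.i), a.j + b.j⟩⟩
instance : One M16 := ⟨⟨0, 0⟩⟩
instance : Inv M16 := ⟨fun a => ⟨if a.j = 0 then -a.i else 3 * a.i, a.j⟩⟩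

theorem mul_def (a b : M16) :
    a * b = ⟨a.i + (if a.j = 0 then b.i else 5 * b.i), a.j + b.j⟩ := rfl
theorem one_def : (1 : M16) = ⟨0, 0⟩ := rfl
theorem inv_def (a : M16) : a⁻¹ = ⟨if a.j = 0 then -a.i else 3 * a.i, a.j⟩ := rfl

theorem j_cases : ∀ j : ZMod 2, j = 0 ∨ j = 1 := by decide

theorem assoc' (a b c : M16) : a * b * c = a * (b * c) := by
  rcases a with ⟨i, j⟩
  rcases b with ⟨i', j'⟩
  rcases c with ⟨i'', j''⟩
  have h25 : ∀ a b c : ZMod 8, a + 5 * b + c = a + 5 * (b + 5 * c) := by decide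
  have h2 : (1 + 1 : ZMod 2) = 0 := by decide
  have h3 : ∀ j : ZMod 2, 1 + (1 + j) = j := by decide
  rcases j_cases j with rfl | rfl <;> rcases j_cases j' with rfl | rfl <;>
    simp only [mul_def, M16.mk.injEq, if_true, zero_add, add_zero, one_ne_zero, if_false, h2, h3,
      and_true, add_assoc, mul_add]
  simpa only [add_assoc, mul_add] using h25 i i' i''

instance : Group M16 :=
  Group.ofLeftAxioms assoc'
    (fun a => by
      rcases a with ⟨i, j⟩
      simp [mul_def, one_def])
    (fun a => by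
      rcases a with ⟨i, j⟩
      have h8 : ∀ i : ZMod 8, 3 * i + 5 * i = 0 := by decide
      have h2 : ∀ j : ZMod 2, j + j = 0 := by decide
      rcases j_cases j with rfl | rfl
      · simp [mul_def, one_def, inv_def]
      · simp [mul_def, one_def, inv_def, h2, h8])

/-- the central involution of the derived subgroup -/
def z : M16 := ⟨4, 0⟩
def x : M16 := ⟨1, 0⟩
def y : M16 := ⟨0, 1⟩

theorem comm_or (a b : M16) : a * b = b * a ∨ a * b = z * (b * a) := by
  revert a b; decide

theorem z_central (a : M16) : z * a = a * z := by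
  revert a; decide

theorem zz : z * z = 1 := by decide

theorem xy : x * y = z * (y * x) := by decide

theorem card : Nat.card M16 = 16 := by
  rw [Nat.card_eq_fintype_card]; decide

set_option maxRecDepth 100000 in
theorem gen_aux : ∀ a b : M16, a * b ≠ b * a →
    (∃ m : Fin 8, ∃ n : Fin 2, a ^ m.val * b ^ n.val = x ∨ a ^ n.val * b ^ m.val = x) ∧
    (∃ m : Fin 8, ∃ n : Fin 2, a ^ m.val * b ^ n.val = y ∨ a ^ n.val * b ^ m.val = y) := by
  decide

theorem eq_pow (c : M16) : c = x ^ c.i.val * y ^ c.j.val := by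
  revert c; decide

/-- two noncommuting elements generate -/
theorem eq_top_of_noncomm (K : Subgroup M16) (a b : M16) (ha : a ∈ K) (hb : b ∈ K)
    (hab : a * b ≠ b * a) : K = ⊤ := by
  obtain ⟨⟨m, n, h1⟩, ⟨m', n', h2⟩⟩ := gen_aux a b hab
  have hx : x ∈ K := by
    rcases h1 with h | h
    · rw [← h]; exact K.mul_mem (K.pow_mem ha _) (K.pow_mem hb _)
    · rw [← h]; exact K.mul_mem (K.pow_mem ha _) (K.pow_mem hb _)
  have hy : y ∈ K := by
    rcases h2 with h | h
    · rw [← h]; exact K.mul_mem (K.pow_mem ha _) (K.pow_mem hb _)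
    · rw [← h]; exact K.mul_mem (K.pow_mem ha _) (K.pow_mem hb _)
  rw [eq_top_iff]
  intro c _
  rw [eq_pow c]
  exact K.mul_mem (K.pow_mem hx _) (K.pow_mem hy _)

end M16

/-! ### The modules `V = F_3^4` and `W = F_3^2` -/

abbrev V := (ZMod 3 × ZMod 3) × (ZMod 3 × ZMod 3)
abbrev W := ZMod 3 × ZMod 3

/-- the element `x` of order 8 acts on `V` by `(M, -M)` -/
def X (v : V) : V := ((v.1.2, v.1.1 + v.1.2), (-v.2.2, -v.2.1 - v.2.2))
/-- the involution `y` swaps -/
def Y (v : V) : V := (v.2, v.1)
/-- `x` acts on `W` by `-1` -/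
def XW (w : W) : W := -w
def YW (w : W) : W := (w.2, w.1)
/-- the commutator form -/
def β (u v : V) : W := (u.1.1 * v.1.2 - u.1.2 * v.1.1, u.2.1 * v.2.2 - u.2.2 * v.2.1)

theorem X_add (u v : V) : X (u + v) = X u + X v := by
  simp only [X, Prod.fst_add, Prod.snd_add, Prod.mk_add_mk, Prod.mk.injEq]
  refine ⟨⟨?_, ?_⟩, ?_, ?_⟩ <;> first | trivial | ring
theorem Y_add (u v : V) : Y (u + v) = Y u + Y v := by
  simp only [Y, Prod.fst_add, Prod.snd_add, Prod.mk_add_mk]
theorem XW_add (u v : W) : XW (u + v) = XW u + XW v := by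
  simp only [XW, neg_add]
theorem YW_add (u v : W) : YW (u + v) = YW u + YW v := by
  simp only [YW, Prod.fst_add, Prod.snd_add, Prod.mk_add_mk]

theorem X4 (v : V) : X (X (X (X v))) = -v := by
  have h3 : (3 : ZMod 3) = 0 := by decide
  rcases v with ⟨⟨a, b⟩, ⟨c, d⟩⟩
  simp only [X, Prod.neg_mk, Prod.mk.injEq]
  refine ⟨⟨?_, ?_⟩, ?_, ?_⟩
  · linear_combination (a + b) * h3
  · linear_combination (a + 2 * b) * h3
  · linear_combination (c + d) * h3
  · linear_combination (c + 2 * d) * h3

theorem X_neg (v : V) : X (-v) = -X v := by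
  simp only [X, Prod.fst_neg, Prod.snd_neg, Prod.neg_mk, Prod.mk.injEq]
  refine ⟨⟨?_, ?_⟩, ?_, ?_⟩ <;> first | trivial | ring

theorem Xi4 (v : V) : X^[4] v = -v := X4 v

theorem Xi8 (v : V) : X^[8] v = v := by
  rw [show 8 = 4 + 4 from rfl, Function.iterate_add_apply, Xi4, Xi4, neg_neg]

theorem YY (v : V) : Y (Y v) = v := rfl

theorem YX (v : V) : Y (X v) = X^[5] (Y v) := by
  rw [show 5 = 1 + 4 from rfl, Function.iterate_add_apply, Xi4, Function.iterate_one, X_neg]
  rcases v with ⟨⟨a, b⟩, ⟨c, d⟩⟩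
  simp only [X, Y, Prod.neg_mk, Prod.mk.injEq]
  refine ⟨⟨?_, ?_⟩, ?_, ?_⟩ <;> first | trivial | ring

theorem Xmod (n : ℕ) (v : V) : X^[n % 8] v = X^[n] v := by
  conv_rhs => rw [← Nat.mod_add_div n 8, Function.iterate_add_apply, Function.iterate_mul]
  have : ∀ k : ℕ, (X^[8])^[k] v = v := by
    intro k
    induction k with
    | zero => rfl
    | succ k ih => rw [Function.iterate_succ_apply, Xi8, ih]
  rw [this]

theorem YXn (n : ℕ) (v : V) : Y (X^[n] v) = X^[5 * n] (Y v) := by
  induction n with
  | zero => rfl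
  | succ n ih =>
    rw [Function.iterate_succ_apply', YX, ih, ← Function.iterate_add_apply]
    congr 1
    rw [mul_add, add_comm]

theorem XWmod (n : ℕ) (v : W) : XW^[n % 8] v = XW^[n] v := by
  conv_rhs => rw [← Nat.mod_add_div n 8, Function.iterate_add_apply, Function.iterate_mul]
  have : ∀ k : ℕ, (XW^[8])^[k] v = v := by
    intro k
    induction k with
    | zero => rfl
    | succ k ih =>
      rw [Function.iterate_succ_apply]
      have : XW^[8] v = v := by simp [XW]
      rw [this, ih]
  rw [this]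

theorem XW2 (v : W) : XW (XW v) = v := by simp [XW]

theorem XW4n (n : ℕ) (v : W) : XW^[4 * n] v = v := by
  rw [Function.iterate_mul]
  induction n with
  | zero => rfl
  | succ k ih =>
    rw [Function.iterate_succ_apply]
    have : XW^[4] v = v := by simp [XW]
    rw [this, ih]

theorem YWXWn (n : ℕ) (v : W) : YW (XW^[n] v) = XW^[5 * n] (YW v) := by
  rw [show 5 * n = n + 4 * n by ring, Function.iterate_add_apply, XW4n]
  induction n with
  | zero => rfl
  | succ n ih =>
    rw [Function.iterate_succ_apply', Function.iterate_succ_apply', ← ih]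
    simp [XW, YW]

/-- the action on `V` -/
def act (h : M16) (v : V) : V := X^[h.i.val] (if h.j = 0 then v else Y v)
/-- the action on `W` -/
def actW (h : M16) (v : W) : W := XW^[h.i.val] (if h.j = 0 then v else YW v)

theorem val_add' (i i' : ZMod 8) : (i + i').val = (i.val + i'.val) % 8 := ZMod.val_add i i'
theorem val_mul' (i : ZMod 8) : (5 * i).val = (5 * i.val) % 8 := by
  rw [ZMod.val_mul]
  rfl

theorem act_mul (a b : M16) (v : V) : act (a * b) v = act a (act b v) := by
  rcases a with ⟨i, j⟩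
  rcases b with ⟨i', j'⟩
  have h2 : (1 + 1 : ZMod 2) = 0 := by decide
  rcases M16.j_cases j with rfl | rfl <;> rcases M16.j_cases j' with rfl | rfl <;>
    simp only [act, M16.mul_def, if_true, one_ne_zero, if_false, zero_add, add_zero, h2]
  · rw [val_add', Xmod, Function.iterate_add_apply]
  · rw [val_add', Xmod, Function.iterate_add_apply]
  · rw [val_add', Xmod, Function.iterate_add_apply, val_mul', Xmod, YXn]
  · rw [val_add', Xmod, Function.iterate_add_apply, val_mul', Xmod, YXn, YY]

theorem actW_mul (a b : M16) (v : W) : actW (a * b) v = actW a (actW b v) := by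
  rcases a with ⟨i, j⟩
  rcases b with ⟨i', j'⟩
  have h2 : (1 + 1 : ZMod 2) = 0 := by decide
  rcases M16.j_cases j with rfl | rfl <;> rcases M16.j_cases j' with rfl | rfl <;>
    simp only [actW, M16.mul_def, if_true, one_ne_zero, if_false, zero_add, add_zero, h2]
  · rw [val_add', XWmod, Function.iterate_add_apply]
  · rw [val_add', XWmod, Function.iterate_add_apply]
  · rw [val_add', XWmod, Function.iterate_add_apply, val_mul', XWmod, YWXWn]
  · rw [val_add', XWmod, Function.iterate_add_apply, val_mul', XWmod, YWXWn]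
    rfl

theorem act_one (v : V) : act 1 v = v := rfl
theorem actW_one (v : W) : actW 1 v = v := rfl

theorem Xn_add (n : ℕ) (u v : V) : X^[n] (u + v) = X^[n] u + X^[n] v := by
  induction n with
  | zero => rfl
  | succ n ih => rw [Function.iterate_succ_apply', Function.iterate_succ_apply',
      Function.iterate_succ_apply', ih, X_add]

theorem XWn_add (n : ℕ) (u v : W) : XW^[n] (u + v) = XW^[n] u + XW^[n] v := by
  induction n with
  | zero => rfl
  | succ n ih => rw [Function.iterate_succ_apply', Function.iterate_succ_apply',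
      Function.iterate_succ_apply', ih, XW_add]

theorem act_add (a : M16) (u v : V) : act a (u + v) = act a u + act a v := by
  unfold act
  split_ifs
  · exact Xn_add _ _ _
  · rw [Y_add, Xn_add]

theorem actW_add (a : M16) (u v : W) : actW a (u + v) = actW a u + actW a v := by
  unfold actW
  split_ifs
  · exact XWn_add _ _ _
  · rw [YW_add, XWn_add]

theorem β_X (u v : V) : β (X u) (X v) = XW (β u v) := by
  simp only [β, X, XW, Prod.neg_mk, Prod.mk.injEq]
  refine ⟨?_, ?_⟩ <;> ring

theorem β_Y (u v : V) : β (Y u) (Y v) = YW (β u v) := rfl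

theorem β_Xn (n : ℕ) (u v : V) : β (X^[n] u) (X^[n] v) = XW^[n] (β u v) := by
  induction n with
  | zero => rfl
  | succ n ih => rw [Function.iterate_succ_apply', Function.iterate_succ_apply',
      Function.iterate_succ_apply', ← ih, β_X]

theorem β_act (a : M16) (u v : V) : β (act a u) (act a v) = actW a (β u v) := by
  unfold act actW
  split_ifs
  · exact β_Xn _ _ _
  · rw [β_Xn, β_Y]

theorem β_add_left (u u' v : V) : β (u + u') v = β u v + β u' v := by
  simp only [β, Prod.fst_add, Prod.snd_add, Prod.mk_add_mk, Prod.mk.injEq]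
  refine ⟨?_, ?_⟩ <;> ring

theorem β_add_right (u v v' : V) : β u (v + v') = β u v + β u v' := by
  simp only [β, Prod.fst_add, Prod.snd_add, Prod.mk_add_mk, Prod.mk.injEq]
  refine ⟨?_, ?_⟩ <;> ring

theorem β_self (u : V) : β u u = 0 := by
  simp only [β, Prod.mk_eq_zero]
  refine ⟨?_, ?_⟩ <;> ring

theorem β_neg_left (u v : V) : β (-u) v = -β u v := by
  simp only [β, Prod.fst_neg, Prod.snd_neg, Prod.neg_mk, Prod.mk.injEq]
  refine ⟨?_, ?_⟩ <;> ring

theorem β_swap (u v : V) : β v u = -β u v := by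
  simp only [β, Prod.neg_mk, Prod.mk.injEq]
  refine ⟨?_, ?_⟩ <;> ring

theorem β_zero_left (v : V) : β 0 v = 0 := by
  simp [β]

theorem β_zero_right (v : V) : β v 0 = 0 := by
  simp [β]

theorem act_z (v : V) : act M16.z v = -v := Xi4 v
theorem actW_z (w : W) : actW M16.z w = w := by
  change XW (XW (XW (XW w))) = w
  rw [XW2, XW2]

theorem three_V (v : V) : v + v + v = 0 := by
  revert v; decide
theorem three_W (w : W) : w + w + w = 0 := by
  revert w; decide

/-! ### The group `G` -/

/-- the group `G = P ⋊ M₁₆`, where `P = V × W` is the class two group defined by the form `β` -/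
@[ext] structure G where
  v : V
  w : W
  h : M16

namespace G

instance : Mul G := ⟨fun a b =>
  ⟨a.v + act a.h b.v, a.w + actW a.h b.w + β a.v (act a.h b.v), a.h * b.h⟩⟩
instance : One G := ⟨⟨0, 0, 1⟩⟩
instance : Inv G := ⟨fun a => ⟨-act a.h⁻¹ a.v, -actW a.h⁻¹ a.w, a.h⁻¹⟩⟩

theorem mul_def (a b : G) : a * b =
  ⟨a.v + act a.h b.v, a.w + actW a.h b.w + β a.v (act a.h b.v), a.h * b.h⟩ := rfl
theorem one_def : (1 : G) = ⟨0, 0, 1⟩ := rfl
theorem inv_def (a : G) : a⁻¹ = ⟨-act a.h⁻¹ a.v, -actW a.h⁻¹ a.w, a.h⁻¹⟩ := rfl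

theorem act_zero (h : M16) : act h 0 = 0 := by
  have := act_add h 0 0
  simpa using this

theorem actW_zero (h : M16) : actW h 0 = 0 := by
  have := actW_add h 0 0
  simpa using this

instance : Group G :=
  Group.ofLeftAxioms
    (fun a b c => by
      simp only [mul_def, G.mk.injEq]
      refine ⟨?_, ?_, mul_assoc _ _ _⟩
      · rw [act_mul, act_add, add_assoc]
      · rw [actW_mul, act_mul, actW_add, actW_add, act_add, β_add_left, β_add_right, β_act]
        abel)
    (fun a => by
      simp only [mul_def, one_def]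
      ext1
      · simp [act_one]
      · simp [actW_one, act_one, β_zero_left]
      · simp)
    (fun a => by
      simp only [mul_def, one_def, inv_def]
      ext1
      · simp
      · simp only []
        rw [β_neg_left, β_self]
        simp
      · simp)

instance : Finite G :=
  Finite.of_injective (fun g : G => (g.v, g.w, g.h)) (by
    intro a b hab
    simp only [Prod.mk.injEq] at hab
    exact G.ext hab.1 hab.2.1 hab.2.2)

/-- the projection to `M₁₆` -/
def pr : G →* M16 where
  toFun g := g.h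
  map_one' := rfl
  map_mul' _ _ := rfl

theorem pr_surjective : Function.Surjective pr := fun h => ⟨⟨0, 0, h⟩, rfl⟩

end G

end Pool.Agent.Helper3.GrpG
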