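import Pool.Agent.Helper3.NilDer
import Pool.Agent.Helper3.GrpG

set_option autoImplicit false

/-! Structure of the group `G`. -/

namespace Pool.Agent.Helper3.GrpG

open Pool.Agent.Helper3.NilDer
open scoped commutatorElement

namespace G

/-- elements of `P` -/
def vw (v : V) (w : W) : G := ⟨v, w, 1⟩
/-- elements of the complement -/
def hh (h : M16) : G := ⟨0, 0, h⟩

theorem vw_mul (v v' : V) (w w' : W) :
    vw v w * vw v' w' = vw (v + v') (w + w' + β v v') := rfl

theorem vw_inv (v : V) (w : W) : (vw v w)⁻¹ = vw (-v) (-w) := by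
  simp only [vw, inv_def, inv_one, act_one, actW_one]

theorem hh_conj (h : M16) (v : V) (w : W) :
    hh h * vw v w * (hh h)⁻¹ = vw (act h v) (actW h w) := by
  rw [mul_inv_eq_iff_eq_mul]
  simp only [hh, vw, mul_def]
  ext1
  · simp only []
    rw [act_zero]; simp
  · simp only []
    rw [actW_zero, act_zero, β_zero_left, β_zero_right]; simp
  · simp

theorem hh_mul (h h' : M16) : hh h * hh h' = hh (h * h') := by
  simp only [hh, mul_def]
  rw [act_zero, actW_zero, β_zero_left]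
  simp

theorem hh_inv (h : M16) : (hh h)⁻¹ = hh h⁻¹ := by
  simp only [hh, inv_def]
  rw [act_zero, actW_zero]
  simp

theorem eq_vw_of_h {g : G} (hg : g.h = 1) : g = vw g.v g.w := by
  ext1 <;> simp [vw, hg]

theorem mem_ker_pr (g : G) : g ∈ pr.ker ↔ g.h = 1 := Iff.rfl

theorem vw_pow_three (v : V) (w : W) : (vw v w) ^ 3 = 1 := by
  rw [pow_succ, pow_two, vw_mul, vw_mul, one_def, vw]
  ext1
  · exact three_V v
  · simp only []
    rw [β_self, β_add_left, β_self]
    simpa using three_W w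
  · rfl

theorem isPGroup_ker : IsPGroup 3 pr.ker := by
  rintro ⟨g, hg⟩
  refine ⟨1, ?_⟩
  ext1
  change g ^ 3 = 1
  rw [eq_vw_of_h hg]
  exact vw_pow_three _ _

theorem neg_two_V (v : V) : -v + -v = v := by revert v; decide
theorem two_V (v : V) : v + v = -v := by revert v; decide

theorem comm_z_v (v : V) : ⁅hh M16.z, vw v 0⁆ = vw v 0 := by
  rw [commutatorElement_def, hh_conj, act_z, actW_z, vw_inv, vw_mul, β_self, neg_two_V]
  simp

theorem comm_v_z (v : V) : ⁅vw v 0, hh M16.z⁆ = vw (-v) 0 := by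
  rw [← commutatorElement_inv, comm_z_v, vw_inv, neg_zero]

theorem comm_x_y : ⁅hh M16.x, hh M16.y⁆ = hh M16.z := by
  rw [commutatorElement_def, hh_inv, hh_inv, hh_mul, hh_mul, hh_mul]
  congr 1

theorem lcs_mem {H : Type} [Group H] (f : G →* H) (n : ℕ) (v : V) :
    f (vw v 0) ∈ (_root_.commutator H).lowerCentralSeries n := by
  have hz : f (hh M16.z) ∈ _root_.commutator H := by
    rw [← comm_x_y, map_commutatorElement]
    exact Subgroup.commutator_mem_commutator (Subgroup.mem_top _) (Subgroup.mem_top _)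
  induction n generalizing v with
  | zero =>
    rw [Subgroup.lowerCentralSeries_zero, ← comm_z_v, map_commutatorElement]
    exact Subgroup.commutator_mem_commutator (Subgroup.mem_top _) (Subgroup.mem_top _)
  | succ n ih =>
    rw [Subgroup.lowerCentralSeries_succ]
    have : vw v 0 = ⁅vw (-v) 0, hh M16.z⁆ := by rw [comm_v_z, neg_neg]
    rw [this, map_commutatorElement]
    exact Subgroup.commutator_mem_commutator (ih _) hz

theorem exists_β (w : W) : ∃ u v : V, β u v = w := by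
  refine ⟨((w.1, 0), (w.2, 0)), ((0, 1), (0, 1)), ?_⟩
  simp [β]

theorem ker_le_of_nd {H : Type} [Group H] (f : G →* H) (hH : ND H) : pr.ker ≤ f.ker := by
  obtain ⟨n, hn⟩ := nd_iff.1 hH
  have h1 : ∀ v, f (vw v 0) = 1 := by
    intro v
    have := lcs_mem f n v
    rwa [hn, Subgroup.mem_bot] at this
  have h2 : ∀ w, f (vw 0 w) = 1 := by
    intro w
    obtain ⟨u, v, huv⟩ := exists_β w
    have e : vw 0 w = vw u 0 * vw v 0 * (vw (u + v) 0)⁻¹ := by
      rw [vw_inv, vw_mul, vw_mul]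
      have : β (u + v) (-(u + v)) = 0 := by
        rw [β_swap, β_neg_left, β_self]; simp
      rw [this, huv]
      simp
    rw [e, map_mul, map_mul, map_inv, h1, h1, h1]
    simp
  intro g hg
  rw [eq_vw_of_h hg, MonoidHom.mem_ker]
  have e : vw g.v g.w = vw g.v 0 * vw 0 g.w := by
    rw [vw_mul, β_zero_right]; simp
  rw [e, map_mul, h1, h2, one_mul]

theorem isPGroup_M16 : IsPGroup 2 M16 := by
  refine IsPGroup.of_card (n := 4) ?_
  rw [M16.card]; norm_num

instance nilM16 : Group.IsNilpotent M16 :=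
  haveI : Fact (Nat.Prime 2) := ⟨Nat.prime_two⟩
  isPGroup_M16.isNilpotent

theorem nd_M16 : ND M16 := by
  unfold ND; infer_instance

/-! irreducibility -/

theorem act_x (v : V) : act M16.x v = X v := rfl
theorem act_y (v : V) : act M16.y v = Y v := rfl

theorem proj1 (v : V) : X (X v) + X v - v = -((v.1.2, v.1.1 + v.1.2), (0, 0)) := by
  revert v; decide

theorem proj1' (a b : ZMod 3) : X ((a, b), (0, 0)) = ((b, a + b), (0, 0)) := by
  revert a b; decide

theorem span1 : ∀ a b : ZMod 3, (a, b) ≠ (0, 0) → ∀ c d : ZMod 3, ∃ s t : Fin 3,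
    (c, d) = (s.val • a + t.val • b, s.val • b + t.val • (a + b)) := by
  decide

theorem irred (U : AddSubgroup V) (hU : ∀ h u, u ∈ U → act h u ∈ U) (hne : ∃ u ∈ U, u ≠ 0) :
    U = ⊤ := by
  have hX : ∀ u ∈ U, X u ∈ U := fun u hu => hU M16.x u hu
  have hY : ∀ u ∈ U, Y u ∈ U := fun u hu => hU M16.y u hu
  -- find an element with nonzero first component
  have h1 : ∃ u ∈ U, u.1 ≠ 0 := by
    obtain ⟨u, hu, hu0⟩ := hne
    by_cases h : u.1 = 0
    · refine ⟨Y u, hY u hu, ?_⟩
      intro h'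
      apply hu0
      exact Prod.ext h h'
    · exact ⟨u, hu, h⟩
  obtain ⟨u, hu, hu1⟩ := h1
  have h2 : ((u.1.2, u.1.1 + u.1.2), (0, 0)) ∈ U := by
    have : X (X u) + X u - u ∈ U := U.sub_mem (U.add_mem (hX _ (hX _ hu)) (hX _ hu)) hu
    rw [proj1] at this
    exact U.neg_mem_iff.1 this
  set a := u.1.2 with ha
  set b := u.1.1 + u.1.2 with hb
  have hab : (a, b) ≠ (0, 0) := by
    intro h
    apply hu1
    rw [Prod.mk.injEq] at h
    obtain ⟨h3, h4⟩ := h
    rw [hb, ← ha, h3, add_zero] at h4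
    exact Prod.ext h4 h3
  have h3 : ∀ c d : ZMod 3, ((c, d), (0, 0)) ∈ U := by
    intro c d
    obtain ⟨s, t, hst⟩ := span1 a b hab c d
    have h5 : ((b, a + b), (0, 0)) ∈ U := by
      have := hX _ h2
      rwa [proj1'] at this
    have h6 : s.val • ((a, b), ((0, 0) : ZMod 3 × ZMod 3)) +
        t.val • ((b, a + b), ((0, 0) : ZMod 3 × ZMod 3)) ∈ U :=
      U.add_mem (U.nsmul_mem h2 _) (U.nsmul_mem h5 _)
    have e : ((c, d), ((0, 0) : ZMod 3 × ZMod 3)) =
        s.val • ((a, b), ((0, 0) : ZMod 3 × ZMod 3)) +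
        t.val • ((b, a + b), ((0, 0) : ZMod 3 × ZMod 3)) := by
      rw [hst]
      simp
    rw [e]
    exact h6
  rw [eq_top_iff]
  rintro ⟨⟨c, d⟩, ⟨c', d'⟩⟩ _
  have h7 : Y ((c', d'), (0, 0)) ∈ U := hY _ (h3 c' d')
  have := U.add_mem (h3 c d) h7
  simpa [Y] using this

theorem conj_v (k g : G) (hg : g.h = 1) : (k * g * k⁻¹).v = act k.h g.v := by
  simp only [mul_def, inv_def, hg, mul_one]
  have hneg : ∀ (h : M16) (v : V), act h (-v) = - act h v := by
    intro h v
    have := act_add h v (-v)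
    rw [add_neg_cancel, act_zero] at this
    exact (neg_eq_of_add_eq_zero_right this.symm).symm
  rw [hneg, ← act_mul, mul_inv_cancel, act_one]
  abel

theorem conj_h (k g : G) (hg : g.h = 1) : (k * g * k⁻¹).h = 1 := by
  simp only [mul_def, inv_def, hg, mul_one, mul_inv_cancel]

/-- proper supplements meet `P` in `W` -/
theorem v_eq_zero (K : Subgroup G) (hK : K ≠ ⊤) (hmap : K.map pr = ⊤) (g : G) (hg : g ∈ K)
    (hg1 : g.h = 1) : g.v = 0 := by
  let U : AddSubgroup V :=
    { carrier := {v | ∃ w, vw v w ∈ K}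
      zero_mem' := ⟨0, K.one_mem⟩
      add_mem' := by
        rintro a b ⟨w, hw⟩ ⟨w', hw'⟩
        exact ⟨_, K.mul_mem hw hw'⟩
      neg_mem' := by
        rintro a ⟨w, hw⟩
        refine ⟨-w, ?_⟩
        rw [← vw_inv]
        exact K.inv_mem hw }
  have hUs : ∀ h u, u ∈ U → act h u ∈ U := by
    rintro h u ⟨w, hw⟩
    have : h ∈ K.map pr := by rw [hmap]; trivial
    obtain ⟨k, hk, hkh⟩ := this
    have hkh' : k.h = h := hkh
    have hc : k * vw u w * k⁻¹ ∈ K := K.mul_mem (K.mul_mem hk hw) (K.inv_mem hk)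
    have e1 := conj_v k (vw u w) rfl
    have e2 := conj_h k (vw u w) rfl
    rw [eq_vw_of_h e2, e1, hkh'] at hc
    exact ⟨_, hc⟩
  by_contra hne
  have htop : U = ⊤ := irred U hUs ⟨g.v, ⟨g.w, by rw [← eq_vw_of_h hg1]; exact hg⟩, hne⟩
  have hv : ∀ v : V, ∃ w, vw v w ∈ K := by
    intro v
    have : v ∈ U := by rw [htop]; trivial
    exact this
  have hw : ∀ w : W, vw 0 w ∈ K := by
    intro w
    obtain ⟨u, v, huv⟩ := exists_β (-w)
    obtain ⟨w₁, h₁⟩ := hv u
    obtain ⟨w₂, h₂⟩ := hv v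
    have h3 : vw u w₁ * vw v w₂ * (vw u w₁)⁻¹ * (vw v w₂)⁻¹ ∈ K :=
      K.mul_mem (K.mul_mem (K.mul_mem h₁ h₂) (K.inv_mem h₁)) (K.inv_mem h₂)
    have e : vw u w₁ * vw v w₂ * (vw u w₁)⁻¹ * (vw v w₂)⁻¹ = vw 0 w := by
      rw [vw_inv, vw_inv, vw_mul, vw_mul, vw_mul]
      have e1 : β (u + v) (-u) = β u v := by
        rw [β_swap, β_neg_left, β_add_right, β_self]; simp
      have e2 : β (u + v + -u) (-v) = 0 := by
        have : u + v + -u = v := by abel
        rw [this, β_swap, β_neg_left, β_self]; simp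
      rw [e1, e2, huv]
      have e3 : u + v + -u + -v = 0 := by abel
      rw [e3]
      congr 1
      have := three_W w
      have h4 : -w + -w = w := by
        rw [← sub_eq_zero]
        have : -w + -w - w = -(w + w + w) := by abel
        rw [this, three_W, neg_zero]
      calc w₁ + w₂ + -w + -w₁ + -w + -w₂ + 0 = -w + -w := by abel
        _ = w := h4
    rwa [e] at h3
  apply hK
  rw [eq_top_iff]
  intro g' _
  have : g'.h ∈ K.map pr := by rw [hmap]; trivial
  obtain ⟨k, hk, hkh⟩ := this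
  have hkh' : k.h = g'.h := hkh
  have h5 : (g' * k⁻¹).h = 1 := by
    simp only [mul_def, inv_def, hkh', mul_inv_cancel]
  have h6 : g' * k⁻¹ ∈ K := by
    rw [eq_vw_of_h h5]
    obtain ⟨w₁, h₁⟩ := hv (g' * k⁻¹).v
    have e : vw (g' * k⁻¹).v (g' * k⁻¹).w =
        vw (g' * k⁻¹).v w₁ * vw 0 ((g' * k⁻¹).w - w₁) := by
      rw [vw_mul, β_zero_right]; simp
    rw [e]
    exact K.mul_mem h₁ (hw _)
  have := K.mul_mem h6 hk
  simpa using this

end G

end Pool.Agent.Helper3.GrpG
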