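import Pool.Agent.Helper3.GrpH

set_option autoImplicit false

/-! `G` is minimal non-`ND`; its residual is a Sylow 3-subgroup. -/

namespace Pool.Agent.Helper3.GrpG

open Pool.Agent.Helper3.NilDer
open scoped commutatorElement

namespace G

/-- the subgroup `{1, z}` -/
def Zs : Subgroup M16 where
  carrier := {a | a = 1 ∨ a = M16.z}
  one_mem' := Or.inl rfl
  mul_mem' := by
    rintro a b (rfl | rfl) (rfl | rfl)
    · left; rfl
    · right; rfl
    · right; rfl
    · left; exact M16.zz
  inv_mem' := by
    rintro a (rfl | rfl)
    · left; simp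
    · right
      rw [inv_eq_iff_mul_eq_one]
      exact M16.zz

theorem commutator_M16_le : _root_.commutator M16 ≤ Zs := by
  rw [_root_.commutator_def, Subgroup.commutator_le]
  intro a _ b _
  rw [commutatorElement_def]
  rcases M16.comm_or a b with h | h
  · left
    rw [h]; group
  · right
    rw [h]; group

/-- every proper subgroup of `G` has nilpotent derived subgroup -/
theorem nd_proper (K : Subgroup G) (hK : K ≠ ⊤) : ND K := by
  let φ : K →* M16 := pr.comp K.subtype
  unfold ND
  by_cases hmap : K.map pr = ⊤
  · let ψ : ↥(_root_.commutator K) →* M16 := φ.comp (_root_.commutator K).subtype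
    have hψ : ψ.ker ≤ Subgroup.center _ := by
      intro k hk
      rw [Subgroup.mem_center_iff]
      intro k'
      have hk1 : ((k : K) : G).h = 1 := hk
      have hkv : ((k : K) : G).v = 0 := v_eq_zero K hK hmap _ (k : K).2 hk1
      have hk'c : (((k' : K) : G).h) ∈ Zs := by
        apply commutator_M16_le
        have h1 : (φ (k' : K)) ∈ (_root_.commutator K).map φ := Subgroup.mem_map_of_mem _ k'.2
        have h2 : (_root_.commutator K).map φ ≤ _root_.commutator M16 := by
          rw [_root_.commutator_def, _root_.commutator_def, Subgroup.map_commutator]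
          exact Subgroup.commutator_mono le_top le_top
        exact h2 h1
      apply Subtype.ext
      apply Subtype.ext
      change ((k' : K) : G) * ((k : K) : G) = ((k : K) : G) * ((k' : K) : G)
      simp only [mul_def, hk1, hkv, act_zero, act_one, actW_one, β_zero_left, β_zero_right,
        add_zero, zero_add, one_mul, mul_one, G.mk.injEq, true_and, and_true]
      rcases hk'c with h | h
      · rw [h, actW_one, add_comm]
      · rw [h, actW_z, add_comm]
    exact Subgroup.isNilpotent_of_ker_le_center ψ hψ
  · have hcomm : ∀ a b : K, φ a * φ b = φ b * φ a := by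
      intro a b
      by_contra hab
      apply hmap
      exact M16.eq_top_of_noncomm _ (φ a) (φ b) (Subgroup.mem_map_of_mem pr a.2)
        (Subgroup.mem_map_of_mem pr b.2) hab
    have hle : _root_.commutator K ≤ φ.ker := by
      rw [_root_.commutator_def, Subgroup.commutator_le]
      intro a _ b _
      rw [MonoidHom.mem_ker, map_commutatorElement, commutatorElement_def, hcomm]
      group
    have hp : IsPGroup 3 ↥(_root_.commutator K) := by
      intro g
      refine ⟨1, ?_⟩
      apply Subtype.ext
      apply Subtype.ext
      change ((g : K) : G) ^ 3 = 1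
      have : ((g : K) : G).h = 1 := hle g.2
      rw [eq_vw_of_h this]
      exact vw_pow_three _ _
    have : Fact (Nat.Prime 3) := ⟨Nat.prime_three⟩
    exact hp.isNilpotent

theorem not_nd : ¬ ND G := by
  intro h
  have := ker_le_of_nd (MonoidHom.id G) h
  have h1 : vw ((1, 0), (0, 0)) 0 ∈ (MonoidHom.id G).ker := this rfl
  rw [MonoidHom.mem_ker, MonoidHom.id_apply] at h1
  have h2 := congrArg G.v h1
  revert h2
  decide

theorem solvable : Group.IsSolvable G := by
  have : Fact (Nat.Prime 3) := ⟨Nat.prime_three⟩
  have : Group.IsNilpotent pr.ker := isPGroup_ker.isNilpotent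
  exact Group.isSolvable_of_ker_le_range pr.ker.subtype pr (by rw [Subgroup.range_subtype])

theorem sylow : ∃ P : Sylow 3 G, (P : Subgroup G) = pr.ker := by
  have : Fact (Nat.Prime 3) := ⟨Nat.prime_three⟩
  have hidx : pr.ker.index = 16 := by
    rw [Subgroup.index_ker, MonoidHom.range_eq_top.2 pr_surjective]
    rw [Nat.card_congr Subgroup.topEquiv.toEquiv, M16.card]
  refine ⟨isPGroup_ker.toSylow ?_, ?_⟩
  · rw [hidx]; norm_num
  · exact IsPGroup.toSylow_coe _ _

theorem residual : pr.ker = sInf {K : Subgroup G | ∃ (H : Type) (_ : Group H) (_ : Finite H),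
      ND H ∧ ∃ f : G →* H, Function.Surjective f ∧ f.ker = K} := by
  apply le_antisymm
  · apply le_sInf
    rintro K ⟨H, _, _, hH, f, hf, rfl⟩
    exact ker_le_of_nd f hH
  · apply sInf_le
    exact ⟨M16, inferInstance, inferInstance, nd_M16, pr, pr_surjective, rfl⟩

end G

end Pool.Agent.Helper3.GrpG
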