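import Mathlib

set_option autoImplicit false

/-! The class of groups with nilpotent derived subgroup is a saturated formation. -/

namespace Pool.Agent.Helper3.NilDer

open Subgroup

/-- The class of groups whose derived subgroup is nilpotent. -/
def ND (H : Type) [Group H] : Prop := Group.IsNilpotent ↥(_root_.commutator H)

theorem nd_iff {H : Type} [Group H] :
    ND H ↔ ∃ n, (_root_.commutator H).lowerCentralSeries n = ⊥ :=
  Subgroup.isNilpotent_iff_lowerCentralSeries _

theorem map_commutator_top {H K : Type} [Group H] [Group K] (f : H →* K)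
    (hf : Function.Surjective f) :
    (_root_.commutator H).map f = _root_.commutator K := by
  rw [_root_.commutator_def, _root_.commutator_def, Subgroup.map_commutator,
    Subgroup.map_top_of_surjective f hf]

/-- closure under quotients -/
theorem nd_of_surjective {H K : Type} [Group H] [Group K] (f : H →* K)
    (hf : Function.Surjective f) (h : ND H) : ND K := by
  rw [nd_iff] at h ⊢
  obtain ⟨n, hn⟩ := h
  refine ⟨n, ?_⟩
  rw [← map_commutator_top f hf, ← Subgroup.map_lowerCentralSeries, hn, Subgroup.map_bot]

/-- closure under (finite) subdirect products -/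
theorem nd_subdirect {H K₁ K₂ : Type} [Group H] [Group K₁] [Group K₂]
    (f₁ : H →* K₁) (f₂ : H →* K₂)
    (h₁ : ND K₁) (h₂ : ND K₂) : ND ↥(f₁.prod f₂).range := by
  rw [nd_iff] at h₁ h₂ ⊢
  obtain ⟨n, hn⟩ := h₁
  obtain ⟨m, hm⟩ := h₂
  refine ⟨max n m, ?_⟩
  rw [← Subgroup.map_subtype_inj, Subgroup.map_bot, Subgroup.map_lowerCentralSeries, eq_bot_iff]
  have hle : (_root_.commutator ↥(f₁.prod f₂).range).map (f₁.prod f₂).range.subtype ≤
      (_root_.commutator K₁).prod (_root_.commutator K₂) := by
    rw [_root_.commutator_def, _root_.commutator_def, _root_.commutator_def,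
      Subgroup.map_commutator, ← Subgroup.commutator_prod_prod, Subgroup.top_prod_top]
    exact Subgroup.commutator_mono le_top le_top
  refine (Subgroup.lowerCentralSeries_mono _ hle).trans ?_
  beta_reduce
  rw [Subgroup.lowerCentralSeries_prod]
  have e1 : (_root_.commutator K₁).lowerCentralSeries (max n m) = ⊥ := by
    rw [eq_bot_iff, ← hn]
    exact Subgroup.lowerCentralSeries_antitone _ (le_max_left _ _)
  have e2 : (_root_.commutator K₂).lowerCentralSeries (max n m) = ⊥ := by
    rw [eq_bot_iff, ← hm]
    exact Subgroup.lowerCentralSeries_antitone _ (le_max_right _ _)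
  rw [e1, e2, Subgroup.bot_prod_bot]

/-- saturation -/
theorem nd_saturated {H K : Type} [Group H] [Group K] [Finite H] (f : H →* K)
    (hf : Function.Surjective f) (hM : ∀ M : Subgroup H, IsCoatom M → f.ker ≤ M)
    (hK : ND K) : ND H := by
  have hfin : Finite K := Finite.of_surjective f hf
  set D : Subgroup K := _root_.commutator K with hD
  set M₀ : Subgroup H := D.comap f with hM₀
  have hle : _root_.commutator H ≤ M₀ := by
    rw [hM₀, ← Subgroup.map_le_iff_le_comap, map_commutator_top f hf]
  suffices hnil : Group.IsNilpotent M₀ by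
    rw [Subgroup.isNilpotent_iff_lowerCentralSeries] at hnil
    rw [nd_iff]
    obtain ⟨n, hn⟩ := hnil
    refine ⟨n, ?_⟩
    rw [eq_bot_iff, ← hn]
    exact Subgroup.lowerCentralSeries_mono _ hle
  have hKer : f.ker ≤ M₀ := by
    rw [hM₀]
    exact Subgroup.ker_le_comap f D
  -- the restricted surjection
  have hKnil : Group.IsNilpotent D := hK
  have key : ∀ (q : ℕ) (_hq : Fact q.Prime) (Q : Sylow q M₀), (Q : Subgroup M₀).Normal := by
    intro q _ Q
    let f₀ : M₀ →* D := f.subgroupComap D
    have hf₀ : Function.Surjective f₀ := MonoidHom.subgroupComap_surjective_of_surjective f D hf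
    let S : Sylow q D := Q.mapSurjective hf₀
    have hSn : (S : Subgroup D).Normal := by
      have hall := (Group.isNilpotent_of_finite_tfae (G := D)).out 0 3
      exact hall.1 hKnil q inferInstance S
    have hSc : (S : Subgroup D).Characteristic := Sylow.characteristic_of_normal S hSn
    have hDn : D.Normal := by rw [hD]; infer_instance
    have hSn' : ((S : Subgroup D).map D.subtype).Normal :=
      ConjAct.normal_of_characteristic_of_normal
    set Qt : Subgroup H := (Q : Subgroup M₀).map M₀.subtype with hQt
    have hmap : Qt.map f = (S : Subgroup D).map D.subtype := by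
      rw [hQt, Subgroup.map_map]
      have : (S : Subgroup D) = (Q : Subgroup M₀).map f₀ := Sylow.coe_mapSurjective hf₀ Q
      rw [this, Subgroup.map_map]
      rfl
    set T : Subgroup H := (Qt.map f).comap f with hT
    have hTn : T.Normal := by
      rw [hT, hmap]
      exact Subgroup.Normal.comap hSn' f
    have hTeq : T = Qt ⊔ f.ker := by
      rw [hT, Subgroup.comap_map_eq]
    have hQtM : Qt ≤ M₀ := by
      rw [hQt]
      exact Subgroup.map_subtype_le _
    have hQT : Qt ≤ T := by rw [hTeq]; exact le_sup_left
    have hTM : T ≤ M₀ := by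
      rw [hTeq]
      exact sup_le hQtM hKer
    have hindex : Qt.relIndex M₀ = (Q : Subgroup M₀).index := by
      rw [Subgroup.relIndex, hQt, Subgroup.subgroupOf,
        Subgroup.comap_map_eq_self_of_injective (Subgroup.subtype_injective M₀)]
    have hnd : ¬ q ∣ (Qt.subgroupOf T).index := by
      intro hdvd
      have h1 : Qt.relIndex T * T.relIndex M₀ = Qt.relIndex M₀ :=
        Subgroup.relIndex_mul_relIndex Qt T M₀ hQT hTM
      have h2 : q ∣ Qt.relIndex M₀ := by
        rw [← h1]
        exact Dvd.dvd.mul_right hdvd _
      rw [hindex] at h2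
      exact Q.not_dvd_index h2
    have hQtp : IsPGroup q Qt := by
      rw [hQt]
      exact Q.isPGroup'.map _
    have hQTp : IsPGroup q (Qt.subgroupOf T) := by
      exact hQtp.comap_of_injective T.subtype (Subgroup.subtype_injective T)
    let P : Sylow q T := hQTp.toSylow hnd
    have hfr := Sylow.normalizer_sup_eq_top P
    have hPe : ((P : Subgroup T).map T.subtype) = Qt := by
      have : (P : Subgroup T) = Qt.subgroupOf T := IsPGroup.toSylow_coe hQTp hnd
      rw [this, Subgroup.subgroupOf_map_subtype, inf_eq_left.2 hQT]
    rw [hPe] at hfr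
    have hnorm : Subgroup.normalizer (Qt : Set H) = ⊤ := by
      rcases eq_top_or_exists_le_coatom (Subgroup.normalizer (Qt : Set H)) with h | ⟨M, hMc, hMle⟩
      · exact h
      · exfalso
        apply hMc.1
        rw [eq_top_iff, ← hfr, hTeq]
        refine sup_le hMle (sup_le (Subgroup.le_normalizer.trans hMle) (hM M hMc))
    have hQtn : Qt.Normal := Subgroup.normalizer_eq_top_iff.1 hnorm
    have : (Q : Subgroup M₀) = Qt.subgroupOf M₀ := by
      rw [hQt, Subgroup.subgroupOf,
        Subgroup.comap_map_eq_self_of_injective (Subgroup.subtype_injective M₀)]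
    rw [this]
    infer_instance
  have hall := (Group.isNilpotent_of_finite_tfae (G := M₀)).out 0 3
  exact hall.2 key

end Pool.Agent.Helper3.NilDer
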