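import Pool.Agent.Helper5.ZasDefs
import Mathlib

/-!
Soluble groups acting irreducibly over a prime field, and on small abelian groups.
-/

namespace Pool.Agent.Helper3.Zas

open Pool.Agent.Helper5.Zas

/-- A finite soluble matrix group over an algebraically closed field of dimension at most `D`:
the `k`-th derived subgroup fixes a nonzero vector. -/
theorem exists_fixed_vector {D k : ℕ} (h : IrrBound D k) (F : Type) [Field F] [IsAlgClosed F]
    (W : Type) [AddCommGroup W] [Module F W] [Module.Finite F W] (H : Type) [Group H] [Finite H]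
    [Group.IsSolvable H] (φ : H →* (W →ₗ[F] W)) (hW : Module.finrank F W ≤ D)
    [Nontrivial W] : ∃ w : W, w ≠ 0 ∧ ∀ g ∈ derivedSeries H k, φ g w = w := by
  classical
  -- minimal nonzero invariant subspace
  let S : Set (Submodule F W) := {U | U ≠ ⊥ ∧ ∀ g : H, ∀ w ∈ U, φ g w ∈ U}
  have hS : S.Nonempty := ⟨⊤, by simp, fun g w _ => Submodule.mem_top⟩
  obtain ⟨U, ⟨hU0, hUinv⟩, hUmin⟩ :=
    (wellFounded_lt (α := Submodule F W)).has_min S hS
  let φ' : H →* (U →ₗ[F] U) :=
    { toFun := fun g => (φ g).restrict (hUinv g)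
      map_one' := by
        ext x
        simp
      map_mul' := fun a b => by
        ext x
        simp }
  have hirr : ∀ X : Submodule F U, (∀ g : H, ∀ w ∈ X, φ' g w ∈ X) → X = ⊥ ∨ X = ⊤ := by
    intro X hX
    by_cases hX0 : X = ⊥
    · exact Or.inl hX0
    right
    have hmem : X.map U.subtype ∈ S := by
      refine ⟨?_, ?_⟩
      · intro h0
        apply hX0
        rw [eq_bot_iff]
        intro y hy
        have h1 : U.subtype y ∈ X.map U.subtype := ⟨y, hy, rfl⟩
        rw [h0, Submodule.mem_bot] at h1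
        exact (Submodule.mem_bot _).2 (Subtype.ext h1)
      · rintro g w ⟨y, hy, rfl⟩
        exact ⟨φ' g y, hX g y hy, rfl⟩
    have hle : X.map U.subtype ≤ U := Submodule.map_subtype_le U X
    have heq : X.map U.subtype = U := by
      by_contra hne
      exact hUmin _ hmem (lt_of_le_of_ne hle hne)
    rw [eq_top_iff]
    rintro ⟨y, hy⟩ -
    rw [← heq] at hy
    obtain ⟨z, hz, hzy⟩ := hy
    have : z = ⟨y, by rw [← hzy]; exact z.2⟩ := Subtype.ext hzy
    rw [← this]
    exact hz
  have hfin : Module.finrank F U ≤ D := (Submodule.finrank_le U).trans hW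
  have key := h F U H φ' hirr hfin
  obtain ⟨w, hwU, hw0⟩ := (Submodule.ne_bot_iff U).1 hU0
  refine ⟨w, hw0, fun g hg => ?_⟩
  have := LinearMap.congr_fun (key g hg) ⟨w, hwU⟩
  exact congrArg Subtype.val this

theorem zassenhaus_finite (p : ℕ) [Fact p.Prime] {D k : ℕ} (h : IrrBound D k) {V : Type*}
    [AddCommGroup V] [Module (ZMod p) V] [Module.Finite (ZMod p) V] {G : Type*} [Group G]
    [Group.IsSolvable G] (ρ : G →* (V →ₗ[ZMod p] V))
    (hirr : ∀ W : Submodule (ZMod p) V, (∀ g : G, ∀ w ∈ W, ρ g w ∈ W) → W = ⊥ ∨ W = ⊤)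
    (hD : Module.finrank (ZMod p) V ≤ D) : ∀ g ∈ derivedSeries G k, ρ g = 1 := by
  classical
  rcases subsingleton_or_nontrivial V with hV | hV
  · intro g _
    ext v
    exact Subsingleton.elim _ _
  -- coordinates
  let d := Module.finrank (ZMod p) V
  have hd : 0 < d := Module.finrank_pos
  let b : Module.Basis (Fin d) (ZMod p) V := Module.finBasis (ZMod p) V
  let M : G →* Matrix (Fin d) (Fin d) (ZMod p) :=
    { toFun := fun g => LinearMap.toMatrix b b (ρ g)
      map_one' := by rw [map_one]; exact LinearMap.toMatrix_one b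
      map_mul' := fun x y => by rw [map_mul]; exact LinearMap.toMatrix_mul b _ _ }
  let f : G →* (Matrix (Fin d) (Fin d) (ZMod p))ˣ := M.toHomUnits
  let H : Subgroup (Matrix (Fin d) (Fin d) (ZMod p))ˣ := f.range
  have hHsolv : Group.IsSolvable H := Group.isSolvable_of_surjective (f := f.rangeRestrict)
    f.rangeRestrict_surjective
  let K := AlgebraicClosure (ZMod p)
  let φ : H →* ((Fin d → K) →ₗ[K] (Fin d → K)) :=
    { toFun := fun x => Matrix.toLin' ((x : (Matrix (Fin d) (Fin d) (ZMod p))ˣ).val.map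
        (algebraMap (ZMod p) K))
      map_one' := by
        simp
        rfl
      map_mul' := fun x y => by
        simp [Matrix.map_mul, Matrix.toLin'_mul]
        rfl }
  have : Nonempty (Fin d) := ⟨⟨0, hd⟩⟩
  have hfin : Module.finrank K (Fin d → K) ≤ D := by
    rw [Module.finrank_fin_fun]
    exact hD
  obtain ⟨w, hw0, hw⟩ := exists_fixed_vector h K (Fin d → K) H φ hfin
  -- descend to the prime field
  obtain ⟨i, hi⟩ : ∃ i, w i ≠ 0 := by
    by_contra hcon
    push Not at hcon
    exact hw0 (funext hcon)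
  obtain ⟨ℓ, hℓ⟩ : ∃ ℓ : Module.Dual (ZMod p) K, ℓ (w i) ≠ 0 := by
    by_contra hcon
    push Not at hcon
    exact hi ((Module.forall_dual_apply_eq_zero_iff (ZMod p) (w i)).1 hcon)
  let c : Fin d → ZMod p := fun j => ℓ (w j)
  let v : V := ∑ j, c j • b j
  have hvrepr : ∀ j, b.repr v j = c j := by
    intro j
    simp only [v]
    rw [Module.Basis.repr_sum_self]
  have hv0 : v ≠ 0 := by
    intro h0
    apply hℓ
    have := hvrepr i
    rw [h0] at this
    simpa using this.symm
  have hfix : ∀ g ∈ derivedSeries G k, ρ g v = v := by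
    intro g hg
    have hgH : f.rangeRestrict g ∈ derivedSeries H k := by
      apply map_derivedSeries_le_derivedSeries f.rangeRestrict k
      exact Subgroup.mem_map_of_mem _ hg
    have hwg := hw _ hgH
    apply b.repr.injective
    ext j
    rw [hvrepr]
    have h1 : b.repr (ρ g v) j = ∑ l, LinearMap.toMatrix b b (ρ g) j l * c l := by
      have := LinearMap.toMatrix_mulVec_repr b b (ρ g) v
      have h2 := congrFun this j
      rw [← h2]
      simp only [Matrix.mulVec, dotProduct]
      refine Finset.sum_congr rfl fun l _ => ?_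
      rw [hvrepr]
    rw [h1]
    have h3 : w j = ∑ l, (LinearMap.toMatrix b b (ρ g) j l) • w l := by
      have h4 := congrFun hwg j
      have h5 : φ (f.rangeRestrict g) w j
          = ∑ l, algebraMap (ZMod p) K (LinearMap.toMatrix b b (ρ g) j l) * w l := by
        change Matrix.toLin' _ w j = _
        rw [Matrix.toLin'_apply]
        rfl
      rw [h5] at h4
      rw [← h4]
      refine Finset.sum_congr rfl fun l _ => ?_
      rw [Algebra.smul_def]
    change _ = ℓ (w j)
    rw [h3, map_sum]
    refine Finset.sum_congr rfl fun l _ => ?_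
    rw [map_smul, smul_eq_mul]
  -- the fixed space is invariant
  let X : Submodule (ZMod p) V :=
    { carrier := {v | ∀ g ∈ derivedSeries G k, ρ g v = v}
      add_mem' := fun {a b} ha hb g hg => by rw [map_add, ha g hg, hb g hg]
      zero_mem' := fun g _ => map_zero _
      smul_mem' := fun r a ha g hg => by rw [map_smul, ha g hg] }
  have hXinv : ∀ g : G, ∀ w ∈ X, ρ g w ∈ X := by
    intro g w hwX n hn
    have hconj : g⁻¹ * n * g ∈ derivedSeries G k := by
      have := (derivedSeries_normal G k).conj_mem n hn g⁻¹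
      simpa using this
    have h1 := hwX _ hconj
    have h2 : ρ n (ρ g w) = ρ g (ρ (g⁻¹ * n * g) w) := by
      rw [← Module.End.mul_apply, ← Module.End.mul_apply, ← map_mul, ← map_mul]
      congr 2
      group
    rw [h2, h1]
  rcases hirr X hXinv with hX | hX
  · exfalso
    apply hv0
    have : v ∈ X := hfix
    rw [hX] at this
    exact (Submodule.mem_bot _).1 this
  · intro g hg
    ext v
    have : v ∈ X := by rw [hX]; exact Submodule.mem_top
    exact this g hg

/-- The action induced on the quotient by an invariant subgroup. -/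
def quotAct {E G : Type*} [CommGroup E] [Group G] (φ : G →* MulAut E) (L : Subgroup E)
    (hL : ∀ g, ∀ e ∈ L, φ g e ∈ L) : G →* MulAut (E ⧸ L) where
  toFun g :=
    { toFun := QuotientGroup.map L L (φ g).toMonoidHom (fun e he => hL g e he)
      invFun := QuotientGroup.map L L (φ g⁻¹).toMonoidHom (fun e he => hL g⁻¹ e he)
      left_inv := by
        rintro ⟨e⟩
        change ((φ g⁻¹ (φ g e) : E) : E ⧸ L) = (e : E ⧸ L)
        rw [← MulAut.mul_apply, ← map_mul, inv_mul_cancel, map_one, MulAut.one_apply]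
      right_inv := by
        rintro ⟨e⟩
        change ((φ g (φ g⁻¹ e) : E) : E ⧸ L) = (e : E ⧸ L)
        rw [← MulAut.mul_apply, ← map_mul, mul_inv_cancel, map_one, MulAut.one_apply]
      map_mul' := map_mul _ }
  map_one' := by
    apply MulEquiv.ext
    rintro ⟨e⟩
    change ((φ 1 e : E) : E ⧸ L) = (e : E ⧸ L)
    rw [map_one, MulAut.one_apply]
  map_mul' := fun a b => by
    apply MulEquiv.ext
    rintro ⟨e⟩
    change ((φ (a * b) e : E) : E ⧸ L) = ((φ a (φ b e) : E) : E ⧸ L)
    rw [map_mul, MulAut.mul_apply]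

theorem quotAct_mk {E G : Type*} [CommGroup E] [Group G] (φ : G →* MulAut E) (L : Subgroup E)
    (hL : ∀ g, ∀ e ∈ L, φ g e ∈ L) (g : G) (e : E) :
    quotAct φ L hL g (e : E ⧸ L) = ((φ g e : E) : E ⧸ L) := rfl

/-- Additive endomorphisms are `ZMod q`-linear. -/
def zrep (q : ℕ) {V G : Type*} [AddCommGroup V] [Module (ZMod q) V] [Group G]
    (act : G →* AddMonoid.End V) : G →* (V →ₗ[ZMod q] V) where
  toFun g := AddMonoidHom.toZModLinearMap q (act g)
  map_one' := by
    ext a
    simp
    rfl
  map_mul' a b := by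
    ext e
    simp
    rfl

/-- The action on an invariant subgroup. -/
def restrAct {E G : Type*} [CommGroup E] [Group G] (φ : G →* MulAut E) (L : Subgroup E)
    (hL : ∀ g, ∀ e ∈ L, φ g e ∈ L) : G →* AddMonoid.End (Additive L) where
  toFun g :=
    MonoidHom.toAdditive
      { toFun := fun e => (⟨φ g e, hL g e e.2⟩ : L)
        map_one' := by
          apply Subtype.ext
          simp
        map_mul' := fun a b => by
          apply Subtype.ext
          simp }
  map_one' := by
    apply AddMonoidHom.ext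
    intro a
    apply Additive.toMul.injective
    apply Subtype.ext
    change (φ 1 (Additive.toMul a : L) : E) = (Additive.toMul a : L)
    rw [map_one, MulAut.one_apply]
  map_mul' a b := by
    apply AddMonoidHom.ext
    intro e
    apply Additive.toMul.injective
    apply Subtype.ext
    change (φ (a * b) (Additive.toMul e : L) : E) = φ a (φ b (Additive.toMul e : L))
    rw [map_mul, MulAut.mul_apply]

theorem elem_fixed {x k : ℕ} (h : IrrBound x k) (q : ℕ) [Fact q.Prime] {A : Type*}
    [AddCommGroup A] [Finite A] {G : Type*} [Group G] [Group.IsSolvable G]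
    (act : G →* AddMonoid.End A) (hq : ∀ a : A, q • a = 0)
    (hirr : ∀ B : AddSubgroup A, (∀ g, ∀ b ∈ B, act g b ∈ B) → B = ⊥ ∨ B = ⊤)
    (hcard : Nat.card A < 2 ^ (x + 1)) : ∀ g ∈ derivedSeries G k, ∀ a, act g a = a := by
  let _ : Module (ZMod q) A := AddCommGroup.zmodModule (n := q) hq
  have : Module.Finite (ZMod q) A := Module.Finite.of_finite
  let ρ := zrep q (V := A) act
  have hirr' : ∀ W : Submodule (ZMod q) A, (∀ g : G, ∀ w ∈ W, ρ g w ∈ W) →
      W = ⊥ ∨ W = ⊤ := by
    intro W hW
    rcases hirr W.toAddSubgroup hW with h1 | h1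
    · left
      rw [eq_bot_iff]
      intro a ha
      have : a ∈ W.toAddSubgroup := ha
      rw [h1, AddSubgroup.mem_bot] at this
      exact (Submodule.mem_bot _).2 this
    · right
      rw [eq_top_iff]
      intro a _
      have : a ∈ W.toAddSubgroup := by rw [h1]; exact AddSubgroup.mem_top a
      exact this
  have hdim : Module.finrank (ZMod q) A ≤ x := by
    have h1 : Nat.card A = q ^ Module.finrank (ZMod q) A := by
      rw [Module.natCard_eq_pow_finrank (K := ZMod q), Nat.card_zmod]
    have h3 : 2 ^ Module.finrank (ZMod q) A ≤ q ^ Module.finrank (ZMod q) A :=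
      Nat.pow_le_pow_left (Fact.out : q.Prime).two_le _
    have h4 : 2 ^ Module.finrank (ZMod q) A < 2 ^ (x + 1) := by omega
    have h5 := (Nat.pow_lt_pow_iff_right (by norm_num : 1 < 2)).1 h4
    omega
  have key := zassenhaus_finite q h ρ hirr' hdim
  intro g hg a
  exact LinearMap.congr_fun (key g hg) a

/-- A minimal nontrivial invariant subgroup is acted on trivially by the `k`-th derived
subgroup. -/
theorem minimal_fixed {x k : ℕ} (h : IrrBound x k) {E G : Type} [CommGroup E] [Finite E]
    [Group G] [Group.IsSolvable G] (φ : G →* MulAut E) (L : Subgroup E)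
    (hL : ∀ g, ∀ e ∈ L, φ g e ∈ L) (hL0 : L ≠ ⊥)
    (hmin : ∀ L' : Subgroup E, (∀ g, ∀ e ∈ L', φ g e ∈ L') → L' ≤ L → L' ≠ ⊥ → L' = L)
    (hcard : Nat.card E < 2 ^ (x + 1)) :
    ∀ g ∈ derivedSeries G k, ∀ e ∈ L, φ g e = e := by
  classical
  -- a prime dividing the order of `L`
  have hcardL : Nat.card L ≠ 1 := by
    intro h1
    exact hL0 (Subgroup.eq_bot_of_card_eq L h1)
  obtain ⟨q, hq, hqL⟩ := Nat.exists_prime_and_dvd hcardL
  have : Fact q.Prime := ⟨hq⟩
  obtain ⟨y, hy⟩ := exists_prime_orderOf_dvd_card' q hqL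
  -- `L` has exponent `q`
  have hexp : ∀ e ∈ L, e ^ q = 1 := by
    let L' : Subgroup E :=
      { carrier := {e | e ∈ L ∧ e ^ q = 1}
        mul_mem' := fun {a b} ha hb => ⟨L.mul_mem ha.1 hb.1, by rw [mul_pow, ha.2, hb.2, one_mul]⟩
        one_mem' := ⟨L.one_mem, one_pow q⟩
        inv_mem' := fun {a} ha => ⟨L.inv_mem ha.1, by rw [inv_pow, ha.2, inv_one]⟩ }
    have hinv : ∀ g, ∀ e ∈ L', φ g e ∈ L' := fun g e he =>
      ⟨hL g e he.1, by rw [← map_pow, he.2, map_one]⟩
    have hne : L' ≠ ⊥ := by
      intro h0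
      have hyL : (y : E) ∈ L' := by
        refine ⟨y.2, ?_⟩
        have h1 := pow_orderOf_eq_one y
        rw [hy] at h1
        have := congrArg Subtype.val h1
        simpa using this
      rw [h0, Subgroup.mem_bot] at hyL
      have hy1 : y = 1 := Subtype.ext hyL
      rw [hy1, orderOf_one] at hy
      exact hq.one_lt.ne hy
    have heq := hmin L' hinv (fun e he => he.1) hne
    intro e he
    rw [← heq] at he
    exact he.2
  have hexp' : ∀ a : Additive L, q • a = 0 := by
    intro a
    apply Additive.toMul.injective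
    apply Subtype.ext
    have := hexp (Additive.toMul a : L) (Additive.toMul a).2
    simpa using this
  have hirr : ∀ W : AddSubgroup (Additive L), (∀ g : G, ∀ w ∈ W, restrAct φ L hL g w ∈ W) →
      W = ⊥ ∨ W = ⊤ := by
    intro W hW
    by_cases hW0 : W = ⊥
    · exact Or.inl hW0
    right
    let L' : Subgroup E :=
      { carrier := {e | ∃ he : e ∈ L, Additive.ofMul (⟨e, he⟩ : L) ∈ W}
        mul_mem' := by
          rintro a b ⟨ha, ha'⟩ ⟨hb, hb'⟩
          exact ⟨L.mul_mem ha hb, W.add_mem ha' hb'⟩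
        one_mem' := ⟨L.one_mem, W.zero_mem⟩
        inv_mem' := by
          rintro a ⟨ha, ha'⟩
          exact ⟨L.inv_mem ha, W.neg_mem ha'⟩ }
    have hinv : ∀ g, ∀ e ∈ L', φ g e ∈ L' := by
      rintro g e ⟨he, he'⟩
      exact ⟨hL g e he, hW g _ he'⟩
    have hne : L' ≠ ⊥ := by
      intro h0
      apply hW0
      rw [eq_bot_iff]
      intro a ha
      have : ((Additive.toMul a : L) : E) ∈ L' := ⟨(Additive.toMul a : L).2, ha⟩
      rw [h0, Subgroup.mem_bot] at this
      rw [AddSubgroup.mem_bot]
      apply Additive.toMul.injective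
      exact Subtype.ext this
    have heq := hmin L' hinv (fun e he => he.1) hne
    rw [eq_top_iff]
    intro a _
    have : ((Additive.toMul a : L) : E) ∈ L' := by rw [heq]; exact (Additive.toMul a : L).2
    exact this.2
  have hc : Nat.card (Additive L) < 2 ^ (x + 1) :=
    lt_of_le_of_lt (Subgroup.card_le_card_group L) hcard
  have key := elem_fixed h q (restrAct φ L hL) hexp' hirr hc
  intro g hg e he
  have := key g hg (Additive.ofMul (⟨e, he⟩ : L))
  exact congrArg (fun a : Additive L => ((Additive.toMul a : L) : E)) this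

theorem exists_minimal_invariant {E G : Type*} [CommGroup E] [Finite E] [Nontrivial E] [Group G]
    (φ : G →* MulAut E) : ∃ L : Subgroup E, (∀ g, ∀ e ∈ L, φ g e ∈ L) ∧ L ≠ ⊥ ∧
      ∀ L' : Subgroup E, (∀ g, ∀ e ∈ L', φ g e ∈ L') → L' ≤ L → L' ≠ ⊥ → L' = L := by
  let S : Set (Subgroup E) := {U | U ≠ ⊥ ∧ ∀ g : G, ∀ w ∈ U, φ g w ∈ U}
  have hS : S.Nonempty := ⟨⊤, by simp, fun g w _ => Subgroup.mem_top _⟩
  obtain ⟨U, ⟨hU0, hUinv⟩, hUmin⟩ := (wellFounded_lt (α := Subgroup E)).has_min S hS
  refine ⟨U, hUinv, hU0, fun L' hL' hle hne => ?_⟩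
  by_contra hcon
  exact hUmin L' ⟨hne, hL'⟩ (lt_of_le_of_ne hle hcon)

theorem card_quot_lt {E : Type*} [CommGroup E] [Finite E] (L : Subgroup E) (hL : L ≠ ⊥) {n : ℕ}
    (hE : Nat.card E < 2 * n) : Nat.card (E ⧸ L) < n := by
  have h1 := Subgroup.card_eq_card_quotient_mul_card_subgroup L
  have h2 : 2 ≤ Nat.card L := by
    have h3 : Nat.card L ≠ 1 := fun h => hL (Subgroup.eq_bot_of_card_eq L h)
    have h4 : 0 < Nat.card L := Nat.card_pos
    omega
  nlinarith

theorem autBound_aux {x k : ℕ} (h : IrrBound x k) (m : ℕ) : m + 1 ≤ x →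
    ∀ (E : Type) [CommGroup E] [Finite E] (G : Type) [Group G] [Group.IsSolvable G]
    (φ : G →* MulAut E), Nat.card E < 2 ^ (m + 2) → ∀ g ∈ derivedSeries G (k + m), φ g = 1 := by
  induction m with
  | zero =>
    intro hx E _ _ G _ _ φ hcard g hg
    rcases subsingleton_or_nontrivial E with hE | hE
    · apply MulEquiv.ext
      intro e
      exact Subsingleton.elim _ _
    obtain ⟨L, hL, hL0, hmin⟩ := exists_minimal_invariant φ
    have hq : Nat.card (E ⧸ L) < 2 := card_quot_lt L hL0 (by omega)
    have htop : L = ⊤ := by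
      have h1 : L.index ≤ 1 := by
        rw [Subgroup.index_eq_card]
        omega
      have h2 : L.index ≠ 0 := Subgroup.index_ne_zero_of_finite
      exact Subgroup.index_eq_one.1 (by omega)
    have hc : Nat.card E < 2 ^ (x + 1) :=
      lt_of_lt_of_le hcard (Nat.pow_le_pow_right (by norm_num) (by omega))
    have key := minimal_fixed h φ L hL hL0 hmin hc g hg
    apply MulEquiv.ext
    intro e
    rw [MulAut.one_apply]
    exact key e (by rw [htop]; exact Subgroup.mem_top e)
  | succ m ih =>
    intro hx E _ _ G _ _ φ hcard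
    rcases subsingleton_or_nontrivial E with hE | hE
    · intro g _
      apply MulEquiv.ext
      intro e
      exact Subsingleton.elim _ _
    obtain ⟨L, hL, hL0, hmin⟩ := exists_minimal_invariant φ
    have hq : Nat.card (E ⧸ L) < 2 ^ (m + 2) := card_quot_lt L hL0 (by
      have : 2 ^ (m + 1 + 2) = 2 * 2 ^ (m + 2) := by ring
      omega)
    have hc : Nat.card E < 2 ^ (x + 1) :=
      lt_of_lt_of_le hcard (Nat.pow_le_pow_right (by norm_num) (by omega))
    have key := minimal_fixed h φ L hL hL0 hmin hc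
    have ih' := ih (by omega) (E ⧸ L) G (quotAct φ L hL) hq
    have hdec : ∀ g ∈ derivedSeries G (k + m), ∀ e, ∃ l ∈ L, φ g e = e * l := by
      intro g hg e
      have h1 : quotAct φ L hL g (e : E ⧸ L) = (e : E ⧸ L) := by
        rw [ih' g hg, MulAut.one_apply]
      rw [quotAct_mk] at h1
      have h2 := QuotientGroup.eq.1 h1.symm
      exact ⟨e⁻¹ * φ g e, h2, by group⟩
    have hmono : derivedSeries G (k + m) ≤ derivedSeries G k :=
      derivedSeries_antitone G (by omega)
    have hle : derivedSeries G (k + (m + 1)) ≤ φ.ker := by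
      rw [← add_assoc, derivedSeries_succ, Subgroup.commutator_le]
      intro a ha b hb
      rw [MonoidHom.mem_ker, commutatorElement_def, map_mul, map_mul, map_mul, map_inv, map_inv,
        ← commutatorElement_def, commutatorElement_eq_one_iff_mul_comm]
      apply MulEquiv.ext
      intro e
      rw [MulAut.mul_apply, MulAut.mul_apply]
      obtain ⟨l, hl, hl'⟩ := hdec a ha e
      obtain ⟨l₂, hl₂, hl₂'⟩ := hdec b hb e
      rw [hl', hl₂', map_mul, map_mul, key a (hmono ha) l₂ hl₂, key b (hmono hb) l hl, hl', hl₂']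
      rw [mul_right_comm]
    intro g hg
    exact hle hg

theorem autBound_of_irrBound {x k u : ℕ} (hx : 1 ≤ x) (hu : u < 2 ^ (x + 1))
    (h : IrrBound x k) : AutBound u (k + (x - 1)) := by
  intro E _ _ G _ _ _ φ hcard
  obtain ⟨m, rfl⟩ : ∃ m, x = m + 1 := ⟨x - 1, by omega⟩
  exact autBound_aux h m le_rfl E G φ (lt_of_le_of_lt hcard hu)

end Pool.Agent.Helper3.Zas
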